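import Pool.Agent.LThreeC.Defs

set_option autoImplicit false

/-! Package C1: derivations of a function field of one variable.

PROOF. `k[X] -> F`, `X |-> t`, is formally etale: it is the composition of the localisation
`k[X] -> k(t)` (`t` transcendental) and the separable algebraic extension `F / k(t)` (char 0):
`Algebra.FormallyEtale.of_isLocalization`, `Algebra.FormallyEtale.of_isSeparable`,
`Algebra.FormallyEtale.comp`. Hence `F ⊗ Ω[k[X]/k] ≃ Ω[F/k]`
(`KaehlerDifferential.tensorKaehlerEquivOfFormallyEtale`, Mathlib/RingTheory/Etale/Kaehler.lean) and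
`Ω[k[X]/k]` is free with basis `dX` (`KaehlerDifferential.polynomialEquiv`), so `Ω[F/k]` is a
one-dimensional `F`-space spanned by `d t`. Let `φ : Ω[F/k] -> F` be the isomorphism with
`φ (d t) = 1`, `D := φ ∘ d`. If `f` is transcendental over `k`, then `F` is algebraic over `k(f)`
(theorem `exchange`, or prove it inline), so the same argument for `f` shows that `d f` spans
`Ω[F/k]`, so `d f ≠ 0` and `D f ≠ 0`. If `f` is algebraic over `k` with minimal polynomial `p`, then
`0 = D (p(f)) = p'(f) D f` and `p'(f) ≠ 0` (separable), so `D f = 0`.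
(Another way: `Mathlib.FieldTheory.Differential.Basic`.) -/

namespace Pool.Agent.LThreeC

open Pool.Agent.LThree Polynomial IntermediateField TensorProduct

open scoped IntermediateField.algebraAdjoinAdjoin in
private theorem alg_iff {k F : Type} [Field k] [Field F] [Algebra k F] (s : Set F) :
    Algebra.IsAlgebraic (Algebra.adjoin k s) F ↔
      Algebra.IsAlgebraic (IntermediateField.adjoin k s) F :=
  IsFractionRing.comap_isAlgebraic_iff

/-- The exchange property for transcendence degree one. -/
theorem exchange {k F : Type} [Field k] [Field F] [Algebra k F] (t f : F)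
    (halg : Algebra.IsAlgebraic (adjoin k {t}) F) (hf : Transcendental k f) :
    Algebra.IsAlgebraic (adjoin k {f}) F := by
  rw [← alg_iff] at halg ⊢
  rw [← AlgebraicIndependent.matroid_spanning_iff] at halg ⊢
  have hind : (AlgebraicIndependent.matroid k F).Indep {f} := by
    rw [AlgebraicIndependent.matroid_indep_iff]
    exact (algebraicIndependent_unique_type_iff (R := k) (ι := ({f} : Set F))
      (x := fun i => id (i : F))).2 (by simpa using hf)
  obtain ⟨B, hB, hBt⟩ := halg.exists_isBase_subset
  obtain ⟨B', hB', hfB'⟩ := hind.exists_isBase_superset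
  have h1 : B'.encard ≤ 1 := by
    rw [hB'.encard_eq_encard_of_isBase hB]
    exact (Set.encard_le_encard hBt).trans (Set.encard_singleton t).le
  have h2 : B' = {f} := by
    rw [Set.encard_le_one_iff] at h1
    ext x
    constructor
    · intro hx
      exact h1 x f hx (hfB' rfl)
    · rintro rfl
      exact hfB' rfl
  rw [← h2]
  exact hB'.spanning

attribute [local instance] FractionRing.liftAlgebra

private theorem exists_equiv {k F : Type} [Field k] [CharZero k] [Field F] [Algebra k F] (s : F)
    (hs : Transcendental k s) (halg : Algebra.IsAlgebraic (IntermediateField.adjoin k {s}) F) :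
    ∃ φ : KaehlerDifferential k F ≃ₗ[F] F, φ (KaehlerDifferential.D k F s) = 1 := by
  have hinj : Function.Injective (aeval s : k[X] →ₐ[k] F) :=
    transcendental_iff_injective.1 hs
  letI : Algebra k[X] F := (aeval s : k[X] →ₐ[k] F).toAlgebra
  have hmap : algebraMap k[X] F = (aeval s : k[X] →ₐ[k] F).toRingHom := rfl
  haveI : IsScalarTower k k[X] F := IsScalarTower.of_algebraMap_eq fun x => by
    rw [hmap]
    simp
  haveI : FaithfulSMul k[X] F := (faithfulSMul_iff_algebraMap_injective k[X] F).2 hinj
  have h0 : CharZero F := charZero_of_injective_algebraMap (algebraMap k F).injective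
  rw [← alg_iff] at halg
  have halg2 : Algebra.IsAlgebraic k[X] F := by
    let e : k[X] ≃+* Algebra.adjoin k ({s} : Set F) :=
      ((AlgEquiv.ofInjective (aeval s : k[X] →ₐ[k] F) hinj).trans
        (Subalgebra.equivOfEq _ _ (Algebra.adjoin_singleton_eq_range_aeval k s).symm)).toRingEquiv
    refine (Algebra.isAlgebraic_ringHom_iff_of_comp_eq e (RingEquiv.refl F) ?_).1 halg
    ext x
    · rfl
    · rfl
  have hfr : CharZero (FractionRing k[X]) :=
    charZero_of_injective_algebraMap (IsFractionRing.injective k[X] (FractionRing k[X]))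
  have h1 : Algebra.IsAlgebraic (FractionRing k[X]) F :=
    (IsFractionRing.comap_isAlgebraic_iff (A := k[X]) (K := FractionRing k[X]) (C := F)).1 halg2
  have h2 : Algebra.FormallyEtale (FractionRing k[X]) F := Algebra.FormallyEtale.of_isSeparable _ _
  have h3 : Algebra.FormallyEtale k[X] (FractionRing k[X]) :=
    Algebra.FormallyEtale.of_isLocalization (M := nonZeroDivisors k[X])
  have h4 : Algebra.FormallyEtale k[X] F :=
    Algebra.FormallyEtale.comp k[X] (FractionRing k[X]) F
  let φ : KaehlerDifferential k F ≃ₗ[F] F :=
    ((KaehlerDifferential.tensorKaehlerEquivOfFormallyEtale k k[X] F).symm).trans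
      ((TensorProduct.AlgebraTensorModule.congr (LinearEquiv.refl F F)
        (KaehlerDifferential.polynomialEquiv k)).trans
        (TensorProduct.AlgebraTensorModule.rid k[X] F F))
  refine ⟨φ, ?_⟩
  have h5 : s = algebraMap k[X] F X := by
    rw [hmap]
    simp
  have h6 : (KaehlerDifferential.tensorKaehlerEquivOfFormallyEtale k k[X] F).symm
      (KaehlerDifferential.D k F s) = 1 ⊗ₜ KaehlerDifferential.D k k[X] X := by
    conv_lhs => rw [h5]
    exact KaehlerDifferential.tensorKaehlerEquivOfFormallyEtale_symm_D_algebraMap k k[X] F X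
  simp only [φ, LinearEquiv.trans_apply]
  rw [h6]
  simp

theorem exists_deriv {k F : Type} [Field k] [CharZero k] [Field F] [Algebra k F] (t : F)
    (ht : Transcendental k t) (halg : Algebra.IsAlgebraic (adjoin k {t}) F) :
    ∃ D : Derivation k F F, D t = 1 ∧ ∀ f, D f = 0 ↔ IsAlgebraic k f := by
  obtain ⟨φ, hφ⟩ := exists_equiv t ht halg
  refine ⟨φ.toLinearMap.compDer (KaehlerDifferential.D k F), hφ, fun f => ⟨fun h => ?_, fun h => ?_⟩⟩
  · by_contra hf
    obtain ⟨ψ, hψ⟩ := exists_equiv f hf (exchange t f halg hf)
    have h1 : φ (KaehlerDifferential.D k F f) = 0 := h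
    rw [LinearEquiv.map_eq_zero_iff] at h1
    rw [h1, map_zero] at hψ
    exact zero_ne_one hψ
  · have hint : IsIntegral k f := h.isIntegral
    set D := φ.toLinearMap.compDer (KaehlerDifferential.D k F) with hD
    have h1 := D.map_aeval (minpoly k f) f
    rw [minpoly.aeval, map_zero] at h1
    have h2 : aeval f (derivative (minpoly k f)) ≠ 0 :=
      (minpoly.irreducible hint).separable.aeval_derivative_ne_zero (minpoly.aeval k f)
    rcases smul_eq_zero.1 h1.symm with h3 | h3
    · exact absurd h3 h2
    · exact h3

end Pool.Agent.LThreeC
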