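import Pool.Agent.LThreeC.Defs

set_option autoImplicit false

/-! Package C2: logarithmic derivatives (field identities, short). -/

namespace Pool.Agent.LThreeC

open Pool.Agent.LThree

variable {F : Type} [Field F] [CharZero F]

private theorem LD_mul (D : Derivation ℚ F F) {x y : F} (hx : x ≠ 0) (hy : y ≠ 0) :
    LD D (x * y) = LD D x + LD D y := by
  unfold LD
  rw [Derivation.leibniz]
  simp only [smul_eq_mul]
  field_simp
  ring

private theorem LD_one (D : Derivation ℚ F F) : LD D 1 = 0 := by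
  unfold LD
  rw [Derivation.map_one_eq_zero]
  simp

private theorem LD_inv (D : Derivation ℚ F F) {x : F} (hx : x ≠ 0) :
    LD D x⁻¹ = - LD D x := by
  have h := LD_mul D hx (inv_ne_zero hx)
  rw [mul_inv_cancel₀ hx, LD_one] at h
  linear_combination -h

private theorem LD_div (D : Derivation ℚ F F) {x y : F} (hx : x ≠ 0) (hy : y ≠ 0) :
    LD D (x / y) = LD D x - LD D y := by
  rw [div_eq_mul_inv, LD_mul D hx (inv_ne_zero hy), LD_inv D hy]
  ring

private theorem LD_neg (D : Derivation ℚ F F) (x : F) : LD D (-x) = LD D x := by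
  unfold LD
  rw [map_neg, neg_div_neg_eq]

private theorem LD_pow (D : Derivation ℚ F F) {x : F} (hx : x ≠ 0) (n : ℕ) :
    LD D (x ^ n) = (n : F) * LD D x := by
  induction n with
  | zero => rw [pow_zero, LD_one]; simp
  | succ n ih =>
    rw [pow_succ, LD_mul D (pow_ne_zero n hx) hx, ih]
    push_cast
    ring

private theorem LD_zpow (D : Derivation ℚ F F) {x : F} (hx : x ≠ 0) (n : ℤ) :
    LD D (x ^ n) = (n : F) * LD D x := by
  obtain ⟨m, rfl | rfl⟩ := n.eq_nat_or_neg
  · rw [zpow_natCast, LD_pow D hx]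
    simp
  · rw [zpow_neg, zpow_natCast, LD_inv D (pow_ne_zero m hx), LD_pow D hx]
    push_cast
    ring

private theorem LD_prod (D : Derivation ℚ F F) {ι : Type} (s : Finset ι) (z : ι → F)
    (hz : ∀ i ∈ s, z i ≠ 0) : LD D (∏ i ∈ s, z i) = ∑ i ∈ s, LD D (z i) := by
  classical
  induction s using Finset.induction_on with
  | empty => rw [Finset.prod_empty, Finset.sum_empty, LD_one]
  | insert a s ha ih =>
    rw [Finset.prod_insert ha, Finset.sum_insert ha,
      LD_mul D (hz a (Finset.mem_insert_self a s))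
        (Finset.prod_ne_zero_iff.2 fun i hi => hz i (Finset.mem_insert_of_mem hi)),
      ih fun i hi => hz i (Finset.mem_insert_of_mem hi)]

theorem LD_mono (D : Derivation ℚ F F) {ι : Type} [Fintype ι] (z : ι → F) (hz : ∀ i, z i ≠ 0)
    (u : ι → ℤ) : LD D (mono z u) = ∑ i, (u i : F) * LD D (z i) := by
  unfold mono
  rw [LD_prod D _ _ fun i _ => zpow_ne_zero _ (hz i)]
  exact Finset.sum_congr rfl fun i _ => LD_zpow D (hz i) _

theorem mono_alg_iff (D : Derivation ℚ F F) (hD : ∀ f, D f = 0 ↔ IsAlgebraic ℚ f)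
    {ι : Type} [Fintype ι] (z : ι → F) (hz : ∀ i, z i ≠ 0) (u : ι → ℤ) :
    IsAlgebraic ℚ (mono z u) ↔ ∑ i, (u i : F) * LD D (z i) = 0 := by
  rw [← hD, ← LD_mono D z hz u]
  have h : mono z u ≠ 0 := Finset.prod_ne_zero_iff.2 fun i _ => zpow_ne_zero _ (hz i)
  unfold LD
  rw [div_eq_zero_iff]
  simp [h]

theorem LD_one_sub (D : Derivation ℚ F F) (x : F) (h0 : x ≠ 0) (h1 : x ≠ 1) :
    LD D (1 - x) = -(x / (1 - x)) * LD D x := by
  have h2 : (1 : F) - x ≠ 0 := sub_ne_zero.2 (Ne.symm h1)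
  unfold LD
  rw [map_sub, Derivation.map_one_eq_zero]
  field_simp
  ring

/-- `a (D b) - b (D a) = a b (a - b)` for `a = dlog x`, `b = dlog (1 - x)`. -/
theorem key_identity (D : Derivation ℚ F F) (x : F) (h0 : x ≠ 0) (h1 : x ≠ 1) :
    LD D x * D (LD D (1 - x)) - LD D (1 - x) * D (LD D x) =
      LD D x * LD D (1 - x) * (LD D x - LD D (1 - x)) := by
  have h2 : (1 : F) - x ≠ 0 := sub_ne_zero.2 (Ne.symm h1)
  unfold LD
  rw [map_sub, Derivation.map_one_eq_zero]
  rw [Derivation.leibniz_div, Derivation.leibniz_div]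
  simp only [smul_eq_mul, map_sub, Derivation.map_one_eq_zero, map_zero]
  field_simp
  ring

theorem x_eq (D : Derivation ℚ F F) (x : F) (h0 : x ≠ 0) (h1 : x ≠ 1) (hx : D x ≠ 0) :
    LD D (1 - x) - LD D x ≠ 0 ∧ x = LD D (1 - x) / (LD D (1 - x) - LD D x) := by
  have h2 : (1 : F) - x ≠ 0 := sub_ne_zero.2 (Ne.symm h1)
  have h3 : LD D (1 - x) - LD D x = - (D x / (x * (1 - x))) := by
    unfold LD
    rw [map_sub, Derivation.map_one_eq_zero]
    field_simp
    ring
  have h4 : LD D (1 - x) - LD D x ≠ 0 := by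
    rw [h3]
    exact neg_ne_zero.2 (div_ne_zero hx (mul_ne_zero h0 h2))
  refine ⟨h4, ?_⟩
  rw [eq_div_iff h4, h3]
  unfold LD
  rw [map_sub, Derivation.map_one_eq_zero]
  field_simp
  ring

/-- The two logarithmic derivatives of a transcendental `x` are independent over `ℚ`. -/
theorem LD_indep (D : Derivation ℚ F F) (x : F) (h0 : x ≠ 0) (h1 : x ≠ 1) (hx : D x ≠ 0)
    (htr : Transcendental ℚ x) (a b : ℚ) (h : (a : F) * LD D x + (b : F) * LD D (1 - x) = 0) :
    a = 0 ∧ b = 0 := by
  have h2 : (1 : F) - x ≠ 0 := sub_ne_zero.2 (Ne.symm h1)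
  have h3 : (a : F) * (1 - x) - b * x = 0 := by
    unfold LD at h
    rw [map_sub, Derivation.map_one_eq_zero] at h
    field_simp at h
    have h4 : D x * ((a : F) * (1 - x) - b * x) = 0 := by linear_combination h
    exact (mul_eq_zero.1 h4).resolve_left hx
  by_cases hab : a + b = 0
  · have hb : b = -a := by linarith
    rw [hb] at h3
    push_cast at h3
    have ha : (a : F) = 0 := by linear_combination h3
    have ha' : a = 0 := by exact_mod_cast ha
    exact ⟨ha', by rw [hb, ha', neg_zero]⟩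
  · exfalso
    apply htr
    have hab' : (a : F) + b ≠ 0 := by exact_mod_cast hab
    have : x = ((a / (a + b) : ℚ) : F) := by
      push_cast
      rw [eq_div_iff hab']
      linear_combination -h3
    rw [this]
    exact isAlgebraic_algebraMap (R := ℚ) (A := F) (a / (a + b) : ℚ)

theorem ev_add (l l' : Fin 3 → ℚ) (G : Fin 3 → F) : ev (l + l') G = ev l G + ev l' G := by
  simp only [ev, Pi.add_apply, Fin.sum_univ_three]
  push_cast
  ring

theorem ev_sub (l l' : Fin 3 → ℚ) (G : Fin 3 → F) : ev (l - l') G = ev l G - ev l' G := by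
  simp only [ev, Pi.sub_apply, Fin.sum_univ_three]
  push_cast
  ring

theorem ev_smul (c : ℚ) (l : Fin 3 → ℚ) (G : Fin 3 → F) : ev (c • l) G = (c : F) * ev l G := by
  simp only [ev, Pi.smul_apply, smul_eq_mul, Fin.sum_univ_three]
  push_cast
  ring

private theorem ev_neg (l : Fin 3 → ℚ) (G : Fin 3 → F) : ev (-l) G = - ev l G := by
  simp only [ev, Pi.neg_apply, Fin.sum_univ_three]
  push_cast
  ring

/-- The frames `fr k` are the logarithmic derivatives of the symmetric images `sy k x`. -/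
theorem LD_sy (D : Derivation ℚ F F) (x : F) (h0 : x ≠ 0) (h1 : x ≠ 1) (G : Fin 3 → F)
    (l l' : Fin 3 → ℚ) (hl : LD D x = ev l G) (hl' : LD D (1 - x) = ev l' G) (k : Fin 6) :
    sy k x ≠ 0 ∧ sy k x ≠ 1 ∧ LD D (sy k x) = ev (fr k l l').1 G ∧
      LD D (1 - sy k x) = ev (fr k l l').2 G := by
  have h2 : (1 : F) - x ≠ 0 := sub_ne_zero.2 (Ne.symm h1)
  have h3 : x - 1 ≠ 0 := sub_ne_zero.2 h1
  have h4 : LD D (x - 1) = LD D (1 - x) := by
    rw [← LD_neg, neg_sub]
  fin_cases k
  · exact ⟨h0, h1, hl, hl'⟩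
  · refine ⟨h2, ?_, hl', ?_⟩
    · simpa [sy] using h0
    · simpa [sy, fr] using hl
  · refine ⟨inv_ne_zero h0, ?_, ?_, ?_⟩
    · simpa [sy] using h1
    · simp only [sy, fr]
      show LD D x⁻¹ = ev (-l) G
      rw [LD_inv D h0, hl, ev_neg]
    · show LD D (1 - x⁻¹) = ev (l' - l) G
      have e : 1 - x⁻¹ = (x - 1) / x := by field_simp
      rw [e, LD_div D h3 h0, h4, hl, hl', ev_sub]
  · refine ⟨div_ne_zero h3 h0, ?_, ?_, ?_⟩
    · show (x - 1) / x ≠ 1
      intro h
      rw [div_eq_iff h0] at h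
      have : (1 : F) = 0 := by linear_combination -h
      exact one_ne_zero this
    · show LD D ((x - 1) / x) = ev (l' - l) G
      rw [LD_div D h3 h0, h4, hl, hl', ev_sub]
    · show LD D (1 - (x - 1) / x) = ev (-l) G
      have e : 1 - (x - 1) / x = x⁻¹ := by field_simp; ring
      rw [e, LD_inv D h0, hl, ev_neg]
  · refine ⟨inv_ne_zero h2, ?_, ?_, ?_⟩
    · show (1 - x)⁻¹ ≠ 1
      intro h
      rw [inv_eq_one] at h
      exact h0 (by linear_combination -h)
    · show LD D (1 - x)⁻¹ = ev (-l') G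
      rw [LD_inv D h2, hl', ev_neg]
    · show LD D (1 - (1 - x)⁻¹) = ev (l - l') G
      have e : 1 - (1 - x)⁻¹ = x / (x - 1) := by
        field_simp
        ring
      rw [e, LD_div D h0 h3, h4, hl, hl', ev_sub]
  · refine ⟨div_ne_zero h0 h3, ?_, ?_, ?_⟩
    · show x / (x - 1) ≠ 1
      intro h
      rw [div_eq_iff h3] at h
      have : (1 : F) = 0 := by linear_combination h
      exact one_ne_zero this
    · show LD D (x / (x - 1)) = ev (l - l') G
      rw [LD_div D h0 h3, h4, hl, hl', ev_sub]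
    · show LD D (1 - x / (x - 1)) = ev (-l') G
      have e : 1 - x / (x - 1) = (1 - x)⁻¹ := by
        field_simp
        ring
      rw [e, LD_inv D h2, hl', ev_neg]

theorem D_ev (D : Derivation ℚ F F) (l : Fin 3 → ℚ) (G : Fin 3 → F) :
    D (ev l G) = ev l (fun i => D (G i)) := by
  have h : ∀ (q : ℚ) (x : F), D ((q : F) * x) = (q : F) * D x := by
    intro q x
    rw [Derivation.leibniz]
    have : D (q : F) = 0 := D.map_algebraMap q
    rw [this]
    simp
  simp only [ev, Fin.sum_univ_three, map_add, h]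

/-- `(l × l') · (G × H) = (l·G)(l'·H) - (l'·G)(l·H)`, and `G · (G × H) = 0`. -/
theorem cross_ev (l l' : Fin 3 → ℚ) (G H : Fin 3 → F) :
    ev (crossProduct l l') (crossProduct G H) = ev l G * ev l' H - ev l' G * ev l H := by
  simp only [ev, Fin.sum_univ_three, cross_apply]
  simp
  ring

end Pool.Agent.LThreeC
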