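import Pool.Agent.LThreeC.Defs

set_option autoImplicit false

/-! Package C3: two points of the line of rank two modulo constants.

PROOF of `pair_eqv`. Put `x' = D x`, `y' = D y`, `A = a - (a+b) x`, `C = c - (c+d) x`. Then
`y' x (1-x) = y x' A` and `- y' x (1-x) = (1-y) x' C`, so `y (C - A) = C`. Differentiating,
`y' (C - A)^2 = x' Δ` with `Δ = a d - b c`, so `Δ x (1 - x) = C A (C - A)`. As `x` is
transcendental this is an identity of polynomials over `ℚ`, and `Δ ≠ 0`. Comparing the constant
term, the value at `1` and the leading coefficient one gets six cases. -/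

namespace Pool.Agent.LThreeC

open Pool.Agent.LThree

variable {F : Type} [Field F] [CharZero F]

private theorem poly3 (x : F) (hx : Transcendental ℚ x) (q0 q1 q2 q3 : ℚ)
    (h : (q0 : F) + q1 * x + q2 * x ^ 2 + q3 * x ^ 3 = 0) : q0 = 0 ∧ q1 = 0 ∧ q2 = 0 ∧ q3 = 0 := by
  set Q : Polynomial ℚ := Polynomial.C q0 + Polynomial.C q1 * Polynomial.X +
    Polynomial.C q2 * Polynomial.X ^ 2 + Polynomial.C q3 * Polynomial.X ^ 3 with hQ
  have h1 : Polynomial.aeval x Q = 0 := by
    rw [hQ]
    simp only [map_add, map_mul, Polynomial.aeval_C, Polynomial.aeval_X, map_pow, eq_ratCast]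
    exact h
  have h2 : Q = 0 := by
    by_contra hne
    exact hx ⟨Q, hne, h1⟩
  have hc : ∀ n, Q.coeff n = 0 := fun n => by rw [h2, Polynomial.coeff_zero]
  have c0 := hc 0
  have c1 := hc 1
  have c2 := hc 2
  have c3 := hc 3
  simp [hQ, Polynomial.coeff_X, Polynomial.coeff_C, Polynomial.coeff_X_pow] at c0 c1 c2 c3
  exact ⟨c0, c1, c2, c3⟩

theorem pair_eqv (D : Derivation ℚ F F) (x y : F) (hx0 : x ≠ 0) (hx1 : x ≠ 1) (hy0 : y ≠ 0)
    (hy1 : y ≠ 1) (hx : Transcendental ℚ x) (hDx : D x ≠ 0) (hDy : D y ≠ 0) (a b c d : ℚ)
    (h1 : LD D y = (a : F) * LD D x + (b : F) * LD D (1 - x))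
    (h2 : LD D (1 - y) = (c : F) * LD D x + (d : F) * LD D (1 - x)) : Eqv x y := by
  have hx1' : 1 - x ≠ 0 := sub_ne_zero.2 hx1.symm
  have hy1' : 1 - y ≠ 0 := sub_ne_zero.2 hy1.symm
  have hDr : ∀ r : ℚ, D (r : F) = 0 := fun r => by
    rw [← eq_ratCast (algebraMap ℚ F) r]
    exact D.map_algebraMap r
  have hD1 : ∀ z : F, D (1 - z) = - D z := fun z => by
    rw [map_sub, D.map_one_eq_zero, zero_sub]
  unfold LD at h1 h2
  rw [hD1] at h1
  rw [hD1, hD1] at h2
  set x' := D x with hx'
  set y' := D y with hy'
  set A : F := a - (a + b) * x with hA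
  set C : F := c - (c + d) * x with hC
  have e1 : y' * (x * (1 - x)) = y * x' * A := by
    rw [hA]
    field_simp at h1
    linear_combination h1
  have e2 : -(y' * (x * (1 - x))) = (1 - y) * x' * C := by
    rw [hC]
    field_simp at h2
    linear_combination h2
  have e3 : y * (C - A) = C := by
    have h3 : x' * (y * A + (1 - y) * C) = 0 := by linear_combination -e1 - e2
    rcases mul_eq_zero.1 h3 with h | h
    · exact absurd h hDx
    · linear_combination -h
  have hCA : C - A ≠ 0 := by
    intro h
    rw [h, mul_zero] at e3
    have hA0 : A = 0 := by linear_combination -h - e3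
    rw [hA0, mul_zero] at e1
    exact (mul_ne_zero hDy (mul_ne_zero hx0 hx1')) e1
  have hDA : D A = -(a + b) * x' := by
    rw [hA, map_sub, hDr, D.leibniz, smul_eq_mul, smul_eq_mul, map_add, hDr, hDr, ← hx']
    ring
  have hDC : D C = -(c + d) * x' := by
    rw [hC, map_sub, hDr, D.leibniz, smul_eq_mul, smul_eq_mul, map_add, hDr, hDr, ← hx']
    ring
  have e4 : y' * (C - A) + y * (-(c + d) + (a + b)) * x' = -(c + d) * x' := by
    have h3 := congrArg D e3
    rw [D.leibniz, map_sub, hDA, hDC, smul_eq_mul, smul_eq_mul, ← hy'] at h3
    linear_combination h3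
  have e5 : y' * (C - A) ^ 2 = x' * (a * d - b * c) := by
    have h3 : y' * (C - A) ^ 2 = x' * (-(c + d) * (C - A) - y * (C - A) * (-(c + d) + (a + b))) := by
      linear_combination (C - A) * e4
    rw [h3, e3, hA, hC]
    ring
  have e6 : ((a : F) * d - b * c) * (x * (1 - x)) = C * A * (C - A) := by
    apply mul_left_cancel₀ hDx
    linear_combination -(x * (1 - x)) * e5 + (C - A) ^ 2 * e1 + x' * A * (C - A) * e3
  have hΔ : a * d - b * c ≠ 0 := by
    intro h
    have h3 : ((a : F) * d - b * c) = 0 := by exact_mod_cast congrArg (fun r : ℚ => (r : F)) h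
    rw [h3, mul_zero] at e5
    exact (mul_ne_zero hDy (pow_ne_zero 2 hCA)) e5
  obtain ⟨q0, q1, q2, q3⟩ := poly3 x hx (-(c * a * (c - a)))
    ((a * d - b * c) + c * a * ((c + d) - (a + b)) + (c * (a + b) + a * (c + d)) * (c - a))
    (-(a * d - b * c) - (c + d) * (a + b) * (c - a) -
      (c * (a + b) + a * (c + d)) * ((c + d) - (a + b)))
    ((c + d) * (a + b) * ((c + d) - (a + b))) (by
      rw [hA, hC] at e6
      push_cast
      linear_combination e6)
  have hs : d * b * (b - d) = 0 := by linear_combination -q0 - q1 - q2 - q3
  have k0 : c = 0 ∨ a = 0 ∨ c = a := by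
    have h3 : c * a * (c - a) = 0 := by linear_combination -q0
    rcases mul_eq_zero.1 h3 with h | h
    · rcases mul_eq_zero.1 h with h | h
      · exact Or.inl h
      · exact Or.inr (Or.inl h)
    · exact Or.inr (Or.inr (sub_eq_zero.1 h))
  have k1 : d = 0 ∨ b = 0 ∨ b = d := by
    rcases mul_eq_zero.1 hs with h | h
    · rcases mul_eq_zero.1 h with h | h
      · exact Or.inl h
      · exact Or.inr (Or.inl h)
    · exact Or.inr (Or.inr (sub_eq_zero.1 h))
  have k3 : c + d = 0 ∨ a + b = 0 ∨ c + d = a + b := by
    rcases mul_eq_zero.1 q3 with h | h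
    · rcases mul_eq_zero.1 h with h | h
      · exact Or.inl h
      · exact Or.inr (Or.inl h)
    · exact Or.inr (Or.inr (sub_eq_zero.1 h))
  have hxm : x - 1 ≠ 0 := sub_ne_zero.2 hx1
  rw [hA, hC] at e3
  clear q0 q1 q2 q3 e6 e5 e4 e2 e1 hDA hDC hCA
  rcases k0 with h | h | h
  · subst h
    rcases k1 with h' | h' | h'
    · exact absurd (by rw [h']; ring) hΔ
    · -- y = x
      subst h'
      rcases k3 with h'' | h'' | h''
      · exact absurd (by rw [show d = 0 by linarith]; ring) hΔ
      · exact absurd (by rw [show a = 0 by linarith]; ring) hΔ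
      · obtain rfl : d = a := by linarith
        have ha : (d : F) ≠ 0 := by
          intro h
          apply hΔ
          have : d = 0 := by exact_mod_cast h
          rw [this]; ring
        left
        apply mul_left_cancel₀ ha
        push_cast at e3
        linear_combination -e3
    · -- y = x / (x - 1)
      subst h'
      rcases k3 with h'' | h'' | h''
      · exact absurd (by rw [show b = 0 by linarith]; ring) hΔ
      · obtain rfl : b = -a := by linarith
        have ha : (a : F) ≠ 0 := by
          intro h
          apply hΔ
          have : a = 0 := by exact_mod_cast h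
          rw [this]; ring
        right; right; right; right; left
        rw [eq_div_iff hxm]
        apply mul_left_cancel₀ ha
        push_cast at e3
        linear_combination e3
      · exact absurd (by rw [show a = 0 by linarith]; ring) hΔ
  · subst h
    rcases k1 with h' | h' | h'
    · -- y = 1 - x
      subst h'
      rcases k3 with h'' | h'' | h''
      · exact absurd (by rw [show c = 0 by linarith]; ring) hΔ
      · exact absurd (by rw [show b = 0 by linarith]; ring) hΔ
      · obtain rfl : c = b := by linarith
        have ha : (c : F) ≠ 0 := by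
          intro h
          apply hΔ
          have : c = 0 := by exact_mod_cast h
          rw [this]; ring
        right; left
        apply mul_left_cancel₀ ha
        push_cast at e3
        linear_combination e3
    · exact absurd (by rw [h']; ring) hΔ
    · -- y = 1 / (1 - x)
      subst h'
      rcases k3 with h'' | h'' | h''
      · obtain rfl : b = -c := by linarith
        have ha : (c : F) ≠ 0 := by
          intro h
          apply hΔ
          have : c = 0 := by exact_mod_cast h
          rw [this]; ring
        right; right; right; left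
        rw [inv_eq_one_div, eq_div_iff hx1']
        apply mul_left_cancel₀ ha
        push_cast at e3
        linear_combination e3
      · exact absurd (by rw [show b = 0 by linarith]; ring) hΔ
      · exact absurd (by rw [show c = 0 by linarith]; ring) hΔ
  · subst h
    rcases k1 with h' | h' | h'
    · -- y = (x - 1) / x
      subst h'
      rcases k3 with h'' | h'' | h''
      · exact absurd (by rw [show c = 0 by linarith]; ring) hΔ
      · obtain rfl : b = -c := by linarith
        have ha : (c : F) ≠ 0 := by
          intro h
          apply hΔ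
          have : c = 0 := by exact_mod_cast h
          rw [this]; ring
        right; right; right; right; right
        rw [eq_div_iff hx0]
        apply mul_left_cancel₀ ha
        push_cast at e3
        linear_combination -e3
      · exact absurd (by rw [show b = 0 by linarith]; ring) hΔ
    · -- y = 1 / x
      subst h'
      rcases k3 with h'' | h'' | h''
      · obtain rfl : d = -c := by linarith
        have ha : (c : F) ≠ 0 := by
          intro h
          apply hΔ
          have : c = 0 := by exact_mod_cast h
          rw [this]; ring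
        right; right; left
        rw [inv_eq_one_div, eq_div_iff hx0]
        apply mul_left_cancel₀ ha
        push_cast at e3
        linear_combination e3
      · exact absurd (by rw [show c = 0 by linarith]; ring) hΔ
      · exact absurd (by rw [show d = 0 by linarith]; ring) hΔ
    · exact absurd (by rw [h']; ring) hΔ

end Pool.Agent.LThreeC
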