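import Pool.Agent.LThreeC.TrMono
import Pool.Agent.LThreeC.LogD
import Pool.Agent.LThreeC.Pair
import Pool.Agent.LThreeC.Deriv

set_option autoImplicit false

/-! Package C4: the same from two independent relations, and without a derivation.

`pair_eqv_rel`: the vector `(LD x, LD y, LD (1-x), LD (1-y))` is killed by `u` and `v`
(`mono_alg_iff`). The `y`-blocks `(u (inl 1), u (inr 1))`, `(v (inl 1), v (inr 1))` are linearly
independent: otherwise a nontrivial integral combination `w` of `u, v` has zero `y`-block, and then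
`LD_indep` for `x` gives `w = 0`, against `hli`. Solve the 2x2 system for `LD y, LD (1-y)` and use
`pair_eqv`.

`pair_eqv_gen`: work in `K := adjoin ℚ {x, y}`. As in the first part `x` and `y` are algebraically
dependent: one of the relations has a nonzero `y`-block (otherwise `x^a (1-x)^b` algebraic over `ℚ`
for a nonzero `(a,b)`, impossible for a transcendental `x`), and
`y^c (1-y)^d = const * x^(-a) (1-x)^(-b)` with `(c,d) ≠ 0` shows that `y` is algebraic over
`ℚ(const, x)`, hence over `ℚ(x)`. So `K` is algebraic over `ℚ(x)` and `exists_deriv` applies. -/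

namespace Pool.Agent.LThreeC

open Pool.Agent.LThree

variable {F : Type} [Field F] [CharZero F]

private theorem co_ne {x : Fin 2 → F} (h0 : ∀ i, x i ≠ 0) (h1 : ∀ i, x i ≠ 1) :
    ∀ i, co x i ≠ 0 := by
  rintro (i | i)
  · exact h0 i
  · exact sub_ne_zero.mpr (h1 i).symm

/-- A combination of two independent vectors vanishes only trivially. -/
private theorem comb_zero {u v : Fin 2 ⊕ Fin 2 → ℤ} (hli : LinearIndependent ℤ ![u, v]) {s t : ℤ}
    (h : ∀ i, s * u i + t * v i = 0) : s = 0 ∧ t = 0 := by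
  rw [LinearIndependent.pair_iff] at hli
  apply hli
  funext i
  simp only [Pi.add_apply, Pi.smul_apply, smul_eq_mul, Pi.zero_apply]
  exact h i

theorem pair_eqv_rel (D : Derivation ℚ F F) (hD : ∀ f, D f = 0 ↔ IsAlgebraic ℚ f)
    (x : Fin 2 → F) (h0 : ∀ i, x i ≠ 0) (h1 : ∀ i, x i ≠ 1)
    (htr : ∀ i, Transcendental ℚ (x i)) (u v : Fin 2 ⊕ Fin 2 → ℤ)
    (hli : LinearIndependent ℤ ![u, v]) (hu : IsAlgebraic ℚ (mono (co x) u))
    (hv : IsAlgebraic ℚ (mono (co x) v)) : Eqv (x 0) (x 1) := by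
  have hDx : ∀ i, D (x i) ≠ 0 := fun i h => htr i ((hD _).mp h)
  rw [mono_alg_iff D hD (co x) (co_ne h0 h1)] at hu hv
  simp only [Fintype.sum_sum_type, Fin.sum_univ_two, co, Sum.elim_inl, Sum.elim_inr] at hu hv
  -- a combination with zero `y`-block vanishes
  have key : ∀ s t : ℤ, s * u (Sum.inl 1) + t * v (Sum.inl 1) = 0 →
      s * u (Sum.inr 1) + t * v (Sum.inr 1) = 0 → s = 0 ∧ t = 0 := by
    intro s t e1 e2
    have f1 : (s : F) * u (Sum.inl 1) + t * v (Sum.inl 1) = 0 := by exact_mod_cast e1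
    have f2 : (s : F) * u (Sum.inr 1) + t * v (Sum.inr 1) = 0 := by exact_mod_cast e2
    have h2 := LD_indep D (x 0) (h0 0) (h1 0) (hDx 0) (htr 0)
      ((s * u (Sum.inl 0) + t * v (Sum.inl 0) : ℤ) : ℚ)
      ((s * u (Sum.inr 0) + t * v (Sum.inr 0) : ℤ) : ℚ) (by
        push_cast
        linear_combination (s : F) * hu + (t : F) * hv - LD D (x 1) * f1 - LD D (1 - x 1) * f2)
    have h3 : s * u (Sum.inl 0) + t * v (Sum.inl 0) = 0 := by exact_mod_cast h2.1
    have h4 : s * u (Sum.inr 0) + t * v (Sum.inr 0) = 0 := by exact_mod_cast h2.2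
    apply comb_zero hli
    rintro (i | i)
    · fin_cases i
      · exact h3
      · exact e1
    · fin_cases i
      · exact h4
      · exact e2
  set d : ℤ := u (Sum.inl 1) * v (Sum.inr 1) - u (Sum.inr 1) * v (Sum.inl 1) with hd
  have hd0 : d ≠ 0 := by
    intro h
    rw [hd] at h
    have k1 := key (v (Sum.inr 1)) (-u (Sum.inr 1)) (by linear_combination h) (by ring)
    have k2 := key (v (Sum.inl 1)) (-u (Sum.inl 1)) (by ring) (by linear_combination -h)
    have k3 := key 1 0 (by
      have := k2.2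
      omega) (by
      have := k1.2
      omega)
    exact one_ne_zero k3.1
  have hdF : (d : F) ≠ 0 := by exact_mod_cast hd0
  have hdF' : (d : F) = u (Sum.inl 1) * v (Sum.inr 1) - u (Sum.inr 1) * v (Sum.inl 1) := by
    rw [hd]
    push_cast
    ring
  refine pair_eqv D (x 0) (x 1) (h0 0) (h1 0) (h0 1) (h1 1) (htr 0) (hDx 0) (hDx 1)
    ((u (Sum.inr 1) * v (Sum.inl 0) - u (Sum.inl 0) * v (Sum.inr 1) : ℤ) / (d : ℤ))
    ((u (Sum.inr 1) * v (Sum.inr 0) - u (Sum.inr 0) * v (Sum.inr 1) : ℤ) / (d : ℤ))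
    ((v (Sum.inl 1) * u (Sum.inl 0) - u (Sum.inl 1) * v (Sum.inl 0) : ℤ) / (d : ℤ))
    ((v (Sum.inl 1) * u (Sum.inr 0) - u (Sum.inl 1) * v (Sum.inr 0) : ℤ) / (d : ℤ)) ?_ ?_
  · push_cast
    rw [div_mul_eq_mul_div, div_mul_eq_mul_div, ← add_div, eq_div_iff hdF, hdF']
    linear_combination (v (Sum.inr 1) : F) * hu - (u (Sum.inr 1) : F) * hv
  · push_cast
    rw [div_mul_eq_mul_div, div_mul_eq_mul_div, ← add_div, eq_div_iff hdF, hdF']
    linear_combination (u (Sum.inl 1) : F) * hv - (v (Sum.inl 1) : F) * hu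

open IntermediateField in
/-- The case where the field is generated by the two numbers. -/
private theorem pair_top (x : Fin 2 → F) (htop : adjoin ℚ {x 0, x 1} = ⊤) (h0 : ∀ i, x i ≠ 0)
    (h1 : ∀ i, x i ≠ 1) (htr : ∀ i, Transcendental ℚ (x i)) (u v : Fin 2 ⊕ Fin 2 → ℤ)
    (hli : LinearIndependent ℤ ![u, v]) (hu : IsAlgebraic ℚ (mono (co x) u))
    (hv : IsAlgebraic ℚ (mono (co x) v)) : Eqv (x 0) (x 1) := by
  set E := adjoin ℚ {x 0} with hE
  have hx0 : x 0 ∈ E := mem_adjoin_simple_self ℚ (x 0)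
  have hone : (1 : F) - x 0 ∈ E := sub_mem (one_mem E) hx0
  have hmono : ∀ w : Fin 2 ⊕ Fin 2 → ℤ, mono (co x) w =
      x 0 ^ w (Sum.inl 0) * (1 - x 0) ^ w (Sum.inr 0) *
        (x 1 ^ w (Sum.inl 1) * (1 - x 1) ^ w (Sum.inr 1)) := by
    intro w
    simp only [mono, co, Fintype.prod_sum_type, Fin.prod_univ_two, Sum.elim_inl, Sum.elim_inr]
    ring
  have hne1 : (1 : F) - x 0 ≠ 0 := sub_ne_zero.mpr (h1 0).symm
  have halg1 : IsAlgebraic E (x 1) := by
    by_contra hcon
    have htr1 : Transcendental E (x 1) := hcon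
    have key : ∀ w : Fin 2 ⊕ Fin 2 → ℤ, IsAlgebraic ℚ (mono (co x) w) → w = 0 := by
      intro w hw
      have hz : x 0 ^ w (Sum.inl 0) * (1 - x 0) ^ w (Sum.inr 0) ∈ E :=
        mul_mem (zpow_mem hx0 _) (zpow_mem hone _)
      have hzne : x 0 ^ w (Sum.inl 0) * (1 - x 0) ^ w (Sum.inr 0) ≠ 0 :=
        mul_ne_zero (zpow_ne_zero _ (h0 0)) (zpow_ne_zero _ hne1)
      have hzi : IsAlgebraic E (x 0 ^ w (Sum.inl 0) * (1 - x 0) ^ w (Sum.inr 0))⁻¹ :=
        isAlgebraic_algebraMap (⟨_, inv_mem hz⟩ : E)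
      have h2 : IsAlgebraic E (mono (co x) w) := hw.tower_top E
      have h3 : IsAlgebraic E (x 1 ^ w (Sum.inl 1) * (1 - x 1) ^ w (Sum.inr 1)) := by
        have h4 := hzi.mul h2
        rw [hmono, ← mul_assoc, inv_mul_cancel₀ hzne, one_mul] at h4
        exact h4
      obtain ⟨e1, e2⟩ := tr_mono (x 1) htr1 _ _ h3
      rw [hmono, e1, e2, zpow_zero, zpow_zero, mul_one, mul_one] at hw
      obtain ⟨e3, e4⟩ := tr_mono (x 0) (htr 0) _ _ hw
      funext i
      rcases i with i | i
      · fin_cases i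
        · exact e3
        · exact e1
      · fin_cases i
        · exact e4
        · exact e2
    have hu0 := key u hu
    have h5 := comb_zero hli (s := 1) (t := 0) (by
      intro i
      rw [hu0]
      simp)
    exact one_ne_zero h5.1
  have hle : adjoin ℚ {x 0, x 1} ≤ (algebraicClosure E F).restrictScalars ℚ := by
    rw [adjoin_le_iff]
    rintro z (rfl | hz)
    · change x 0 ∈ algebraicClosure E F
      rw [mem_algebraicClosure_iff]
      exact isAlgebraic_algebraMap (⟨_, hx0⟩ : E)
    · rw [Set.mem_singleton_iff] at hz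
      rw [hz]
      change x 1 ∈ algebraicClosure E F
      rw [mem_algebraicClosure_iff]
      exact halg1
  have halg : Algebra.IsAlgebraic E F := by
    refine ⟨fun z => ?_⟩
    have hz : z ∈ adjoin ℚ {x 0, x 1} := by
      rw [htop]
      exact mem_top
    have h2 : z ∈ algebraicClosure E F := hle hz
    rwa [mem_algebraicClosure_iff] at h2
  obtain ⟨D, _, hD⟩ := exists_deriv (k := ℚ) (x 0) (htr 0) halg
  exact pair_eqv_rel D hD x h0 h1 htr u v hli hu hv

open IntermediateField in
theorem pair_eqv_gen (x : Fin 2 → F) (h0 : ∀ i, x i ≠ 0) (h1 : ∀ i, x i ≠ 1)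
    (htr : ∀ i, Transcendental ℚ (x i)) (u v : Fin 2 ⊕ Fin 2 → ℤ)
    (hli : LinearIndependent ℤ ![u, v]) (hu : IsAlgebraic ℚ (mono (co x) u))
    (hv : IsAlgebraic ℚ (mono (co x) v)) : Eqv (x 0) (x 1) := by
  set K := adjoin ℚ ({x 0, x 1} : Set F) with hK
  have hmem : ∀ i, x i ∈ K := by
    intro i
    apply subset_adjoin
    fin_cases i
    · exact Or.inl rfl
    · exact Or.inr rfl
  let y : Fin 2 → K := fun i => ⟨x i, hmem i⟩
  have hy : ∀ i, algebraMap K F (y i) = x i := fun _ => rfl
  have hinj : Function.Injective (algebraMap K F) := (algebraMap K F).injective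
  have htop : adjoin ℚ {y 0, y 1} = (⊤ : IntermediateField ℚ K) := by
    rw [eq_top_iff]
    rintro ⟨z, hz⟩ _
    refine adjoin_induction (F := ℚ) (s := {x 0, x 1})
      (p := fun z hz => (⟨z, hz⟩ : K) ∈ adjoin ℚ {y 0, y 1}) ?_ ?_ ?_ ?_ ?_ hz
    · rintro w (hw | hw)
      · apply subset_adjoin
        left
        exact Subtype.ext hw
      · apply subset_adjoin
        right
        exact Subtype.ext hw
    · intro q
      have h1 : (⟨algebraMap ℚ F q, IntermediateField.algebraMap_mem _ q⟩ : K) = (q : K) := by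
        apply Subtype.ext
        simp
      rw [h1]
      exact SubfieldClass.ratCast_mem _ q
    · intro a b ha hb h1 h2
      exact add_mem h1 h2
    · intro a ha h1
      exact inv_mem h1
    · intro a b ha hb h1 h2
      exact mul_mem h1 h2
  have hmono : ∀ w : Fin 2 ⊕ Fin 2 → ℤ, algebraMap K F (mono (co y) w) = mono (co x) w := by
    intro w
    unfold mono
    rw [map_prod]
    refine Finset.prod_congr rfl fun i _ => ?_
    rw [map_zpow₀]
    congr 1
    rcases i with i | i
    · rfl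
    · simp only [co, Sum.elim_inr]
      rw [map_sub, map_one, hy]
  have hE := pair_top y htop (fun i h => h0 i (by rw [← hy, h, map_zero]))
    (fun i h => h1 i (by rw [← hy, h, map_one]))
    (fun i => by
      rw [← transcendental_algebraMap_iff hinj, hy]
      exact htr i) u v hli
    (by
      rw [← isAlgebraic_algebraMap_iff hinj, hmono]
      exact hu)
    (by
      rw [← isAlgebraic_algebraMap_iff hinj, hmono]
      exact hv)
  rcases hE with h | h | h | h | h | h
  · left
    rw [← hy, ← hy, h]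
  · right; left
    rw [← hy, ← hy, h, map_sub, map_one]
  · right; right; left
    rw [← hy, ← hy, h, map_inv₀]
  · right; right; right; left
    rw [← hy, ← hy, h, map_inv₀, map_sub, map_one]
  · right; right; right; right; left
    rw [← hy, ← hy, h, map_div₀, map_sub, map_one]
  · right; right; right; right; right
    rw [← hy, ← hy, h, map_div₀, map_sub, map_one]

end Pool.Agent.LThreeC
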