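import Pool.Agent.LThreeC.Defs

set_option autoImplicit false

/-! Package C17: sums of two roots of unity.

`sixth`: embed `ℚ(a,b)` in `ℂ` (algebraic over `ℚ`); `|a| = |b| = 1`, so conjugating `a + b = 1` gives
`a⁻¹ + b⁻¹ = 1`, `a b = 1`, `a^2 - a + 1 = 0`, `a^3 = -1`, `a^6 = 1`. (Or: `b = 1 - a` and work with
`a` only, through `IsAlgClosed.lift` / `AlgHom` of `ℚ⟮a⟯` to `ℂ`.)
`sym_case`: `X = c₃ (1 - c₂ + c₁ c₂) - c₁ c₂ c₃ X`, the `c_i` are algebraic and `X` transcendental, so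
`1 - c₂ + c₁ c₂ = 0`, and `sixth` applies to `c₂` and `-c₁c₂`.
`two_rel_one`: `x^n = 1 = (1-x)^n` with `n = |ad - bc|`, then `sixth`. -/

namespace Pool.Agent.LThreeC

open Pool.Agent.LThree

variable {F : Type} [Field F] [CharZero F]

private theorem sixth_complex (α β : ℂ) (m n : ℕ) (hm : 0 < m) (hn : 0 < n) (ha : α ^ m = 1)
    (hb : β ^ n = 1) (hab : α + β = 1) : α ^ 6 = 1 ∧ β ^ 6 = 1 := by
  have h1 : ‖α‖ = 1 := Complex.norm_eq_one_of_pow_eq_one ha hm.ne'
  have h2 : ‖β‖ = 1 := Complex.norm_eq_one_of_pow_eq_one hb hn.ne'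
  have h3 : α * (starRingEnd ℂ) α = 1 := by
    rw [Complex.mul_conj, Complex.normSq_eq_norm_sq, h1]
    norm_num
  have h4 : β * (starRingEnd ℂ) β = 1 := by
    rw [Complex.mul_conj, Complex.normSq_eq_norm_sq, h2]
    norm_num
  have h5 : (starRingEnd ℂ) α + (starRingEnd ℂ) β = 1 := by
    rw [← map_add, hab, map_one]
  have h6 : α * β = 1 := by
    calc α * β = α * β * ((starRingEnd ℂ) α + (starRingEnd ℂ) β) := by rw [h5, mul_one]
      _ = β * (α * (starRingEnd ℂ) α) + α * (β * (starRingEnd ℂ) β) := by ring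
      _ = 1 := by
        rw [h3, h4]
        linear_combination hab
  have h7 : β = 1 - α := by linear_combination hab
  have h8 : α ^ 2 = α - 1 := by
    rw [h7] at h6
    linear_combination (-1) * h6
  have h9 : β ^ 2 = β - 1 := by
    have : α = 1 - β := by linear_combination hab
    rw [this] at h6
    linear_combination (-1) * h6
  have key : ∀ z : ℂ, z ^ 2 = z - 1 → z ^ 6 = 1 := by
    intro z hz
    have h10 : z ^ 3 = -1 := by linear_combination (z + 1) * hz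
    calc z ^ 6 = (z ^ 3) ^ 2 := by ring
      _ = 1 := by rw [h10]; norm_num
  exact ⟨key α h8, key β h9⟩

theorem sixth (a b : F) (m n : ℕ) (hm : 0 < m) (hn : 0 < n) (ha : a ^ m = 1) (hb : b ^ n = 1)
    (hab : a + b = 1) : a ^ 6 = 1 ∧ b ^ 6 = 1 := by
  have hint : IsIntegral ℚ a := by
    refine ⟨Polynomial.X ^ m - 1, Polynomial.monic_X_pow_sub_C 1 hm.ne', ?_⟩
    simp [ha]
  have hfd : FiniteDimensional ℚ (IntermediateField.adjoin ℚ {a}) :=
    IntermediateField.adjoin.finiteDimensional hint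
  set K := IntermediateField.adjoin ℚ {a} with hK
  have haK : a ∈ K := IntermediateField.mem_adjoin_simple_self ℚ a
  have hbK : b ∈ K := by
    have : b = 1 - a := by linear_combination hab
    rw [this]
    exact K.sub_mem K.one_mem haK
  let φ : K →ₐ[ℚ] ℂ := IsAlgClosed.lift
  have h1 : (φ ⟨a, haK⟩) ^ m = 1 := by
    rw [← map_pow, ← map_one φ]
    congr 1
    exact Subtype.ext ha
  have h2 : (φ ⟨b, hbK⟩) ^ n = 1 := by
    rw [← map_pow, ← map_one φ]
    congr 1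
    exact Subtype.ext hb
  have h3 : φ ⟨a, haK⟩ + φ ⟨b, hbK⟩ = 1 := by
    rw [← map_add, ← map_one φ]
    congr 1
    exact Subtype.ext hab
  obtain ⟨h4, h5⟩ := sixth_complex _ _ m n hm hn h1 h2 h3
  constructor
  · rw [← map_pow, ← map_one φ] at h4
    exact congrArg Subtype.val (φ.injective h4)
  · rw [← map_pow, ← map_one φ] at h5
    exact congrArg Subtype.val (φ.injective h5)

/-- The symmetric case: `Y = c₁ (1 - X)`, `Z = c₂ (1 - Y)`, `X = c₃ (1 - Z)` with roots of unity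
`c₁, c₂, c₃` and `X` transcendental. -/
theorem sym_case (X Y Z c₁ c₂ c₃ : F) (hX : Transcendental ℚ X) (n : ℕ) (hn : 0 < n)
    (h1 : c₁ ^ n = 1) (h2 : c₂ ^ n = 1) (h3 : c₃ ^ n = 1) (e1 : Y = c₁ * (1 - X))
    (e2 : Z = c₂ * (1 - Y)) (e3 : X = c₃ * (1 - Z)) : c₁ ^ 6 = 1 := by
  have halg : ∀ c : F, c ^ n = 1 → IsAlgebraic ℚ c := by
    intro c hc
    have : IsIntegral ℚ c := by
      refine ⟨Polynomial.X ^ n - 1, Polynomial.monic_X_pow_sub_C 1 hn.ne', ?_⟩
      simp [hc]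
    exact this.isAlgebraic
  have hc1 := halg c₁ h1
  have hc2 := halg c₂ h2
  have hc3 := halg c₃ h3
  have hone : IsAlgebraic ℚ (1 : F) := isAlgebraic_one
  have h4 : X * (1 + c₁ * c₂ * c₃) = c₃ * (1 - c₂ + c₁ * c₂) := by
    rw [e2, e1] at e3
    linear_combination e3
  have h5 : 1 + c₁ * c₂ * c₃ = 0 := by
    by_contra h
    apply hX
    have h6 : X = c₃ * (1 - c₂ + c₁ * c₂) * (1 + c₁ * c₂ * c₃)⁻¹ := by
      rw [eq_mul_inv_iff_mul_eq₀ h, h4]
    rw [h6]
    exact (hc3.mul ((hone.sub hc2).add (hc1.mul hc2))).mul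
      (hone.add ((hc1.mul hc2).mul hc3)).inv
  have hc30 : c₃ ≠ 0 := by
    rintro rfl
    rw [zero_pow hn.ne'] at h3
    exact zero_ne_one h3
  have h6 : 1 - c₂ + c₁ * c₂ = 0 := by
    rw [h5, mul_zero] at h4
    exact (mul_eq_zero.1 h4.symm).resolve_left hc30
  have h7 : (-(c₁ * c₂)) ^ (2 * n) = 1 := by
    rw [pow_mul, neg_sq, ← pow_mul, mul_comm 2 n, pow_mul, mul_pow, h1, h2]
    norm_num
  obtain ⟨h8, h9⟩ := sixth c₂ (-(c₁ * c₂)) n (2 * n) hn (by omega) h2 h7
    (by linear_combination (-1) * h6)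
  have h10 : (c₁ * c₂) ^ 6 = 1 := by
    rw [← h9]
    ring
  rwa [mul_pow, h8, mul_one] at h10

/-- Two independent relations of `x, 1 - x`. -/
theorem two_rel_one (x : F) (h0 : x ≠ 0) (h1 : x ≠ 1) (a b c d : ℤ) (hdet : a * d - b * c ≠ 0)
    (e1 : x ^ a * (1 - x) ^ b = 1) (e2 : x ^ c * (1 - x) ^ d = 1) : x ^ 6 = 1 := by
  have h2 : (1 - x) ≠ 0 := sub_ne_zero.2 (Ne.symm h1)
  have h3 : x ^ (a * d - b * c) = 1 := by
    have h4 : (x ^ a * (1 - x) ^ b) ^ d * (x ^ c * (1 - x) ^ d) ^ (-b) = 1 := by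
      rw [e1, e2, one_zpow, one_zpow, one_mul]
    rw [mul_zpow, mul_zpow, ← zpow_mul, ← zpow_mul, ← zpow_mul, ← zpow_mul] at h4
    have h5 : x ^ (a * d) * (1 - x) ^ (b * d) * (x ^ (c * -b) * (1 - x) ^ (d * -b)) =
        x ^ (a * d - b * c) := by
      have h6 : a * d - b * c = a * d + c * -b := by ring
      have h7 : (1 - x) ^ (b * d) * (1 - x) ^ (d * -b) = 1 := by
        rw [← zpow_add₀ h2]
        have : b * d + d * -b = 0 := by ring
        rw [this, zpow_zero]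
      rw [h6, zpow_add₀ h0]
      linear_combination x ^ (a * d) * x ^ (c * -b) * h7
    rw [← h5]
    exact h4
  have h3' : (1 - x) ^ (a * d - b * c) = 1 := by
    have h4 : (x ^ a * (1 - x) ^ b) ^ (-c) * (x ^ c * (1 - x) ^ d) ^ a = 1 := by
      rw [e1, e2, one_zpow, one_zpow, one_mul]
    rw [mul_zpow, mul_zpow, ← zpow_mul, ← zpow_mul, ← zpow_mul, ← zpow_mul] at h4
    have h5 : x ^ (a * -c) * (1 - x) ^ (b * -c) * (x ^ (c * a) * (1 - x) ^ (d * a)) =
        (1 - x) ^ (a * d - b * c) := by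
      have h6 : a * d - b * c = b * -c + d * a := by ring
      have h7 : x ^ (a * -c) * x ^ (c * a) = 1 := by
        rw [← zpow_add₀ h0]
        have : a * -c + c * a = 0 := by ring
        rw [this, zpow_zero]
      rw [h6, zpow_add₀ h2]
      linear_combination (1 - x) ^ (b * -c) * (1 - x) ^ (d * a) * h7
    rw [← h5]
    exact h4
  have hnat : ∀ z : F, z ^ (a * d - b * c) = 1 → z ^ (a * d - b * c).natAbs = 1 := by
    intro z hz
    rcases Int.natAbs_eq (a * d - b * c) with h | h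
    · rw [h, zpow_natCast] at hz
      exact hz
    · rw [h, zpow_neg, zpow_natCast, inv_eq_one] at hz
      exact hz
  exact (sixth x (1 - x) _ _ (Int.natAbs_pos.2 hdet) (Int.natAbs_pos.2 hdet) (hnat x h3)
    (hnat (1 - x) h3') (by ring)).1

end Pool.Agent.LThreeC
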