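import Pool.Agent.LThreeC.Defs

set_option autoImplicit false

/-! Package C12: symmetries and bounded relations.

`small_of_eqv`: `y = x`: `x / y = 1`; `y = 1 - x`: `y / (1-x) = 1`; `y = x⁻¹`: `x y = 1`;
`y = (1-x)⁻¹`: `(1-x) y = 1`; `y = x/(x-1)`: `(y (1-x) / x)^2 = 1`; `y = (x-1)/x`:
`(x y / (1-x))^2 = 1`.

`sy_sq`: every `sy k x` and `1 - sy k x` is `± x^a (1-x)^b` with `a, b ∈ {-1,0,1}`, not both `0`:
the exponents are the entries of `ex k` and `ex' k`. `small_of_sy`: `(Y/(1-X))^6 = 1` for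
`Y = sy k' (x j)`, `X = sy k (x i)`, `i ≠ j` gives a relation of size `<= 6`. -/

namespace Pool.Agent.LThreeC

open Pool.Agent.LThree

variable {F : Type} [Field F] [CharZero F]

/-- Exponents supported on two indices. -/
def symV (i j : Fin 3) (a b a' b' : ℤ) : Fin 3 ⊕ Fin 3 → ℤ :=
  Sum.elim (fun l => if l = i then a else if l = j then a' else 0)
    (fun l => if l = i then b else if l = j then b' else 0)

omit [CharZero F] in
theorem symV_mono (x : Fin 3 → F) (i j : Fin 3) (hij : i ≠ j) (a b a' b' : ℤ) :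
    mono (co x) (symV i j a b a' b') =
      x i ^ a * (1 - x i) ^ b * (x j ^ a' * (1 - x j) ^ b') := by
  have key : ∀ (f : Fin 3 → F) (c c' : ℤ),
      ∏ l, f l ^ (if l = i then c else if l = j then c' else 0) = f i ^ c * f j ^ c' := by
    intro f c c'
    have h1 : ∀ l, f l ^ (if l = i then c else if l = j then c' else 0) =
        (if l = i then f i ^ c else 1) * (if l = j then f j ^ c' else 1) := by
      intro l
      by_cases hl : l = i
      · subst hl
        rw [if_pos rfl, if_pos rfl, if_neg hij, mul_one]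
      · rw [if_neg hl, if_neg hl, one_mul]
        by_cases hl' : l = j
        · subst hl'
          rw [if_pos rfl, if_pos rfl]
        · rw [if_neg hl', if_neg hl', zpow_zero]
    rw [Finset.prod_congr rfl fun l _ => h1 l, Finset.prod_mul_distrib, Finset.prod_ite_eq',
      Finset.prod_ite_eq', if_pos (Finset.mem_univ _), if_pos (Finset.mem_univ _)]
  unfold mono co symV
  rw [Fintype.prod_sum_type]
  simp only [Sum.elim_inl, Sum.elim_inr]
  rw [key x a a', key (fun l => 1 - x l) b b']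
  ring

theorem symV_ne (i j : Fin 3) (hij : i ≠ j) (a b a' b' : ℤ) (h : symV i j a b a' b' = 0) :
    a = 0 ∧ b = 0 ∧ a' = 0 ∧ b' = 0 := by
  have h1 := congrFun h (Sum.inl i)
  have h2 := congrFun h (Sum.inr i)
  have h3 := congrFun h (Sum.inl j)
  have h4 := congrFun h (Sum.inr j)
  simp only [symV, Sum.elim_inl, Sum.elim_inr, if_true, Pi.zero_apply, if_neg hij.symm] at h1 h2 h3 h4
  exact ⟨h1, h2, h3, h4⟩

theorem symV_nrm (i j : Fin 3) (a b a' b' : ℤ) (B : ℕ) (h1 : a.natAbs ≤ B) (h2 : b.natAbs ≤ B)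
    (h3 : a'.natAbs ≤ B) (h4 : b'.natAbs ≤ B) : nrm (symV i j a b a' b') ≤ B := by
  unfold nrm
  refine Finset.sup_le fun s _ => ?_
  rcases s with l | l
  · simp only [symV, Sum.elim_inl]
    split_ifs
    · exact h1
    · exact h3
    · simp
  · simp only [symV, Sum.elim_inr]
    split_ifs
    · exact h2
    · exact h4
    · simp

omit [CharZero F] in
theorem symV_small (x : Fin 3 → F) (i j : Fin 3) (hij : i ≠ j) (a b a' b' : ℤ) (B : ℕ)
    (h1 : a.natAbs ≤ B) (h2 : b.natAbs ≤ B) (h3 : a'.natAbs ≤ B) (h4 : b'.natAbs ≤ B)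
    (hne : ¬ (a = 0 ∧ b = 0 ∧ a' = 0 ∧ b' = 0))
    (h : x i ^ a * (1 - x i) ^ b * (x j ^ a' * (1 - x j) ^ b') = 1) : Small B x :=
  ⟨symV i j a b a' b', fun h0 => hne (symV_ne i j hij a b a' b' h0),
    symV_nrm i j a b a' b' B h1 h2 h3 h4, by rw [symV_mono x i j hij, h]⟩

/-- Exponents supported on one index. -/
def symW (i : Fin 3) (a b : ℤ) : Fin 3 ⊕ Fin 3 → ℤ :=
  Sum.elim (fun l => if l = i then a else 0) (fun l => if l = i then b else 0)

omit [CharZero F] in
theorem symW_mono (x : Fin 3 → F) (i : Fin 3) (a b : ℤ) :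
    mono (co x) (symW i a b) = x i ^ a * (1 - x i) ^ b := by
  have key : ∀ (f : Fin 3 → F) (c : ℤ), ∏ l, f l ^ (if l = i then c else 0) = f i ^ c := by
    intro f c
    have h1 : ∀ l, f l ^ (if l = i then c else 0) = if l = i then f i ^ c else 1 := by
      intro l
      by_cases hl : l = i
      · subst hl
        rw [if_pos rfl, if_pos rfl]
      · rw [if_neg hl, if_neg hl, zpow_zero]
    rw [Finset.prod_congr rfl fun l _ => h1 l, Finset.prod_ite_eq', if_pos (Finset.mem_univ _)]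
  unfold mono co symW
  rw [Fintype.prod_sum_type]
  simp only [Sum.elim_inl, Sum.elim_inr]
  rw [key x a, key (fun l => 1 - x l) b]

theorem small_of_eqv (x : Fin 3 → F) (h0 : ∀ i, x i ≠ 0) (h1 : ∀ i, x i ≠ 1) (i j : Fin 3)
    (hij : i ≠ j) (h : Eqv (x i) (x j)) : Small 2 x := by
  have hi0 := h0 i
  have hj0 := h0 j
  have hi1 : 1 - x i ≠ 0 := sub_ne_zero.2 (h1 i).symm
  have hi1' : x i - 1 ≠ 0 := sub_ne_zero.2 (h1 i)
  rcases h with h | h | h | h | h | h
  · refine symV_small x i j hij 1 0 (-1) 0 2 (by decide) (by decide) (by decide) (by decide)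
      (by decide) ?_
    rw [h]
    simp [hi0]
  · refine symV_small x i j hij 0 1 (-1) 0 2 (by decide) (by decide) (by decide) (by decide)
      (by decide) ?_
    rw [h]
    simp [hi1]
  · refine symV_small x i j hij 1 0 1 0 2 (by decide) (by decide) (by decide) (by decide)
      (by decide) ?_
    rw [h]
    simp [hi0]
  · refine symV_small x i j hij 0 1 1 0 2 (by decide) (by decide) (by decide) (by decide)
      (by decide) ?_
    rw [h]
    simp [hi1]
  · refine symV_small x i j hij (-2) 2 2 0 2 (by decide) (by decide) (by decide) (by decide)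
      (by decide) ?_
    rw [h, zpow_neg, zpow_zero, mul_one]
    have h2 : ∀ y : F, y ^ (2 : ℤ) = y ^ 2 := fun y => zpow_ofNat y 2
    rw [h2, h2, h2]
    field_simp
    ring
  · refine symV_small x i j hij 2 (-2) 2 0 2 (by decide) (by decide) (by decide) (by decide)
      (by decide) ?_
    rw [h, zpow_neg, zpow_zero, mul_one]
    have h2 : ∀ y : F, y ^ (2 : ℤ) = y ^ 2 := fun y => zpow_ofNat y 2
    rw [h2, h2, h2]
    field_simp
    ring

/-- Exponents of `sy k x = ± x^(a) (1-x)^(b)`. -/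
def ex (k : Fin 6) : ℤ × ℤ := ![(1, 0), (0, 1), (-1, 0), (-1, 1), (0, -1), (1, -1)] k

/-- Exponents of `1 - sy k x = ± x^(a) (1-x)^(b)`. -/
def ex' (k : Fin 6) : ℤ × ℤ := ![(0, 1), (1, 0), (-1, 1), (-1, 0), (1, -1), (0, -1)] k

theorem sy_sq (x : F) (h0 : x ≠ 0) (h1 : x ≠ 1) (k : Fin 6) :
    sy k x ^ 2 = x ^ (2 * (ex k).1) * (1 - x) ^ (2 * (ex k).2) ∧
      (1 - sy k x) ^ 2 = x ^ (2 * (ex' k).1) * (1 - x) ^ (2 * (ex' k).2) := by
  have hi1 : 1 - x ≠ 0 := sub_ne_zero.2 h1.symm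
  have hi1' : x - 1 ≠ 0 := sub_ne_zero.2 h1
  have h2 : ∀ y : F, y ^ (2 : ℤ) = y ^ 2 := fun y => zpow_ofNat y 2
  fin_cases k
  all_goals
    simp only [sy, ex, ex', Fin.zero_eta, Fin.mk_one, Fin.reduceFinMk, Matrix.cons_val_zero,
      Matrix.cons_val_one, Matrix.cons_val, mul_one, mul_zero, mul_neg, zpow_zero, one_mul,
      zpow_neg, h2]
    constructor
    all_goals
      first
        | trivial
        | (field_simp; done)
        | (field_simp; ring)
        | ring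

theorem sy_ne (x : F) (h0 : x ≠ 0) (h1 : x ≠ 1) (k : Fin 6) : sy k x ≠ 0 ∧ 1 - sy k x ≠ 0 := by
  have hi1 : 1 - x ≠ 0 := sub_ne_zero.2 h1.symm
  have h := sy_sq x h0 h1 k
  constructor
  · intro hc
    have h3 := h.1
    rw [hc, zero_pow two_ne_zero] at h3
    exact mul_ne_zero (zpow_ne_zero _ h0) (zpow_ne_zero _ hi1) h3.symm
  · intro hc
    have h3 := h.2
    rw [hc, zero_pow two_ne_zero] at h3
    exact mul_ne_zero (zpow_ne_zero _ h0) (zpow_ne_zero _ hi1) h3.symm

/-- The square of `sy k' (x j) / (1 - sy k (x i))` as a monomial. -/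
theorem sy_div_sq (x : Fin 3 → F) (h0 : ∀ i, x i ≠ 0) (h1 : ∀ i, x i ≠ 1) (i j : Fin 3)
    (hij : i ≠ j) (k k' : Fin 6) (N : ℕ) :
    (sy k' (x j) / (1 - sy k (x i))) ^ (2 * N) =
      mono (co x) (symV i j (-(2 * N * (ex' k).1)) (-(2 * N * (ex' k).2))
        (2 * N * (ex k').1) (2 * N * (ex k').2)) := by
  rw [symV_mono x i j hij, pow_mul, div_pow, (sy_sq (x j) (h0 j) (h1 j) k').1,
    (sy_sq (x i) (h0 i) (h1 i) k).2, div_pow, mul_pow, mul_pow, ← zpow_natCast, ← zpow_mul,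
    ← zpow_natCast, ← zpow_mul, ← zpow_natCast, ← zpow_mul, ← zpow_natCast, ← zpow_mul,
    zpow_neg, zpow_neg, div_eq_mul_inv, mul_inv]
  have e1 : ∀ z : ℤ, 2 * z * (N : ℤ) = 2 * (N : ℤ) * z := fun z => by ring
  rw [e1, e1, e1, e1]
  ring

theorem ex_ne (k : Fin 6) : ex k ≠ (0, 0) := by
  fin_cases k <;> decide

theorem ex_abs (k : Fin 6) : (ex k).1.natAbs ≤ 1 ∧ (ex k).2.natAbs ≤ 1 ∧
    (ex' k).1.natAbs ≤ 1 ∧ (ex' k).2.natAbs ≤ 1 := by
  fin_cases k <;> decide

theorem small_of_sy (x : Fin 3 → F) (h0 : ∀ i, x i ≠ 0) (h1 : ∀ i, x i ≠ 1) (i j : Fin 3)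
    (hij : i ≠ j) (k k' : Fin 6) (h : (sy k' (x j) / (1 - sy k (x i))) ^ 6 = 1) : Small 6 x := by
  have h2 := sy_div_sq x h0 h1 i j hij k k' 3
  have h3 : 2 * 3 = 6 := rfl
  rw [h3, h] at h2
  refine ⟨_, ?_, ?_, h2.symm⟩
  · intro hc
    have h4 := symV_ne i j hij _ _ _ _ hc
    refine ex_ne k' (Prod.ext ?_ ?_)
    · have := h4.2.2.1
      push_cast at this
      simpa using this
    · have := h4.2.2.2
      push_cast at this
      simpa using this
  · obtain ⟨a1, a2, -, -⟩ := ex_abs k'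
    obtain ⟨-, -, a3, a4⟩ := ex_abs k
    refine symV_nrm i j _ _ _ _ 6 ?_ ?_ ?_ ?_ <;> push_cast <;> omega

/-- If every algebraic monomial is a root of unity, then so is `sy k' (x j) / (1 - sy k (x i))`
when it is algebraic. -/
theorem tors_of_sy (x : Fin 3 → F) (h0 : ∀ i, x i ≠ 0) (h1 : ∀ i, x i ≠ 1)
    (ht : ∀ m : Fin 3 ⊕ Fin 3 → ℤ, IsAlgebraic ℚ (mono (co x) m) →
      ∃ n : ℕ, 0 < n ∧ mono (co x) m ^ n = 1)
    (i j : Fin 3) (k k' : Fin 6)
    (h : IsAlgebraic ℚ (sy k' (x j) / (1 - sy k (x i)))) :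
    ∃ n : ℕ, 0 < n ∧ (sy k' (x j) / (1 - sy k (x i))) ^ n = 1 := by
  have hco : ∀ s, co x s ≠ 0 := by
    intro s
    rcases s with l | l
    · exact h0 l
    · exact sub_ne_zero.2 (h1 l).symm
  have hadd : mono (co x) (symW j (2 * (ex k').1) (2 * (ex k').2) +
      symW i (-(2 * (ex' k).1)) (-(2 * (ex' k).2))) = (sy k' (x j) / (1 - sy k (x i))) ^ 2 := by
    have h2 : ∀ m m' : Fin 3 ⊕ Fin 3 → ℤ, mono (co x) (m + m') =
        mono (co x) m * mono (co x) m' := by
      intro m m'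
      unfold mono
      rw [← Finset.prod_mul_distrib]
      exact Finset.prod_congr rfl fun s _ => zpow_add₀ (hco s) _ _
    rw [h2, symW_mono, symW_mono, div_pow, (sy_sq (x j) (h0 j) (h1 j) k').1,
      (sy_sq (x i) (h0 i) (h1 i) k).2, zpow_neg, zpow_neg, div_eq_mul_inv, mul_inv]
  obtain ⟨n, hn, hn1⟩ := ht _ (hadd ▸ h.pow 2)
  refine ⟨2 * n, by omega, ?_⟩
  rw [pow_mul, ← hadd, hn1]

/-- A root of unity of order dividing `120`. -/
theorem small_of_pow (x : Fin 3 → F) (m : Fin 3 ⊕ Fin 3 → ℤ) (hm : m ≠ 0) (B n : ℕ)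
    (hn : 0 < n) (hB : nrm m ≤ B) (h : mono (co x) m ^ n = 1) : Small (n * B) x := by
  refine ⟨fun s => n * m s, ?_, ?_, ?_⟩
  · intro hc
    apply hm
    funext s
    have := congrFun hc s
    simp only [Pi.zero_apply, mul_eq_zero, Nat.cast_eq_zero] at this
    rcases this with h' | h'
    · omega
    · exact h'
  · unfold nrm
    refine Finset.sup_le fun s _ => ?_
    have h2 : (m s).natAbs ≤ B := (Finset.le_sup (f := fun s => (m s).natAbs)
      (Finset.mem_univ s)).trans hB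
    rw [Int.natAbs_mul, Int.natAbs_natCast]
    exact Nat.mul_le_mul_left _ h2
  · rw [← h]
    unfold mono
    rw [← Finset.prod_pow]
    refine Finset.prod_congr rfl fun s _ => ?_
    rw [← zpow_natCast, ← zpow_mul, mul_comm]

theorem small_mono {B B' : ℕ} (hB : B ≤ B') (x : Fin 3 → F) (h : Small B x) : Small B' x := by
  obtain ⟨m, h1, h2, h3⟩ := h
  exact ⟨m, h1, h2.trans hB, h3⟩

end Pool.Agent.LThreeC
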