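import Pool.Agent.LThreeC.TrMono
import Pool.Agent.LThreeC.PairRel
import Pool.Agent.LThreeC.SymRel
import Pool.Agent.LThreeC.Sixth

set_option autoImplicit false

/-! Package C20: two transcendental coordinates.

`caseB` (`x i, x j` transcendental, `x k` algebraic): if the span of the restrictions of the `u t` to
the coordinates of `i, j` has rank `>= 2`, two of them are independent and their monomials in
`x i, x j` are algebraic (quotients of `1` by monomials in `x k, 1 - x k`): `pair_eqv_gen` and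
`small_of_eqv`. Otherwise there are two independent integral combinations of the `u t` supported on
`inl k, inr k`: `two_rel_one` gives `(x k)^6 = 1`. -/

namespace Pool.Agent.LThreeC

open Pool.Agent.LThree

variable {F : Type} [Field F] [CharZero F]

private theorem prod_three {M : Type} [CommMonoid M] (i j k : Fin 3) (hij : i ≠ j) (hik : i ≠ k)
    (hjk : j ≠ k) (f : Fin 3 → M) : ∏ t, f t = f i * f j * f k := by
  have h : (Finset.univ : Finset (Fin 3)) = {i, j, k} := by
    revert i j k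
    decide
  rw [h, Finset.prod_insert (by simp [hij, hik]), Finset.prod_insert (by simp [hjk]),
    Finset.prod_singleton, mul_assoc]

private theorem cover_three (i j k : Fin 3) (hij : i ≠ j) (hik : i ≠ k) (hjk : j ≠ k) :
    ∀ t : Fin 3, t = i ∨ t = j ∨ t = k := by
  revert i j k
  decide

private theorem two_others (t0 : Fin 3) : ∃ t1 t2 : Fin 3, t0 ≠ t1 ∧ t0 ≠ t2 ∧ t1 ≠ t2 := by
  revert t0
  decide

private theorem sum_three {M : Type} [AddCommMonoid M] (i j k : Fin 3) (hij : i ≠ j)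
    (hik : i ≠ k) (hjk : j ≠ k) (f : Fin 3 → M) : ∑ t, f t = f i + f j + f k := by
  have h : (Finset.univ : Finset (Fin 3)) = {i, j, k} := by
    revert i j k
    decide
  rw [h, Finset.sum_insert (by simp [hij, hik]), Finset.sum_insert (by simp [hjk]),
    Finset.sum_singleton, add_assoc]

/-- restriction to the coordinates of `i` and `j` -/
private def rs (i j : Fin 3) (w : Fin 3 ⊕ Fin 3 → ℤ) : Fin 2 ⊕ Fin 2 → ℤ :=
  Sum.elim ![w (Sum.inl i), w (Sum.inl j)] ![w (Sum.inr i), w (Sum.inr j)]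

private theorem rs_comb (i j : Fin 3) (v w : Fin 3 ⊕ Fin 3 → ℤ) (a b : ℤ) :
    rs i j (a • v + b • w) = a • rs i j v + b • rs i j w := by
  funext t
  rcases t with t | t <;> fin_cases t <;> simp [rs]

private theorem rs_zero {i j : Fin 3} {w : Fin 3 ⊕ Fin 3 → ℤ} (h : rs i j w = 0) :
    w (Sum.inl i) = 0 ∧ w (Sum.inl j) = 0 ∧ w (Sum.inr i) = 0 ∧ w (Sum.inr j) = 0 := by
  refine ⟨?_, ?_, ?_, ?_⟩
  · simpa [rs] using congrFun h (Sum.inl 0)
  · simpa [rs] using congrFun h (Sum.inl 1)
  · simpa [rs] using congrFun h (Sum.inr 0)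
  · simpa [rs] using congrFun h (Sum.inr 1)

omit [CharZero F] in
private theorem mono_split (x : Fin 3 → F) (i j k : Fin 3) (hij : i ≠ j) (hik : i ≠ k)
    (hjk : j ≠ k) (w : Fin 3 ⊕ Fin 3 → ℤ) :
    mono (co x) w = mono (co ![x i, x j]) (rs i j w) *
      (x k ^ w (Sum.inl k) * (1 - x k) ^ w (Sum.inr k)) := by
  unfold mono co
  rw [Fintype.prod_sum_type, Fintype.prod_sum_type, prod_three i j k hij hik hjk,
    prod_three i j k hij hik hjk]
  simp only [Sum.elim_inl, Sum.elim_inr, Fin.prod_univ_two, rs, Matrix.cons_val_zero,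
    Matrix.cons_val_one, Matrix.cons_val_fin_one]
  ring

omit [CharZero F] in
private theorem mono_comb (z : Fin 3 ⊕ Fin 3 → F) (hz : ∀ i, z i ≠ 0) (v w : Fin 3 ⊕ Fin 3 → ℤ)
    (a b : ℤ) : mono z (a • v + b • w) = mono z v ^ a * mono z w ^ b := by
  unfold mono
  rw [← Finset.prod_zpow, ← Finset.prod_zpow, ← Finset.prod_mul_distrib]
  refine Finset.prod_congr rfl fun i _ => ?_
  rw [← zpow_mul, ← zpow_mul, ← zpow_add₀ (hz i)]
  congr 1
  simp only [Pi.add_apply, Pi.smul_apply, smul_eq_mul]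
  ring

omit [CharZero F] in
private theorem co_ne (x : Fin 3 → F) (h0 : ∀ i, x i ≠ 0) (h1 : ∀ i, x i ≠ 1) (i) :
    co x i ≠ 0 := by
  rcases i with i | i
  · exact h0 i
  · exact sub_ne_zero.2 (h1 i).symm

/-- two independent relations between `x k` and `1 - x k` -/
private theorem fin_case (x : Fin 3 → F) (h0 : ∀ i, x i ≠ 0) (h1 : ∀ i, x i ≠ 1)
    (i j k : Fin 3) (hij : i ≠ j) (hik : i ≠ k) (hjk : j ≠ k) (v w : Fin 3 ⊕ Fin 3 → ℤ)
    (hli : ∀ a b : ℤ, a • v + b • w = 0 → a = 0 ∧ b = 0) (hv : rs i j v = 0)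
    (hw : rs i j w = 0) (ev : mono (co x) v = 1) (ew : mono (co x) w = 1) : Small 6 x := by
  have cov := cover_three i j k hij hik hjk
  obtain ⟨v1, v2, v3, v4⟩ := rs_zero hv
  obtain ⟨w1, w2, w3, w4⟩ := rs_zero hw
  have hcomb : ∀ a b : ℤ, a * v (Sum.inl k) + b * w (Sum.inl k) = 0 →
      a * v (Sum.inr k) + b * w (Sum.inr k) = 0 → a = 0 ∧ b = 0 := by
    intro a b e1 e2
    apply hli
    funext t
    rcases t with t | t <;> rcases cov t with rfl | rfl | rfl <;>
      simp [v1, v2, v3, v4, w1, w2, w3, w4, e1, e2]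
  have hdet : v (Sum.inl k) * w (Sum.inr k) - v (Sum.inr k) * w (Sum.inl k) ≠ 0 := by
    intro hd
    obtain ⟨q2, q1⟩ := hcomb (w (Sum.inr k)) (-v (Sum.inr k)) (by linarith) (by ring)
    obtain ⟨p2, p1⟩ := hcomb (w (Sum.inl k)) (-v (Sum.inl k)) (by ring) (by linarith)
    have q1' : v (Sum.inr k) = 0 := by linarith
    have p1' : v (Sum.inl k) = 0 := by linarith
    have := (hcomb 1 0 (by rw [p1', p2]; ring) (by rw [q1', q2]; ring)).1
    exact one_ne_zero this
  have key : ∀ u : Fin 3 ⊕ Fin 3 → ℤ, rs i j u = 0 → mono (co x) u = 1 →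
      x k ^ u (Sum.inl k) * (1 - x k) ^ u (Sum.inr k) = 1 := by
    intro u hu e
    rw [mono_split x i j k hij hik hjk, hu] at e
    have h2 : mono (co ![x i, x j]) (0 : Fin 2 ⊕ Fin 2 → ℤ) = 1 := by
      unfold mono
      exact Finset.prod_eq_one fun t _ => by rw [Pi.zero_apply, zpow_zero]
    rw [h2, one_mul] at e
    exact e
  have h6 := two_rel_one (x k) (h0 k) (h1 k) _ _ _ _ hdet (key v hv ev) (key w hw ew)
  refine ⟨Pi.single (Sum.inl k) 6, ?_, ?_, ?_⟩
  · intro h
    have := congrFun h (Sum.inl k)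
    rw [Pi.single_eq_same] at this
    norm_num at this
  · unfold nrm
    refine Finset.sup_le fun t _ => ?_
    by_cases ht : t = Sum.inl k
    · rw [ht, Pi.single_eq_same]
      norm_num
    · rw [Pi.single_eq_of_ne ht]
      norm_num
  · unfold mono
    rw [Finset.prod_eq_single (Sum.inl k)]
    · rw [Pi.single_eq_same]
      change x k ^ (6 : ℤ) = 1
      exact_mod_cast h6
    · intro t _ ht
      rw [Pi.single_eq_of_ne ht, zpow_zero]
    · intro h
      exact absurd (Finset.mem_univ _) h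

theorem caseB (x : Fin 3 → F) (h0 : ∀ i, x i ≠ 0) (h1 : ∀ i, x i ≠ 1) (i j k : Fin 3)
    (hij : i ≠ j) (hik : i ≠ k) (hjk : j ≠ k) (hi : Transcendental ℚ (x i))
    (hj : Transcendental ℚ (x j)) (hk : IsAlgebraic ℚ (x k))
    (u : Fin 3 → (Fin 3 ⊕ Fin 3 → ℤ)) (hu : LinearIndependent ℤ u)
    (hrel : ∀ t, mono (co x) (u t) = 1) : Small 6 x := by
  have hz := co_ne x h0 h1
  -- the restrictions have algebraic monomials
  have halg : ∀ t, IsAlgebraic ℚ (mono (co ![x i, x j]) (rs i j (u t))) := by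
    intro t
    have e := hrel t
    rw [mono_split x i j k hij hik hjk] at e
    have hc : IsAlgebraic ℚ (x k ^ u t (Sum.inl k) * (1 - x k) ^ u t (Sum.inr k)) := by
      have e1 : IsAlgebraic ℚ (1 - x k) := isAlgebraic_one.sub hk
      have hzp : ∀ (y : F) (n : ℤ), IsAlgebraic ℚ y → IsAlgebraic ℚ (y ^ n) := by
        intro y n hy
        cases n with
        | ofNat n => rw [Int.ofNat_eq_natCast, zpow_natCast]; exact hy.pow n
        | negSucc n => rw [zpow_negSucc]; exact (hy.pow (n + 1)).inv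
      exact (hzp _ _ hk).mul (hzp _ _ e1)
    rw [eq_inv_of_mul_eq_one_left e]
    exact hc.inv
  by_cases hind : ∃ t t', LinearIndependent ℤ ![rs i j (u t), rs i j (u t')]
  · obtain ⟨t, t', hli⟩ := hind
    have h2 : Eqv ((![x i, x j] : Fin 2 → F) 0) ((![x i, x j] : Fin 2 → F) 1) := by
      apply pair_eqv_gen ![x i, x j] _ _ _ _ _ hli (halg t) (halg t')
      · intro s
        fin_cases s
        · exact h0 i
        · exact h0 j
      · intro s
        fin_cases s
        · exact h1 i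
        · exact h1 j
      · intro s
        fin_cases s
        · exact hi
        · exact hj
    exact small_mono (by norm_num) x (small_of_eqv x h0 h1 i j hij h2)
  push Not at hind
  -- linear independence of `u` in terms of three distinct indices
  have hli3 : ∀ t0 t1 t2 : Fin 3, t0 ≠ t1 → t0 ≠ t2 → t1 ≠ t2 → ∀ a b c : ℤ,
      a • u t0 + b • u t1 + c • u t2 = 0 → a = 0 ∧ b = 0 ∧ c = 0 := by
    intro t0 t1 t2 h01 h02 h12 a b c h
    rw [Fintype.linearIndependent_iff] at hu
    have h3 := hu (fun t => if t = t0 then a else if t = t1 then b else c) (by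
      rw [sum_three t0 t1 t2 h01 h02 h12]
      rw [if_pos rfl, if_neg h01.symm, if_pos rfl, if_neg h02.symm, if_neg h12.symm]
      exact h)
    refine ⟨?_, ?_, ?_⟩
    · simpa using h3 t0
    · simpa [h01.symm] using h3 t1
    · simpa [h02.symm, h12.symm] using h3 t2
  by_cases hall : ∀ t, rs i j (u t) = 0
  · refine fin_case x h0 h1 i j k hij hik hjk (u 0) (u 1) (fun a b h => ?_) (hall 0) (hall 1)
      (hrel 0) (hrel 1)
    obtain ⟨e1, e2, -⟩ := hli3 0 1 2 (by decide) (by decide) (by decide) a b 0 (by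
      rw [h, zero_smul, add_zero])
    exact ⟨e1, e2⟩
  push Not at hall
  obtain ⟨t0, ht0⟩ := hall
  have hex : ∀ t, ∃ a b : ℤ, b ≠ 0 ∧ rs i j (a • u t0 + b • u t) = 0 := by
    intro t
    have h2 := hind t0 t
    rw [LinearIndependent.pair_iff] at h2
    push Not at h2
    obtain ⟨a, b, h3, h4⟩ := h2
    refine ⟨a, b, fun hb => ?_, by rw [rs_comb, h3]⟩
    rw [hb, zero_smul, add_zero] at h3
    rcases smul_eq_zero.1 h3 with ha | ha
    · exact h4 ha hb
    · exact ht0 ha
  obtain ⟨t1, t2, h01, h02, h12⟩ := two_others t0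
  obtain ⟨a1, b1, hb1, e1⟩ := hex t1
  obtain ⟨a2, b2, hb2, e2⟩ := hex t2
  refine fin_case x h0 h1 i j k hij hik hjk (a1 • u t0 + b1 • u t1) (a2 • u t0 + b2 • u t2)
    (fun a b h => ?_) e1 e2 ?_ ?_
  · obtain ⟨-, f1, f2⟩ := hli3 t0 t1 t2 h01 h02 h12 (a * a1 + b * a2) (a * b1) (b * b2) (by
      rw [← h]
      simp only [smul_add, smul_smul, add_smul]
      abel)
    exact ⟨(mul_eq_zero.1 f1).resolve_right hb1, (mul_eq_zero.1 f2).resolve_right hb2⟩
  · rw [mono_comb _ hz, hrel, hrel, one_zpow, one_zpow, one_mul]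
  · rw [mono_comb _ hz, hrel, hrel, one_zpow, one_zpow, one_mul]

end Pool.Agent.LThreeC
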