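import Pool.Agent.LThreeC.Defs

set_option autoImplicit false

/-! Package C6: the cubic form is never zero (linear algebra over `ℚ`).

Write `q_i = l_i × l'_i`, `K_i(v) = (l_i·v)(l'_i·v)((l_i-l'_i)·v)`. The `q_i` are pairwise
independent but `∑ c_i q_i = 0` with all `c_i ≠ 0`; put `q_2 = α q_0 + β q_1`, `α β ≠ 0`.
PROOF. Suppose `∑ c_i K_i(v) = 0` for all `v`. (1) Take `v = s q_0 + t q_1`: `l_0·v = t (l_0·q_1)`
etc., so `K_0(v) = t^3 K_0(q_1)`, `K_1(v) = s^3 K_1(q_0)`, and `l_2·q_2 = 0` gives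
`l_2·q_1 = -(α/β) l_2·q_0`, so `K_2(v) = K_2(q_0) (s - t α/β)^3`. The coefficient of `s^2 t` in
`c_0 K_0(q_1) t^3 + c_1 K_1(q_0) s^3 + c_2 K_2(q_0) (s - tα/β)^3` must vanish: `K_2(q_0) = 0`, then
`K_0(q_1) = 0 = K_1(q_0)`. So for each `i` one of `l_i, l'_i, l_i - l'_i` vanishes on the plane
`W = <q_0, q_1>`, i.e. is a multiple `τ_i w` of `w = q_0 × q_1`, `τ_i ≠ 0`; let `A_i, B_i` be the other
two (not multiples of `w`, as two of the three forms are never proportional).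
(2) Then `(w·v) ∑ c_i τ_i (A_i·v)(B_i·v) = 0` for all `v`, so `∑ c_i τ_i (A_i·v)(B_i·v) = 0` for all
`v` with `w·v ≠ 0`, hence for all `v` (a polynomial function in one variable on each line; or
evaluate at `v + ε w`). On `W` as before: `A_0 B_0(v) = t^2 A_0B_0(q_1)`,
`A_1B_1(v) = s^2 A_1B_1(q_0)`, `A_2B_2(v) = A_2B_2(q_0)(s - tα/β)^2`; the coefficient of `s t` gives
`A_2B_2(q_0) = 0`, so `A_2` or `B_2` vanishes at `q_0` and `q_2`, i.e. on `W`: contradiction. -/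

namespace Pool.Agent.LThreeC

open Pool.Agent.LThree

private theorem cn_form (l l' p : Fin 3 → ℚ)
    (hK : (l ⬝ᵥ p) * (l' ⬝ᵥ p) * ((l - l') ⬝ᵥ p) = 0) :
    ∃ f A B : Fin 3 → ℚ, f ⬝ᵥ p = 0 ∧
      (∀ v : Fin 3 → ℚ, (l ⬝ᵥ v) * (l' ⬝ᵥ v) * ((l - l') ⬝ᵥ v) =
        (f ⬝ᵥ v) * (A ⬝ᵥ v) * (B ⬝ᵥ v)) ∧
      (crossProduct f A = crossProduct l l' ∨ crossProduct f A = -crossProduct l l') ∧
      (crossProduct f B = crossProduct l l' ∨ crossProduct f B = -crossProduct l l') ∧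
      f ⬝ᵥ crossProduct l l' = 0 ∧ A ⬝ᵥ crossProduct l l' = 0 ∧
      B ⬝ᵥ crossProduct l l' = 0 := by
  have h1 : l ⬝ᵥ crossProduct l l' = 0 := dot_self_cross l l'
  have h2 : l' ⬝ᵥ crossProduct l l' = 0 := dot_cross_self l l'
  have h3 : (l - l') ⬝ᵥ crossProduct l l' = 0 := by
    rw [sub_dotProduct, h1, h2, sub_zero]
  have a1 : crossProduct l' l = -crossProduct l l' := by
    rw [← cross_anticomm]
  have a2 : crossProduct l (l - l') = -crossProduct l l' := by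
    rw [map_sub, cross_self, zero_sub]
  have a3 : crossProduct l' (l - l') = -crossProduct l l' := by
    rw [map_sub, cross_self, sub_zero, a1]
  have a4 : crossProduct (l - l') l = crossProduct l l' := by
    rw [← cross_anticomm, a2, neg_neg]
  have a5 : crossProduct (l - l') l' = crossProduct l l' := by
    rw [← cross_anticomm, a3, neg_neg]
  rcases mul_eq_zero.1 hK with h | h
  · rcases mul_eq_zero.1 h with h | h
    · exact ⟨l, l', l - l', h, fun v => rfl, Or.inl rfl, Or.inr a2, h1, h2, h3⟩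
    · exact ⟨l', l, l - l', h, fun v => by ring, Or.inr a1, Or.inr a3, h2, h1, h3⟩
  · exact ⟨l - l', l, l', h, fun v => by ring, Or.inl a4, Or.inl a5, h3, h1, h2⟩

private theorem cn_prop (w f p r : Fin 3 → ℚ) (hw : w = crossProduct p r) (hp : f ⬝ᵥ p = 0)
    (hr : f ⬝ᵥ r = 0) : crossProduct w f = 0 := by
  rw [hw, cross_cross_eq_smul_sub_smul, dotProduct_comm p f, dotProduct_comm r f, hp, hr,
    zero_smul, zero_smul, sub_zero]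

private theorem cn_smul (w f : Fin 3 → ℚ) (hw : w ≠ 0) (h : crossProduct w f = 0) :
    ∃ τ : ℚ, f = τ • w := by
  have h1 : crossProduct (crossProduct w f) w = 0 := by rw [h]; simp
  rw [cross_cross_eq_smul_sub_smul] at h1
  have hww : w ⬝ᵥ w ≠ 0 := fun h0 => hw (dotProduct_self_eq_zero.1 h0)
  refine ⟨(f ⬝ᵥ w) / (w ⬝ᵥ w), ?_⟩
  have h2 : (w ⬝ᵥ w) • f = (f ⬝ᵥ w) • w := sub_eq_zero.1 h1
  rw [div_eq_inv_mul, mul_smul, ← h2, smul_smul, inv_mul_cancel₀ hww, one_smul]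

theorem cubic_ne (l l' : Fin 3 → Fin 3 → ℚ)
    (hq : ∀ i j, i ≠ j →
      crossProduct (crossProduct (l i) (l' i)) (crossProduct (l j) (l' j)) ≠ 0)
    (c : Fin 3 → ℚ) (hc : ∀ i, c i ≠ 0) (hsum : ∑ i, c i • crossProduct (l i) (l' i) = 0) :
    ∃ v : Fin 3 → ℚ, ∑ i, c i * ((l i ⬝ᵥ v) * (l' i ⬝ᵥ v) * ((l i - l' i) ⬝ᵥ v)) ≠ 0 := by
  by_contra hcon
  push Not at hcon
  set q : Fin 3 → Fin 3 → ℚ := fun i => crossProduct (l i) (l' i) with hqdef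
  have hqi : ∀ i, q i = crossProduct (l i) (l' i) := fun i => rfl
  have hq0 : ∀ i, q i ≠ 0 := by
    intro i h0
    obtain ⟨j, hj⟩ : ∃ j : Fin 3, i ≠ j := by
      fin_cases i
      · exact ⟨1, by decide⟩
      · exact ⟨0, by decide⟩
      · exact ⟨0, by decide⟩
    apply hq i j hj
    have : crossProduct (l i) (l' i) = 0 := h0
    rw [this]
    simp
  have hs : c 0 • q 0 + c 1 • q 1 + c 2 • q 2 = 0 := by
    have := hsum
    rw [Fin.sum_univ_three] at this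
    exact this
  have hc0 := hc 0
  have hc1 := hc 1
  have hc2 := hc 2
  -- forms vanishing at `q 2`
  have key : ∀ f : Fin 3 → ℚ, f ⬝ᵥ q 2 = 0 → c 0 * (f ⬝ᵥ q 0) + c 1 * (f ⬝ᵥ q 1) = 0 := by
    intro f hf
    have := congrArg (fun x => f ⬝ᵥ x) hs
    simp only [dotProduct_add, dotProduct_smul, smul_eq_mul, hf, mul_zero, add_zero,
      dotProduct_zero] at this
    exact this
  set ρ : ℚ := -(c 0 / c 1) with hρ
  have hρ0 : ρ ≠ 0 := neg_ne_zero.2 (div_ne_zero hc0 hc1)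
  have key' : ∀ f : Fin 3 → ℚ, f ⬝ᵥ q 2 = 0 → f ⬝ᵥ q 1 = ρ * (f ⬝ᵥ q 0) := by
    intro f hf
    have := key f hf
    rw [hρ]
    field_simp
    linarith
  have w1 : ∀ i, (l i) ⬝ᵥ q i = 0 := fun i => dot_self_cross _ _
  have w2 : ∀ i, (l' i) ⬝ᵥ q i = 0 := fun i => dot_cross_self _ _
  -- values on the plane
  have hF : ∀ s t : ℚ, c 0 * (t ^ 3 * ((l 0 ⬝ᵥ q 1) * (l' 0 ⬝ᵥ q 1) * ((l 0 - l' 0) ⬝ᵥ q 1))) +
      c 1 * (s ^ 3 * ((l 1 ⬝ᵥ q 0) * (l' 1 ⬝ᵥ q 0) * ((l 1 - l' 1) ⬝ᵥ q 0))) +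
      c 2 * ((s + t * ρ) ^ 3 * ((l 2 ⬝ᵥ q 0) * (l' 2 ⬝ᵥ q 0) * ((l 2 - l' 2) ⬝ᵥ q 0))) = 0 := by
    intro s t
    have h := hcon (s • q 0 + t • q 1)
    rw [Fin.sum_univ_three] at h
    simp only [dotProduct_add, dotProduct_smul, smul_eq_mul, sub_dotProduct, w1, w2,
      key' _ (w1 2), key' _ (w2 2)] at h ⊢
    linear_combination h
  set KA := (l 0 ⬝ᵥ q 1) * (l' 0 ⬝ᵥ q 1) * ((l 0 - l' 0) ⬝ᵥ q 1) with hKA
  set KB := (l 1 ⬝ᵥ q 0) * (l' 1 ⬝ᵥ q 0) * ((l 1 - l' 1) ⬝ᵥ q 0) with hKB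
  set KC := (l 2 ⬝ᵥ q 0) * (l' 2 ⬝ᵥ q 0) * ((l 2 - l' 2) ⬝ᵥ q 0) with hKC
  have e10 := hF 1 0
  have e01 := hF 0 1
  have e11 := hF 1 1
  have e1m := hF 1 (-1)
  have hKC0 : KC = 0 := by
    have h1 : c 2 * ρ * KC * (1 + ρ) = 0 := by
      linear_combination (1/3) * e11 - (1/3) * e10 - (1/3) * e01
    have h2 : c 2 * ρ * KC * (ρ - 1) = 0 := by
      linear_combination (1/3) * e1m - (1/3) * e10 + (1/3) * e01
    have h3 : c 2 * ρ * KC = 0 := by linear_combination (1/2) * h1 - (1/2) * h2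
    rcases mul_eq_zero.1 h3 with h | h
    · exact absurd h (mul_ne_zero hc2 hρ0)
    · exact h
  have hKB0 : KB = 0 := by
    have h1 : c 1 * KB = 0 := by
      rw [hKC0] at e10
      linear_combination e10
    exact (mul_eq_zero.1 h1).resolve_left hc1
  have hKA0 : KA = 0 := by
    have h1 : c 0 * KA = 0 := by
      rw [hKC0] at e01
      linear_combination e01
    exact (mul_eq_zero.1 h1).resolve_left hc0
  obtain ⟨f0, A0, B0, hf0, hv0, hA0, hB0, z0, z0A, z0B⟩ := cn_form (l 0) (l' 0) (q 1) hKA0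
  obtain ⟨f1, A1, B1, hf1, hv1, hA1, hB1, z1, z1A, z1B⟩ := cn_form (l 1) (l' 1) (q 0) hKB0
  obtain ⟨f2, A2, B2, hf2, hv2, hA2, hB2, z2, z2A, z2B⟩ := cn_form (l 2) (l' 2) (q 0) hKC0
  rw [← hqi] at hA0 hB0 z0 z0A z0B hA1 hB1 z1 z1A z1B hA2 hB2 z2 z2A z2B
  set w := crossProduct (q 0) (q 1) with hw
  have hw0 : w ≠ 0 := hq 0 1 (by decide)
  have hf21 : f2 ⬝ᵥ q 1 = 0 := by rw [key' f2 z2, hf2, mul_zero]
  have hne : ∀ (f A : Fin 3 → ℚ) (i : Fin 3), (crossProduct f A = q i ∨ crossProduct f A = -q i) →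
      crossProduct f A ≠ 0 := by
    intro f A i h
    rcases h with h | h
    · rw [h]; exact hq0 i
    · rw [h]; exact neg_ne_zero.2 (hq0 i)
  obtain ⟨τ0, hτ0⟩ := cn_smul w f0 hw0 (cn_prop w f0 _ _ hw z0 hf0)
  obtain ⟨τ1, hτ1⟩ := cn_smul w f1 hw0 (cn_prop w f1 _ _ hw hf1 z1)
  obtain ⟨τ2, hτ2⟩ := cn_smul w f2 hw0 (cn_prop w f2 _ _ hw hf2 hf21)
  have hτ2n : τ2 ≠ 0 := by
    intro h
    apply hne f2 A2 2 hA2
    rw [hτ2, h]
    simp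
  -- the quadratic form
  have hG : ∀ v : Fin 3 → ℚ, w ⬝ᵥ v ≠ 0 → c 0 * τ0 * ((A0 ⬝ᵥ v) * (B0 ⬝ᵥ v)) +
      c 1 * τ1 * ((A1 ⬝ᵥ v) * (B1 ⬝ᵥ v)) + c 2 * τ2 * ((A2 ⬝ᵥ v) * (B2 ⬝ᵥ v)) = 0 := by
    intro v hv
    have h := hcon v
    rw [Fin.sum_univ_three, hv0, hv1, hv2, hτ0, hτ1, hτ2] at h
    simp only [smul_dotProduct, smul_eq_mul] at h
    have h' : (w ⬝ᵥ v) * (c 0 * τ0 * ((A0 ⬝ᵥ v) * (B0 ⬝ᵥ v)) +
      c 1 * τ1 * ((A1 ⬝ᵥ v) * (B1 ⬝ᵥ v)) + c 2 * τ2 * ((A2 ⬝ᵥ v) * (B2 ⬝ᵥ v))) = 0 := by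
      linear_combination h
    exact (mul_eq_zero.1 h').resolve_left hv
  have hww : w ⬝ᵥ w ≠ 0 := fun h0 => hw0 (dotProduct_self_eq_zero.1 h0)
  have hG' : ∀ v : Fin 3 → ℚ, w ⬝ᵥ v = 0 → c 0 * τ0 * ((A0 ⬝ᵥ v) * (B0 ⬝ᵥ v)) +
      c 1 * τ1 * ((A1 ⬝ᵥ v) * (B1 ⬝ᵥ v)) + c 2 * τ2 * ((A2 ⬝ᵥ v) * (B2 ⬝ᵥ v)) = 0 := by
    intro v hv
    have hε : ∀ ε : ℚ, ε ≠ 0 → w ⬝ᵥ (v + ε • w) ≠ 0 := by
      intro ε h
      rw [dotProduct_add, hv, zero_add, dotProduct_smul, smul_eq_mul]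
      exact mul_ne_zero h hww
    have g1 := hG _ (hε 1 (by norm_num))
    have g2 := hG _ (hε (-1) (by norm_num))
    have g3 := hG _ (hε 2 (by norm_num))
    simp only [dotProduct_add, dotProduct_smul, smul_eq_mul] at g1 g2 g3
    linear_combination g1 + (1/3) * g2 - (1/3) * g3
  have wq0 : w ⬝ᵥ q 0 = 0 := by rw [dotProduct_comm]; exact dot_self_cross _ _
  have wq1 : w ⬝ᵥ q 1 = 0 := by rw [dotProduct_comm]; exact dot_cross_self _ _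
  have hH : ∀ s t : ℚ, c 0 * τ0 * (t ^ 2 * ((A0 ⬝ᵥ q 1) * (B0 ⬝ᵥ q 1))) +
      c 1 * τ1 * (s ^ 2 * ((A1 ⬝ᵥ q 0) * (B1 ⬝ᵥ q 0))) +
      c 2 * τ2 * ((s + t * ρ) ^ 2 * ((A2 ⬝ᵥ q 0) * (B2 ⬝ᵥ q 0))) = 0 := by
    intro s t
    have h := hG' (s • q 0 + t • q 1) (by
      simp only [dotProduct_add, dotProduct_smul, smul_eq_mul, wq0, wq1, mul_zero, add_zero])
    simp only [dotProduct_add, dotProduct_smul, smul_eq_mul, z0A, z0B, z1A, z1B,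
      key' _ z2A, key' _ z2B] at h
    linear_combination h
  have hC : (A2 ⬝ᵥ q 0) * (B2 ⬝ᵥ q 0) = 0 := by
    have i1 := hH 1 1
    have i2 := hH 1 (-1)
    have h3 : c 2 * τ2 * ρ * ((A2 ⬝ᵥ q 0) * (B2 ⬝ᵥ q 0)) = 0 := by
      linear_combination (1/4) * i1 - (1/4) * i2
    exact (mul_eq_zero.1 h3).resolve_left (mul_ne_zero (mul_ne_zero hc2 hτ2n) hρ0)
  have hfin : ∀ A : Fin 3 → ℚ, A ⬝ᵥ q 0 = 0 → A ⬝ᵥ q 2 = 0 → crossProduct f2 A = 0 := by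
    intro A h0 h2
    have h1 : A ⬝ᵥ q 1 = 0 := by rw [key' A h2, h0, mul_zero]
    rw [hτ2, map_smul, LinearMap.smul_apply, cn_prop w A _ _ hw h0 h1, smul_zero]
  rcases mul_eq_zero.1 hC with h | h
  · exact hne f2 A2 2 hA2 (hfin A2 h z2A)
  · exact hne f2 B2 2 hB2 (hfin B2 h z2B)

end Pool.Agent.LThreeC
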