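import Pool.Agent.LThreeC.Defs

set_option autoImplicit false

/-! Package C7: the degree bound.

PROOF. Let `p = ev (l' i) G`, `q = ev (l i) G`, `s = p - q ≠ 0`, so `x i = p/s` and `q/s = x i - 1`.
Put `e = l i × l' i`; `(l i, l' i, e)` is a basis of `ℚ^3`. With `b = ev e G / s` every `G j / s` is
`A_j + B_j (x i) + C_j b` with `A_j, B_j, C_j` rational, and the linear map
`(Z0,Z1,Z2) -> (A_j Z0 + B_j Z1 + C_j Z2)_j` is invertible. `R` is homogeneous of degree `d`, so
`0 = R(G)/s^d = R(G/s) = R'(1, x i, b)` where `R' = R ∘ (that map)` is homogeneous of degree `d` and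
nonzero, so `R'(1, X, B)` is a nonzero polynomial in `X, B` of degree `<= d <= 4` in `B`; since `x i`
is transcendental, `R'(1, x i, B)` is a nonzero polynomial over `ℚ(x i)`, and `b` is algebraic of
degree `<= 4` over `ℚ(x i)`. All `x j` are in `ℚ(G 0/s, G 1/s, G 2/s)`, which is inside
`ℚ(x i)(b)`; so `F = ℚ(x i)(b)` has dimension `<= 4` over `ℚ(x i)`. For `w ∈ F` the elements
`1, w, .., w^4` are dependent over `ℚ(x i)`; clear denominators. -/

namespace Pool.Agent.LThreeC

open Pool.Agent.LThree Polynomial

variable {F : Type} [Field F] [CharZero F]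

private theorem dg_homog {A : Type} [Field A] [Algebra ℚ A] (R : MvPolynomial (Fin 3) ℚ) (d : ℕ)
    (hR : R.IsHomogeneous d) (c : A) (z : Fin 3 → A) :
    MvPolynomial.aeval (fun j => c * z j) R = c ^ d * MvPolynomial.aeval z R := by
  rw [MvPolynomial.aeval_def, MvPolynomial.aeval_def, MvPolynomial.eval₂_eq',
    MvPolynomial.eval₂_eq', Finset.mul_sum]
  apply Finset.sum_congr rfl
  intro s hs
  have h1 : ∑ i, s i = d := by
    have h := hR (MvPolynomial.mem_support_iff.mp hs)
    rw [← h, Finsupp.weight_apply, Finsupp.sum_fintype _ _ (by simp)]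
    simp
  have h2 : ∏ i, (c * z i) ^ s i = c ^ d * ∏ i, z i ^ s i := by
    rw [← h1, ← Finset.prod_pow_eq_pow_sum, ← Finset.prod_mul_distrib]
    apply Finset.prod_congr rfl
    intro i _
    rw [mul_pow]
  rw [h2]
  ring

private theorem dg_inv (a b : Fin 3 → ℚ) (h : crossProduct a b ≠ 0) :
    ∃ N : Matrix (Fin 3) (Fin 3) ℚ, N * Matrix.of ![a, b, crossProduct a b] = 1 := by
  set M : Matrix (Fin 3) (Fin 3) ℚ := Matrix.of ![a, b, crossProduct a b] with hM
  have hdet : M.det ≠ 0 := by
    have h1 : M.det = crossProduct a b ⬝ᵥ crossProduct a b := by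
      rw [← triple_product_permutation, ← triple_product_permutation, triple_product_eq_det]
      rfl
    rw [h1]
    intro h0
    exact h (dotProduct_self_eq_zero.mp h0)
  exact ⟨M⁻¹, Matrix.nonsing_inv_mul M (isUnit_iff_ne_zero.mpr hdet)⟩

private theorem dg_hom {A B : Type} [CommRing A] [CommRing B] [Algebra ℚ A] [Algebra ℚ B]
    (φ : A →+* B) (z : Fin 3 → A) (R : MvPolynomial (Fin 3) ℚ) :
    φ (MvPolynomial.aeval z R) = MvPolynomial.aeval (fun j => φ (z j)) R := by
  have h := MvPolynomial.comp_aeval_apply z φ.toRatAlgHom R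
  exact h

private theorem dg_coord (a b e : Fin 3 → ℚ) (N : Matrix (Fin 3) (Fin 3) ℚ)
    (hN : N * Matrix.of ![a, b, e] = 1) (z : Fin 3 → F) (j : Fin 3) :
    z j = (N j 0 : F) * ev a z + (N j 1 : F) * ev b z + (N j 2 : F) * ev e z := by
  have hent : ∀ m, N j 0 * a m + N j 1 * b m + N j 2 * e m = if j = m then 1 else 0 := by
    intro m
    have := congrFun (congrFun hN j) m
    rw [Matrix.mul_apply, Fin.sum_univ_three, Matrix.one_apply] at this
    exact this
  have hsum : (N j 0 : F) * ev a z + (N j 1 : F) * ev b z + (N j 2 : F) * ev e z =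
      ∑ m, (((N j 0 * a m + N j 1 * b m + N j 2 * e m : ℚ)) : F) * z m := by
    unfold ev
    rw [Finset.mul_sum, Finset.mul_sum, Finset.mul_sum, ← Finset.sum_add_distrib,
      ← Finset.sum_add_distrib]
    apply Finset.sum_congr rfl
    intro m _
    push_cast
    ring
  rw [hsum]
  simp only [hent]
  rw [Finset.sum_eq_single j]
  · simp
  · intro m _ hm
    rw [if_neg (Ne.symm hm)]
    simp
  · intro h
    exact absurd (Finset.mem_univ _) h

/-- Clearing denominators. -/
private theorem dg_clear (t w : F) (K0 : IntermediateField ℚ F)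
    (hK0 : K0 = IntermediateField.adjoin ℚ {t}) (q : K0[X]) (hq0 : q ≠ 0)
    (hqd : q.natDegree ≤ 4) (hq : aeval w q = 0) :
    ∃ c : Fin 5 → ℚ[X], c ≠ 0 ∧ ∑ k : Fin 5, aeval t (c k) * w ^ (k : ℕ) = 0 := by
  classical
  have hrs : ∀ k : Fin 5, ∃ r s : ℚ[X], aeval t s ≠ 0 ∧
      ((q.coeff k : K0) : F) = aeval t r / aeval t s := by
    intro k
    have hm : ((q.coeff k : K0) : F) ∈ IntermediateField.adjoin ℚ {t} := by
      rw [← hK0]
      exact (q.coeff k).2
    obtain ⟨r, s, hrs⟩ := (IntermediateField.mem_adjoin_simple_iff ℚ _).mp hm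
    by_cases hs : aeval t s = 0
    · refine ⟨0, 1, by simp, ?_⟩
      rw [hrs, hs]
      simp
    · exact ⟨r, s, hs, hrs⟩
  choose r s hs hrs using hrs
  have hDne : ∏ k : Fin 5, aeval t (s k) ≠ 0 := Finset.prod_ne_zero_iff.mpr (fun k _ => hs k)
  have hc : ∀ k : Fin 5, aeval t (r k * ∏ j ∈ Finset.univ.erase k, s j) =
      ((q.coeff k : K0) : F) * ∏ j : Fin 5, aeval t (s j) := by
    intro k
    rw [map_mul, map_prod, hrs k, ← Finset.mul_prod_erase Finset.univ _ (Finset.mem_univ k)]
    field_simp [hs k]
  refine ⟨fun k => r k * ∏ j ∈ Finset.univ.erase k, s j, ?_, ?_⟩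
  · intro h0
    obtain ⟨n, hn⟩ : ∃ n, q.coeff n ≠ 0 := by
      by_contra hcon
      push Not at hcon
      exact hq0 (Polynomial.ext (by simpa using hcon))
    have hn4 : n < 5 := by
      have := Polynomial.le_natDegree_of_ne_zero hn
      omega
    have h1 := hc ⟨n, hn4⟩
    have h2 := congrFun h0 ⟨n, hn4⟩
    simp only [Pi.zero_apply] at h2
    rw [h2, map_zero] at h1
    have h3 : ((q.coeff n : K0) : F) ≠ 0 := by
      intro h
      exact hn (Subtype.ext h)
    exact mul_ne_zero h3 hDne h1.symm
  · have h1 : ∑ k : Fin 5, ((q.coeff k : K0) : F) * w ^ (k : ℕ) = 0 := by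
      rw [← hq, Polynomial.aeval_eq_sum_range' (n := 5) (by omega), Finset.sum_range]
      apply Finset.sum_congr rfl
      intro k _
      rfl
    calc ∑ k : Fin 5, aeval t (r k * ∏ j ∈ Finset.univ.erase k, s j) * w ^ (k : ℕ)
        = (∏ j : Fin 5, aeval t (s j)) * ∑ k : Fin 5, ((q.coeff k : K0) : F) * w ^ (k : ℕ) := by
          rw [Finset.mul_sum]
          apply Finset.sum_congr rfl
          intro k _
          rw [hc k]
          ring
      _ = 0 := by rw [h1, mul_zero]

theorem deg4_of_homog (x : Fin 3 → F)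
    (hgen : IntermediateField.adjoin ℚ (Set.range x) = ⊤) (G : Fin 3 → F)
    (l l' : Fin 3 → Fin 3 → ℚ)
    (hx : ∀ i, ev (l' i) G - ev (l i) G ≠ 0 ∧ x i = ev (l' i) G / (ev (l' i) G - ev (l i) G))
    (hl : ∀ i, crossProduct (l i) (l' i) ≠ 0)
    (R : MvPolynomial (Fin 3) ℚ) (d : ℕ) (hd : d ≤ 4) (hR : R.IsHomogeneous d) (hR0 : R ≠ 0)
    (hRG : MvPolynomial.aeval G R = 0) (i : Fin 3) (htr : Transcendental ℚ (x i)) :
    Deg4 (x i) := by
  classical
  intro w
  set t := x i with ht
  set s := ev (l' i) G - ev (l i) G with hs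
  have hs0 : s ≠ 0 := (hx i).1
  have hxi : t = ev (l' i) G / s := (hx i).2
  set e := crossProduct (l i) (l' i) with he
  obtain ⟨N, hN⟩ := dg_inv (l i) (l' i) (hl i)
  set b := ev e G / s with hb
  set g : Fin 3 → F := fun j => G j / s with hg
  -- the coordinates
  have hev0 : ev (l i) G = s * (t - 1) := by
    rw [hxi]
    field_simp
    rw [hs]
    ring
  have hev1 : ev (l' i) G = s * t := by
    rw [hxi]
    field_simp
  have hev2 : ev e G = s * b := by
    rw [hb]
    field_simp
  have hgj : ∀ j, g j = (N j 0 : F) * (t - 1) + (N j 1 : F) * t + (N j 2 : F) * b := by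
    intro j
    have hG := dg_coord (l i) (l' i) e N hN G j
    rw [hg]
    simp only
    rw [hG, hev0, hev1, hev2]
    field_simp
  have hRg : MvPolynomial.aeval g R = 0 := by
    have h1 : G = fun j => s * g j := by
      funext j
      rw [hg]
      field_simp
    rw [h1, dg_homog R d hR] at hRG
    exact (mul_eq_zero.mp hRG).resolve_left (pow_ne_zero _ hs0)
  -- the field generated by `t`
  obtain ⟨K0, hK0⟩ : ∃ K0 : IntermediateField ℚ F, K0 = IntermediateField.adjoin ℚ {t} := ⟨_, rfl⟩
  have htK : t ∈ K0 := by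
    rw [hK0]
    exact IntermediateField.mem_adjoin_simple_self ℚ t
  let tt : K0 := ⟨t, htK⟩
  have htt : (tt : F) = t := rfl
  let P : Fin 3 → K0[X] := fun j =>
    C ((N j 0 : K0) * (tt - 1) + (N j 1 : K0) * tt) + C (N j 2 : K0) * X
  let Q : K0[X] := MvPolynomial.aeval P R
  have hQdeg : Q.natDegree ≤ 4 := by
    have h1 : (MvPolynomial.map (algebraMap ℚ K0) R).totalDegree ≤ 4 :=
      (hR.map (algebraMap ℚ K0)).totalDegree_le.trans hd
    have h2 := MvPolynomial.aeval_natDegree_le _ h1 P (n := 1) (by
      intro j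
      refine (Polynomial.natDegree_add_le _ _).trans (max_le ?_ ?_)
      · rw [Polynomial.natDegree_C]
        exact Nat.zero_le _
      · exact (Polynomial.natDegree_C_mul_le _ _).trans Polynomial.natDegree_X_le)
    rw [MvPolynomial.aeval_map_algebraMap] at h2
    exact h2
  have hQb : aeval b Q = 0 := by
    have h1 : aeval b Q = MvPolynomial.aeval (fun j => aeval b (P j)) R :=
      dg_hom (aeval (R := K0) b : K0[X] →ₐ[K0] F).toRingHom P R
    rw [h1, ← hRg]
    congr 2
    funext j
    rw [hgj j]
    simp [P]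
    rfl
  have hQ0 : Q ≠ 0 := by
    intro hQ0
    -- values at all rational points off a plane
    have hval : ∀ τ υ : ℚ, MvPolynomial.aeval
        (fun j => N j 0 * (τ - 1) + N j 1 * τ + N j 2 * υ) R = (0 : ℚ) := by
      intro τ υ
      have h1 : Q.eval (υ : K0) = 0 := by rw [hQ0, eval_zero]
      let p : Fin 3 → ℚ[X] := fun j => C (N j 0) * (X - 1) + C (N j 1) * X + C (N j 2 * υ)
      have h2 : aeval t (MvPolynomial.aeval p R) = 0 := by
        have e1 : aeval t (MvPolynomial.aeval p R) =
            MvPolynomial.aeval (fun j => aeval t (p j)) R :=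
          dg_hom (aeval (R := ℚ) t : ℚ[X] →ₐ[ℚ] F).toRingHom p R
        have e2 : algebraMap K0 F (Q.eval (υ : K0)) =
            MvPolynomial.aeval (fun j => algebraMap K0 F ((P j).eval (υ : K0))) R :=
          dg_hom ((algebraMap K0 F).comp (evalRingHom (υ : K0))) P R
        rw [h1, map_zero] at e2
        rw [e1, e2]
        congr 2
        funext j
        simp [P, p]
        rfl
      have h3 : MvPolynomial.aeval p R = 0 := by
        by_contra hne
        exact htr ⟨_, hne, h2⟩
      have h4 : (MvPolynomial.aeval p R).eval τ = 0 := by rw [h3, eval_zero]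
      have h5 : (MvPolynomial.aeval p R).eval τ =
          MvPolynomial.aeval (fun j => (p j).eval τ) R :=
        dg_hom (evalRingHom τ) p R
      rw [← h4, h5]
      congr 2
      funext j
      simp [p]
    let ℓ : MvPolynomial (Fin 3) ℚ := ∑ j, MvPolynomial.C (l' i j - l i j) * MvPolynomial.X j
    have hprod : R * ℓ = 0 := by
      apply MvPolynomial.funext
      intro z
      rw [map_mul, map_zero]
      have hℓ : MvPolynomial.eval z ℓ = ev (l' i) z - ev (l i) z := by
        simp only [ℓ, map_sum, map_mul, MvPolynomial.eval_C, MvPolynomial.eval_X, ev]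
        rw [← Finset.sum_sub_distrib]
        apply Finset.sum_congr rfl
        intro j _
        simp
        ring
      by_cases hz : ev (l' i) z - ev (l i) z = 0
      · rw [hℓ, hz, mul_zero]
      · set c := ev (l' i) z - ev (l i) z with hc
        have hzj : z = fun j => c * (N j 0 * (ev (l' i) z / c - 1) + N j 1 * (ev (l' i) z / c) +
            N j 2 * (ev e z / c)) := by
          funext j
          have h1 := dg_coord (l i) (l' i) e N hN z j
          have h2 : c * (ev (l' i) z / c - 1) = ev (l i) z := by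
            field_simp
            rw [hc]
            ring
          have h3 : c * (ev (l' i) z / c) = ev (l' i) z := by field_simp
          have h4 : c * (ev e z / c) = ev e z := by field_simp
          calc z j = N j 0 * ev (l i) z + N j 1 * ev (l' i) z + N j 2 * ev e z := by
                simpa using h1
            _ = N j 0 * (c * (ev (l' i) z / c - 1)) + N j 1 * (c * (ev (l' i) z / c)) +
                N j 2 * (c * (ev e z / c)) := by rw [h2, h3, h4]
            _ = _ := by ring
        have h5 : MvPolynomial.eval z R = 0 := by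
          have h6 : MvPolynomial.eval z R = MvPolynomial.aeval z R := by
            rw [MvPolynomial.aeval_eq_eval]
          rw [h6, hzj, dg_homog R d hR, hval, mul_zero]
        rw [h5, zero_mul]
    have hℓ0 : ℓ = 0 := (mul_eq_zero.mp hprod).resolve_left hR0
    apply hl i
    have heq : l' i = l i := by
      funext j
      have h1 : MvPolynomial.eval (Pi.single j 1) ℓ = 0 := by rw [hℓ0, map_zero]
      simp only [ℓ, map_sum, map_mul, MvPolynomial.eval_C, MvPolynomial.eval_X] at h1
      rw [Finset.sum_eq_single j] at h1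
      · rw [Pi.single_eq_same, mul_one] at h1
        linarith
      · intro m _ hm
        rw [Pi.single_eq_of_ne hm, mul_zero]
      · intro h
        exact absurd (Finset.mem_univ _) h
    rw [heq, cross_self]
  have hint : IsIntegral K0 b := by
    have : IsAlgebraic K0 b := ⟨Q, hQ0, hQb⟩
    exact this.isIntegral
  have hmin : (minpoly K0 b).natDegree ≤ 4 := by
    refine le_trans ?_ hQdeg
    exact Polynomial.natDegree_le_natDegree (minpoly.degree_le_of_ne_zero K0 b hQ0 hQb)
  have htop : IntermediateField.adjoin K0 {b} = ⊤ := by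
    apply IntermediateField.restrictScalars_injective ℚ
    rw [IntermediateField.restrictScalars_top, ← top_le_iff, ← hgen,
      IntermediateField.adjoin_le_iff]
    rintro _ ⟨j, rfl⟩
    show x j ∈ IntermediateField.adjoin K0 {b}
    have hbm : b ∈ IntermediateField.adjoin K0 {b} :=
      IntermediateField.mem_adjoin_simple_self K0 b
    have htm : t ∈ IntermediateField.adjoin K0 {b} :=
      (IntermediateField.adjoin K0 {b}).algebraMap_mem tt
    have hqm : ∀ q : ℚ, (q : F) ∈ IntermediateField.adjoin K0 {b} := by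
      intro q
      exact SubfieldClass.ratCast_mem _ q
    have hgm : ∀ m, g m ∈ IntermediateField.adjoin K0 {b} := by
      intro m
      rw [hgj m]
      exact add_mem (add_mem (mul_mem (hqm _) (sub_mem htm (one_mem _)))
        (mul_mem (hqm _) htm)) (mul_mem (hqm _) hbm)
    have hevm : ∀ c : Fin 3 → ℚ, ev c G / s ∈ IntermediateField.adjoin K0 {b} := by
      intro c
      have : ev c G / s = ∑ m, (c m : F) * g m := by
        unfold ev
        rw [Finset.sum_div]
        apply Finset.sum_congr rfl
        intro m _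
        rw [hg]
        ring
      rw [this]
      exact sum_mem (fun m _ => mul_mem (hqm _) (hgm m))
    have hxj : x j = (ev (l' j) G / s) / (ev (l' j) G / s - ev (l j) G / s) := by
      rw [(hx j).2, ← sub_div, div_div_div_cancel_right₀ hs0]
    rw [hxj]
    exact div_mem (hevm _) (sub_mem (hevm _) (hevm _))
  have hFD1 : FiniteDimensional K0 (⊤ : IntermediateField K0 F) := by
    rw [← htop]
    exact IntermediateField.adjoin.finiteDimensional hint
  have hFD : FiniteDimensional K0 F :=
    (IntermediateField.topEquiv (F := K0) (E := F)).toLinearEquiv.finiteDimensional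
  have hfin : Module.finrank K0 F ≤ 4 := by
    rw [← IntermediateField.finrank_top' (F := K0) (E := F), ← htop,
      IntermediateField.adjoin.finrank hint]
    exact hmin
  exact dg_clear t w K0 hK0 (minpoly K0 w) (minpoly.ne_zero (Algebra.IsIntegral.isIntegral w))
    ((minpoly.natDegree_le w).trans hfin) (minpoly.aeval K0 w)

end Pool.Agent.LThreeC
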