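import Pool.Agent.LThreeC.LogD

set_option autoImplicit false

/-! Package C14: the homogeneous equations of degree 4 and 3.

Write `q_i = l_i × l'_i` and `N = G × D G`. By `cross_ev`, `D_ev` and `key_identity`:
`ev q_i N = ev(l_i)G * D(ev(l'_i)G) - ev(l'_i)G * D(ev(l_i)G) = K_i(G)` with
`K_i(G) = ev(l_i)G * ev(l'_i)G * ev(l_i - l'_i)G`, and `∑_j G_j N_j = 0`.
`eq4`: `α` is the dual basis of `q`, so `G_j = ∑_i (ev α_i G) q_i(j)` (as `ℚ`-linear algebra:
`v = ∑ (α_i·v) q_i` for `v ∈ ℚ^3`, an identity between matrices, so also over `F`), hence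
`0 = ∑_j G_j N_j = ∑_i (ev α_i G) (ev q_i N) = ∑_i (ev α_i G) K_i(G)`.
`eq3`: `∑ c_i q_i = 0` gives `∑ c_i K_i(G) = 0`. -/

namespace Pool.Agent.LThreeC

open Pool.Agent.LThree

variable {F : Type} [Field F] [CharZero F]

private theorem key (D : Derivation ℚ F F) (x : F) (h0 : x ≠ 0) (h1 : x ≠ 1)
    (G : Fin 3 → F) (l l' : Fin 3 → ℚ) (hl : LD D x = ev l G) (hl' : LD D (1 - x) = ev l' G) :
    ev (crossProduct l l') (crossProduct G fun i => D (G i)) =
      ev l G * ev l' G * ev (l - l') G := by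
  rw [cross_ev, ← D_ev, ← D_ev, ← hl, ← hl', key_identity D x h0 h1, ev_sub, hl, hl']

private theorem dual_sum (G N : Fin 3 → F) (α q : Fin 3 → Fin 3 → ℚ)
    (hα : ∀ i j, α i ⬝ᵥ q j = if i = j then 1 else 0) :
    ∑ i, ev (α i) G * ev (q i) N = ∑ j, G j * N j := by
  have h1 : (Matrix.of α) * (Matrix.of q).transpose = 1 := by
    ext i j
    rw [Matrix.mul_apply, Matrix.one_apply]
    have := hα i j
    rw [dotProduct] at this
    exact this
  have h2 : (Matrix.of q).transpose * (Matrix.of α) = 1 := mul_eq_one_comm.1 h1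
  have h3 : ∀ j k : Fin 3, ∑ i, (q i j : F) * (α i k : F) = if j = k then 1 else 0 := by
    intro j k
    have h4 := congrFun (congrFun h2 j) k
    rw [Matrix.mul_apply, Matrix.one_apply] at h4
    have h5 := congrArg (Rat.cast : ℚ → F) h4
    simp only [Matrix.transpose_apply, Matrix.of_apply] at h5
    rw [Rat.cast_sum] at h5
    simp only [Rat.cast_mul] at h5
    rw [h5]
    split_ifs <;> simp
  have e00 := h3 0 0
  have e01 := h3 0 1
  have e02 := h3 0 2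
  have e10 := h3 1 0
  have e11 := h3 1 1
  have e12 := h3 1 2
  have e20 := h3 2 0
  have e21 := h3 2 1
  have e22 := h3 2 2
  simp only [Fin.sum_univ_three] at e00 e01 e02 e10 e11 e12 e20 e21 e22
  simp at e00 e01 e02 e10 e11 e12 e20 e21 e22
  unfold ev
  simp only [Fin.sum_univ_three]
  linear_combination N 0 * G 0 * e00 + N 0 * G 1 * e01 + N 0 * G 2 * e02 + N 1 * G 0 * e10 +
    N 1 * G 1 * e11 + N 1 * G 2 * e12 + N 2 * G 0 * e20 + N 2 * G 1 * e21 + N 2 * G 2 * e22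

theorem eq4 (D : Derivation ℚ F F) (x : Fin 3 → F) (h0 : ∀ i, x i ≠ 0) (h1 : ∀ i, x i ≠ 1)
    (G : Fin 3 → F) (l l' α : Fin 3 → Fin 3 → ℚ) (hl : ∀ i, LD D (x i) = ev (l i) G)
    (hl' : ∀ i, LD D (1 - x i) = ev (l' i) G)
    (hα : ∀ i j, α i ⬝ᵥ (crossProduct (l j) (l' j)) = if i = j then 1 else 0) :
    ∑ i, ev (α i) G * ev (l i) G * ev (l' i) G * ev (l i - l' i) G = 0 := by
  have h2 := dual_sum G (crossProduct G fun i => D (G i)) α
    (fun i => crossProduct (l i) (l' i)) hα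
  have h3 : ∑ j, G j * (crossProduct G fun i => D (G i)) j = 0 :=
    dot_self_cross G _
  rw [h3] at h2
  rw [← h2]
  refine Finset.sum_congr rfl fun i _ => ?_
  rw [key D (x i) (h0 i) (h1 i) G (l i) (l' i) (hl i) (hl' i)]
  ring

theorem eq3 (D : Derivation ℚ F F) (x : Fin 3 → F) (h0 : ∀ i, x i ≠ 0) (h1 : ∀ i, x i ≠ 1)
    (G : Fin 3 → F) (l l' : Fin 3 → Fin 3 → ℚ) (hl : ∀ i, LD D (x i) = ev (l i) G)
    (hl' : ∀ i, LD D (1 - x i) = ev (l' i) G) (c : Fin 3 → ℚ)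
    (hc : ∑ i, c i • crossProduct (l i) (l' i) = 0) :
    ∑ i, (c i : F) * (ev (l i) G * ev (l' i) G * ev (l i - l' i) G) = 0 := by
  have h2 : ev (∑ i, c i • crossProduct (l i) (l' i)) (crossProduct G fun i => D (G i)) = 0 := by
    rw [hc]
    simp [ev]
  rw [Fin.sum_univ_three, ev_add, ev_add, ev_smul, ev_smul, ev_smul] at h2
  rw [Fin.sum_univ_three, ← h2, key D (x 0) (h0 0) (h1 0) G (l 0) (l' 0) (hl 0) (hl' 0),
    key D (x 1) (h0 1) (h1 1) G (l 1) (l' 1) (hl 1) (hl' 1),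
    key D (x 2) (h0 2) (h1 2) G (l 2) (l' 2) (hl 2) (hl' 2)]

end Pool.Agent.LThreeC
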