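import Pool.Agent.LThreeC.Deriv

set_option autoImplicit false

/-! Package C8: existence of valuations.

PROOF. `F` is algebraic over `ℚ(f)` (`exchange`) and generated by finitely many elements, so it is a
finite extension of `ℚ(f)`. Let `A = ℚ[f]` (or `ℚ[X]` acting through `f`; `Frac A = ℚ(f)`) and `B` the
integral closure of `A` in `F`: a Dedekind domain (`integralClosure.isDedekindDomain` or
`IsIntegralClosure.isDedekindDomain`, the extension is separable as char = 0) with fraction field
`F`. `f` is not a unit in `B` (otherwise `f⁻¹` integral over `ℚ[f]`, so `f⁻¹ ∈ ℚ[f]`), so there is a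
maximal ideal `P ∋ f`, `P ≠ 0`; let `v` be the `P`-adic valuation of `F`
(`IsDedekindDomain.HeightOneSpectrum.valuation`) and `w a := - (exponent of v a)`:
`w f > 0`, nonzero rational numbers are units of `B`, so `w q = 0`; a uniformizer exists
(`IsDedekindDomain.HeightOneSpectrum.valuation_exists_uniformizer`). -/

namespace Pool.Agent.LThreeC

open Pool.Agent.LThree IntermediateField

variable {F : Type} [Field F] [CharZero F]

open IsDedekindDomain WithZero in
/-- The order with respect to a prime of a Dedekind domain. -/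
private theorem isOrd_of_prime {B : Type} [CommRing B] [IsDedekindDomain B] [Algebra B F]
    [IsFractionRing B F] (hQ : ∀ q : ℚ, ∃ b : B, algebraMap B F b = (q : F))
    (v : HeightOneSpectrum B) :
    IsOrd (fun a : F => -WithZero.log (v.valuation F a)) where
  mul a b ha hb := by
    rw [map_mul, WithZero.log_mul ((Valuation.ne_zero_iff _).2 ha)
      ((Valuation.ne_zero_iff _).2 hb), neg_add]
  add a b ha hb hab := by
    have h1 := (v.valuation F).map_add a b
    have ha' := ((v.valuation F).ne_zero_iff).2 ha
    have hb' := ((v.valuation F).ne_zero_iff).2 hb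
    have hab' := ((v.valuation F).ne_zero_iff).2 hab
    rcases le_max_iff.1 h1 with h2 | h2
    · have h3 := (WithZero.log_le_log hab' ha').2 h2
      exact (min_le_left _ _).trans (neg_le_neg h3)
    · have h3 := (WithZero.log_le_log hab' hb').2 h2
      exact (min_le_right _ _).trans (neg_le_neg h3)
  rat q hq := by
    have hle : ∀ r : ℚ, v.valuation F (r : F) ≤ 1 := by
      intro r
      obtain ⟨b, hb⟩ := hQ r
      rw [← hb]
      exact v.valuation_le_one b
    have h1 : v.valuation F (q : F) * v.valuation F ((q⁻¹ : ℚ) : F) = 1 := by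
      rw [← map_mul, ← Rat.cast_mul, mul_inv_cancel₀ hq, Rat.cast_one, map_one]
    have h2 : v.valuation F (q : F) = 1 := by
      refine le_antisymm (hle q) ?_
      rw [← h1]
      exact mul_le_of_le_one_right' (hle q⁻¹)
    rw [h2, WithZero.log_one, neg_zero]
  surj := by
    obtain ⟨π, hπ⟩ := v.valuation_exists_uniformizer F
    refine ⟨π, ?_, ?_⟩
    · rintro rfl
      rw [map_zero] at hπ
      exact WithZero.exp_ne_zero hπ.symm
    · rw [hπ, WithZero.log_exp, neg_neg]

open scoped algebraAdjoinAdjoin in
theorem exists_ord (x : Fin 3 → F) (hgen : adjoin ℚ (Set.range x) = ⊤) (t : F)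
    (halg : Algebra.IsAlgebraic (adjoin ℚ {t}) F) (f : F) (hf : Transcendental ℚ f) :
    ∃ w : F → ℤ, IsOrd w ∧ w f ≠ 0 := by
  have halgf : Algebra.IsAlgebraic (adjoin ℚ {f}) F := exchange t f halg hf
  have hess : Algebra.EssFiniteType ℚ F := by
    rw [← fg_top_iff]
    classical
    refine ⟨Finset.univ.image x, ?_⟩
    rw [← hgen]
    congr 1
    simp
  have : Algebra.EssFiniteType (adjoin ℚ {f}) F := Algebra.EssFiniteType.of_comp ℚ _ F
  have hfin : Module.Finite (adjoin ℚ {f}) F := Algebra.finite_of_essFiniteType_of_isAlgebraic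
  -- `ℚ[f]` is a principal ideal domain
  have hinj : Function.Injective (Polynomial.aeval (R := ℚ) f) :=
    transcendental_iff_injective.1 hf
  let eA : Polynomial ℚ ≃ₐ[ℚ] Algebra.adjoin ℚ {f} :=
    (AlgEquiv.ofInjective (Polynomial.aeval f) hinj).trans
      (Subalgebra.equivOfEq _ _ (Algebra.adjoin_singleton_eq_range_aeval ℚ f).symm)
  have heX : (eA Polynomial.X : F) = f := by
    simp [eA]
  have : IsPrincipalIdealRing (Algebra.adjoin ℚ {f}) :=
    IsPrincipalIdealRing.of_surjective eA.toRingEquiv.toRingHom eA.surjective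
  have hdA : IsDedekindDomain (Algebra.adjoin ℚ {f}) := inferInstance
  have hdB : IsDedekindDomain (integralClosure (Algebra.adjoin ℚ {f}) F) :=
    integralClosure.isDedekindDomain (Algebra.adjoin ℚ {f}) (adjoin ℚ {f}) F
  have hfr : IsFractionRing (integralClosure (Algebra.adjoin ℚ {f}) F) F :=
    integralClosure.isFractionRing_of_finite_extension (adjoin ℚ {f}) F
  -- `f` is not a unit
  have hnu : ¬ IsUnit (eA Polynomial.X) := by
    intro h
    have h1 : IsUnit (Polynomial.X : Polynomial ℚ) := by
      have h2 := h.map eA.symm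
      rwa [AlgEquiv.symm_apply_apply] at h2
    exact Polynomial.not_isUnit_X h1
  have hnuB : ¬ IsUnit (algebraMap (Algebra.adjoin ℚ {f})
      (integralClosure (Algebra.adjoin ℚ {f}) F) (eA Polynomial.X)) := by
    intro h
    exact hnu (isUnit_of_map_unit _ _ h)
  obtain ⟨P, hPm, hP⟩ := exists_max_ideal_of_mem_nonunits hnuB
  have hfF : algebraMap (integralClosure (Algebra.adjoin ℚ {f}) F) F
      (algebraMap (Algebra.adjoin ℚ {f})
      (integralClosure (Algebra.adjoin ℚ {f}) F) (eA Polynomial.X)) = f := heX
  have hf0 : f ≠ 0 := by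
    rintro rfl
    exact hf isAlgebraic_zero
  have hP0 : P ≠ ⊥ := by
    rintro rfl
    rw [Ideal.mem_bot] at hP
    rw [hP, map_zero] at hfF
    exact hf0 hfF.symm
  let v : IsDedekindDomain.HeightOneSpectrum (integralClosure (Algebra.adjoin ℚ {f}) F) :=
    ⟨P, hPm.isPrime, hP0⟩
  refine ⟨_, isOrd_of_prime (B := integralClosure (Algebra.adjoin ℚ {f}) F) ?_ v, ?_⟩
  · intro q
    refine ⟨algebraMap ℚ _ q, ?_⟩
    rw [← IsScalarTower.algebraMap_apply]
    exact eq_ratCast _ q
  · have h1 : v.valuation F f < 1 :=
      lt_of_eq_of_lt (congrArg (v.valuation F) hfF.symm) ((v.valuation_lt_one_iff_mem _).2 hP)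
    have h2 : v.valuation F f ≠ 0 := (Valuation.ne_zero_iff _).2 hf0
    have h3 := (WithZero.log_lt_log h2 one_ne_zero).2 h1
    rw [WithZero.log_one] at h3
    show -WithZero.log (v.valuation F f) ≠ 0
    omega

end Pool.Agent.LThreeC
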