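import Pool.Agent.LThreeC.Defs

set_option autoImplicit false

/-! Package C9: valuations of `t` and `1 - t` are bounded by the degree.

PROOF. Let `e = w t` and suppose `5 <= |e|`. For a nonzero `p ∈ ℚ[X]`: `p(t) ≠ 0` and `w (p(t))` is a
multiple of `e` (if `e > 0` it is `j e` with `j` the smallest exponent, if `e < 0` it is
`(natDegree p) e`: strict triangle inequality). Take `π` with `w π = 1` and
`∑_(k<=4) c_k(t) π^k = 0` from `Deg4 t`. The nonzero terms have values `≡ k mod e`, pairwise
different because `|e| > 4`, and there is at least one nonzero term; a finite sum of nonzero elements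
with pairwise different `w` is nonzero (its `w` is the minimum): contradiction. For `1 - t` use
`Deg4 (1 - t)` (compose the polynomials with `1 - X`). Useful: `w 1 = 0`, `w (-a) = w a`. -/

namespace Pool.Agent.LThreeC

open Pool.Agent.LThree Polynomial

variable {F : Type} [Field F] [CharZero F]

private lemma w_one {w : F → ℤ} (hw : IsOrd w) : w 1 = 0 := by
  have := hw.rat 1 one_ne_zero
  simpa using this

private lemma w_neg {w : F → ℤ} (hw : IsOrd w) {a : F} (ha : a ≠ 0) : w (-a) = w a := by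
  have h1 : w (-1) = 0 := by
    have := hw.rat (-1) (by norm_num)
    simpa using this
  rw [← neg_one_mul, hw.mul _ _ (by norm_num) ha, h1, zero_add]

private lemma w_pow {w : F → ℤ} (hw : IsOrd w) {a : F} (ha : a ≠ 0) (n : ℕ) :
    w (a ^ n) = n * w a := by
  induction n with
  | zero => simp [w_one hw]
  | succ n ih =>
    rw [pow_succ, hw.mul _ _ (pow_ne_zero _ ha) ha, ih]
    push_cast
    ring

private lemma w_add_lt {w : F → ℤ} (hw : IsOrd w) {a b : F} (ha : a ≠ 0) (hb : b ≠ 0)
    (h : w a < w b) : a + b ≠ 0 ∧ w (a + b) = w a := by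
  have h0 : a + b ≠ 0 := by
    intro h1
    have h2 : b = -a := by linear_combination h1
    rw [h2, w_neg hw ha] at h
    exact lt_irrefl _ h
  refine ⟨h0, le_antisymm ?_ ?_⟩
  · by_contra hcon
    push Not at hcon
    have h2 := hw.add (a + b) (-b) h0 (neg_ne_zero.mpr hb) (by
      rw [add_neg_cancel_right]
      exact ha)
    rw [add_neg_cancel_right, w_neg hw hb] at h2
    exact absurd (lt_of_lt_of_le (lt_min hcon h) h2) (lt_irrefl _)
  · have h2 := hw.add a b ha hb h0
    rwa [min_eq_left h.le] at h2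

private lemma w_sum {w : F → ℤ} (hw : IsOrd w) {ι : Type} [DecidableEq ι] (s : Finset ι)
    (f : ι → F) (hs : s.Nonempty) (hf : ∀ i ∈ s, f i ≠ 0)
    (hinj : ∀ i ∈ s, ∀ j ∈ s, w (f i) = w (f j) → i = j) :
    ∑ i ∈ s, f i ≠ 0 ∧ ∃ i ∈ s, w (∑ i ∈ s, f i) = w (f i) := by
  induction hs using Finset.Nonempty.cons_induction with
  | singleton a =>
    rw [Finset.sum_singleton]
    exact ⟨hf a (Finset.mem_singleton_self a), a, Finset.mem_singleton_self a, rfl⟩
  | cons a s ha hs ih =>
    obtain ⟨h1, i, hi, h2⟩ := ih (fun i hi => hf i (Finset.mem_cons_of_mem hi))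
      (fun i hi j hj => hinj i (Finset.mem_cons_of_mem hi) j (Finset.mem_cons_of_mem hj))
    rw [Finset.sum_cons]
    have hfa := hf a (Finset.mem_cons_self a s)
    have hne : w (f a) ≠ w (∑ i ∈ s, f i) := by
      rw [h2]
      intro h3
      have := hinj a (Finset.mem_cons_self a s) i (Finset.mem_cons_of_mem hi) h3
      rw [this] at ha
      exact ha hi
    rcases lt_or_gt_of_ne hne with h3 | h3
    · obtain ⟨h4, h5⟩ := w_add_lt hw hfa h1 h3
      exact ⟨h4, a, Finset.mem_cons_self a s, h5⟩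
    · obtain ⟨h4, h5⟩ := w_add_lt hw h1 hfa h3
      rw [add_comm] at h4 h5
      exact ⟨h4, i, Finset.mem_cons_of_mem hi, by rw [h5, h2]⟩

private lemma w_poly {w : F → ℤ} (hw : IsOrd w) {t : F} (htr : Transcendental ℚ t)
    (ht : t ≠ 0) (he : w t ≠ 0) (p : ℚ[X]) (hp : p ≠ 0) :
    aeval t p ≠ 0 ∧ ∃ j : ℕ, w (aeval t p) = j * w t := by
  have hne : aeval t p ≠ 0 := fun h => htr ⟨p, hp, h⟩
  refine ⟨hne, ?_⟩
  have hval : ∀ i ∈ p.support, w ((algebraMap ℚ F (p.coeff i)) * t ^ i) = i * w t := by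
    intro i hi
    have hc : p.coeff i ≠ 0 := mem_support_iff.mp hi
    have hc' : (algebraMap ℚ F (p.coeff i)) ≠ 0 := by
      rw [Ne, map_eq_zero]
      exact hc
    rw [hw.mul _ _ hc' (pow_ne_zero _ ht), w_pow hw ht]
    have := hw.rat (p.coeff i) hc
    rw [eq_ratCast, this, zero_add]
  obtain ⟨-, i, hi, h⟩ := w_sum hw p.support (fun i => (algebraMap ℚ F (p.coeff i)) * t ^ i)
    (nonempty_support_iff.mpr hp) (by
      intro i hi
      have hc : p.coeff i ≠ 0 := mem_support_iff.mp hi
      refine mul_ne_zero ?_ (pow_ne_zero _ ht)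
      rw [Ne, map_eq_zero]
      exact hc) (by
      intro i hi j hj h
      rw [hval i hi, hval j hj] at h
      exact_mod_cast mul_right_cancel₀ he h)
  refine ⟨i, ?_⟩
  rw [← hval i hi, ← h, aeval_eq_sum_range, ← Polynomial.sum_over_range' p
    (f := fun n c => c • t ^ n) (by simp) (p.natDegree + 1) (Nat.lt_succ_self _), Polynomial.sum]
  simp only [Algebra.smul_def]

private lemma w_bound (w : F → ℤ) (hw : IsOrd w) (t : F) (htr : Transcendental ℚ t)
    (hd : Deg4 t) : |w t| ≤ 4 := by
  by_contra hcon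
  push Not at hcon
  have ht : t ≠ 0 := by
    rintro rfl
    exact htr isAlgebraic_zero
  have he : w t ≠ 0 := by
    intro h
    rw [h, abs_zero] at hcon
    omega
  obtain ⟨π, hπ0, hπ⟩ := hw.surj
  obtain ⟨c, hc, hsum⟩ := hd π
  have hval : ∀ k : Fin 5, c k ≠ 0 → ∃ j : ℕ, w (aeval t (c k) * π ^ (k : ℕ)) = j * w t + k := by
    intro k hk
    obtain ⟨h1, j, h2⟩ := w_poly hw htr ht he (c k) hk
    refine ⟨j, ?_⟩
    rw [hw.mul _ _ h1 (pow_ne_zero _ hπ0), h2, w_pow hw hπ0, hπ, mul_one]
  classical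
  obtain ⟨h1, -⟩ := w_sum hw (Finset.univ.filter fun k : Fin 5 => c k ≠ 0)
    (fun k => aeval t (c k) * π ^ (k : ℕ)) (by
      by_contra hemp
      rw [Finset.not_nonempty_iff_eq_empty] at hemp
      apply hc
      funext k
      by_contra hk
      have : k ∈ (Finset.univ.filter fun k : Fin 5 => c k ≠ 0) := by
        simpa using hk
      rw [hemp] at this
      exact absurd this (Finset.notMem_empty k)) (by
      intro k hk
      exact mul_ne_zero (w_poly hw htr ht he (c k) (Finset.mem_filter.mp hk).2).1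
        (pow_ne_zero _ hπ0)) (by
      intro k hk k' hk' h
      obtain ⟨j, hj⟩ := hval k (Finset.mem_filter.mp hk).2
      obtain ⟨j', hj'⟩ := hval k' (Finset.mem_filter.mp hk').2
      rw [hj, hj'] at h
      have h3 : ((k : ℕ) : ℤ) - (k' : ℕ) = ((j' : ℤ) - j) * w t := by linarith
      have h4 : w t ∣ ((k : ℕ) : ℤ) - (k' : ℕ) := ⟨(j' : ℤ) - j, by rw [h3]; ring⟩
      have h5 : ((k : ℕ) : ℤ) - (k' : ℕ) = 0 := by
        apply Int.eq_zero_of_abs_lt_dvd ((abs_dvd _ _).mpr h4)
        have := k.2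
        have := k'.2
        refine lt_of_le_of_lt ?_ hcon
        rw [abs_le]
        constructor <;> omega
      apply Fin.ext
      omega)
  apply h1
  rw [← hsum]
  apply Finset.sum_subset (Finset.filter_subset _ _)
  intro k _ hk
  have : c k = 0 := by
    by_contra h
    exact hk (by simpa using h)
  rw [this, map_zero, zero_mul]

theorem ord_bound (w : F → ℤ) (hw : IsOrd w) (t : F) (htr : Transcendental ℚ t) (hd : Deg4 t) :
    |w t| ≤ 4 ∧ |w (1 - t)| ≤ 4 := by
  refine ⟨w_bound w hw t htr hd, w_bound w hw (1 - t) ?_ ?_⟩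
  · intro h
    apply htr
    have h2 : t = 1 - (1 - t) := by ring
    rw [h2]
    exact IsAlgebraic.sub isAlgebraic_one h
  · intro y
    obtain ⟨c, hc, h⟩ := hd y
    refine ⟨fun k => (c k).comp (1 - X), ?_, ?_⟩
    · intro h0
      apply hc
      funext k
      have h1 := congrFun h0 k
      simp only [Pi.zero_apply] at h1
      have h2 : ((c k).comp (1 - X)).comp (1 - X) = c k := by
        rw [comp_assoc]
        simp
      rw [← h2, h1]
      simp
    · rw [← h]
      refine Finset.sum_congr rfl fun k _ => ?_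
      rw [aeval_comp]
      simp

end Pool.Agent.LThreeC
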