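import Pool.Agent.LThreeC.Defs

set_option autoImplicit false

/-! Package C19: the forms as polynomials, and linear algebra in `ℚ^3`.

`poly4`, `poly3`: the forms as `MvPolynomial (Fin 3) ℚ` (`lin a = ∑_j C (a j) * X j`), homogeneous,
nonzero because they do not vanish at all rational points.
`dual_or_rel`: if `q` is linearly independent take the inverse matrix, otherwise a relation.
`rel_ne`: if `c_0 = 0` then `c_1 q_1 + c_2 q_2 = 0`; cross product with `q_1`, `q_2`. -/

namespace Pool.Agent.LThreeC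

open Pool.Agent.LThree

variable {F : Type} [Field F] [CharZero F]

/-- the linear form as a polynomial -/
private noncomputable def lin (a : Fin 3 → ℚ) : MvPolynomial (Fin 3) ℚ :=
  ∑ j, MvPolynomial.C (a j) * MvPolynomial.X j

private lemma lin_hom (a : Fin 3 → ℚ) : (lin a).IsHomogeneous 1 :=
  MvPolynomial.IsHomogeneous.sum _ _ _ fun j _ => MvPolynomial.isHomogeneous_C_mul_X _ j

private lemma lin_eval (a v : Fin 3 → ℚ) : MvPolynomial.eval v (lin a) = a ⬝ᵥ v := by
  simp [lin, dotProduct]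

private lemma lin_aeval (a : Fin 3 → ℚ) (G : Fin 3 → F) :
    MvPolynomial.aeval G (lin a) = ev a G := by
  simp [lin, ev]

theorem poly4 (l l' α : Fin 3 → Fin 3 → ℚ)
    (h : ∃ v : Fin 3 → ℚ,
      ∑ i, (α i ⬝ᵥ v) * (l i ⬝ᵥ v) * (l' i ⬝ᵥ v) * ((l i - l' i) ⬝ᵥ v) ≠ 0) :
    ∃ R : MvPolynomial (Fin 3) ℚ, R.IsHomogeneous 4 ∧ R ≠ 0 ∧ ∀ G : Fin 3 → F,
      MvPolynomial.aeval G R = ∑ i, ev (α i) G * ev (l i) G * ev (l' i) G * ev (l i - l' i) G := by
  refine ⟨∑ i, lin (α i) * lin (l i) * lin (l' i) * lin (l i - l' i), ?_, ?_, ?_⟩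
  · exact MvPolynomial.IsHomogeneous.sum _ _ _ fun i _ =>
      (((lin_hom _).mul (lin_hom _)).mul (lin_hom _)).mul (lin_hom _)
  · intro h0
    obtain ⟨v, hv⟩ := h
    apply hv
    have h1 := congrArg (MvPolynomial.eval v) h0
    simpa [map_sum, map_mul, lin_eval] using h1
  · intro G
    simp [map_sum, map_mul, lin_aeval]

theorem poly3 (l l' : Fin 3 → Fin 3 → ℚ) (c : Fin 3 → ℚ)
    (h : ∃ v : Fin 3 → ℚ, ∑ i, c i * ((l i ⬝ᵥ v) * (l' i ⬝ᵥ v) * ((l i - l' i) ⬝ᵥ v)) ≠ 0) :
    ∃ R : MvPolynomial (Fin 3) ℚ, R.IsHomogeneous 3 ∧ R ≠ 0 ∧ ∀ G : Fin 3 → F,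
      MvPolynomial.aeval G R =
        ∑ i, (c i : F) * (ev (l i) G * ev (l' i) G * ev (l i - l' i) G) := by
  refine ⟨∑ i, MvPolynomial.C (c i) * (lin (l i) * lin (l' i) * lin (l i - l' i)), ?_, ?_, ?_⟩
  · refine MvPolynomial.IsHomogeneous.sum _ _ _ fun i _ => ?_
    have h1 := (MvPolynomial.isHomogeneous_C (Fin 3) (c i)).mul
      (((lin_hom (l i)).mul (lin_hom (l' i))).mul (lin_hom (l i - l' i)))
    simpa using h1
  · intro h0
    obtain ⟨v, hv⟩ := h
    apply hv
    have h1 := congrArg (MvPolynomial.eval v) h0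
    simpa [map_sum, map_mul, lin_eval] using h1
  · intro G
    simp [map_sum, map_mul, lin_aeval]

/-- Linear algebra: three vectors of `ℚ^3` have a dual basis or a nontrivial relation. -/
theorem dual_or_rel (q : Fin 3 → Fin 3 → ℚ) :
    (∃ α : Fin 3 → Fin 3 → ℚ, ∀ i j, α i ⬝ᵥ q j = if i = j then 1 else 0) ∨
      ∃ c : Fin 3 → ℚ, c ≠ 0 ∧ ∑ i, c i • q i = 0 := by
  by_cases h : LinearIndependent ℚ q
  · left
    have hu : IsUnit (Matrix.of q) := Matrix.linearIndependent_rows_iff_isUnit.1 h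
    have hu' : IsUnit (Matrix.of q).det := (Matrix.isUnit_iff_isUnit_det _).1 hu
    have h1 := Matrix.mul_nonsing_inv (Matrix.of q) hu'
    refine ⟨fun i k => (Matrix.of q)⁻¹ k i, fun i j => ?_⟩
    have h2 := congrFun (congrFun h1 j) i
    rw [Matrix.mul_apply, Matrix.one_apply] at h2
    rw [dotProduct]
    calc ∑ k, (Matrix.of q)⁻¹ k i * q j k = ∑ k, Matrix.of q j k * (Matrix.of q)⁻¹ k i :=
          Finset.sum_congr rfl fun k _ => mul_comm _ _
      _ = if j = i then 1 else 0 := h2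
      _ = if i = j then 1 else 0 := by simp only [eq_comm]
  · right
    obtain ⟨c, hc, i, hi⟩ := Fintype.not_linearIndependent_iff.1 h
    exact ⟨c, fun h0 => hi (congrFun h0 i), hc⟩

/-- In a nontrivial relation between pairwise independent vectors all coefficients are nonzero. -/
theorem rel_ne (q : Fin 3 → Fin 3 → ℚ) (hq : ∀ i j, i ≠ j → crossProduct (q i) (q j) ≠ 0)
    (c : Fin 3 → ℚ) (hc : c ≠ 0) (hs : ∑ i, c i • q i = 0) : ∀ i, c i ≠ 0 := by
  have key : ∀ (u v : Fin 3 → ℚ) (a b : ℚ), crossProduct u v ≠ 0 → a • u + b • v = 0 →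
      a = 0 ∧ b = 0 := by
    intro u v a b huv h
    have h1 := congrArg (fun y => crossProduct y v) h
    have h2 := congrArg (fun y => crossProduct u y) h
    simp only [map_add, map_smul, LinearMap.add_apply, LinearMap.smul_apply, cross_self,
      smul_zero, add_zero, zero_add, map_zero, LinearMap.zero_apply] at h1 h2
    exact ⟨(smul_eq_zero.1 h1).resolve_right huv, (smul_eq_zero.1 h2).resolve_right huv⟩
  rw [Fin.sum_univ_three] at hs
  intro i hi
  apply hc
  fin_cases i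
  · have hi' : c 0 = 0 := hi
    rw [hi', zero_smul, zero_add] at hs
    obtain ⟨h1, h2⟩ := key _ _ _ _ (hq 1 2 (by decide)) hs
    ext j
    fin_cases j
    · exact hi'
    · exact h1
    · exact h2
  · have hi' : c 1 = 0 := hi
    rw [hi', zero_smul, add_zero] at hs
    obtain ⟨h1, h2⟩ := key _ _ _ _ (hq 0 2 (by decide)) hs
    ext j
    fin_cases j
    · exact h1
    · exact hi'
    · exact h2
  · have hi' : c 2 = 0 := hi
    rw [hi', zero_smul, add_zero] at hs
    obtain ⟨h1, h2⟩ := key _ _ _ _ (hq 0 1 (by decide)) hs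
    ext j
    fin_cases j
    · exact h1
    · exact h2
    · exact hi'

end Pool.Agent.LThreeC
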