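import Pool.Agent.LThreeC.Defs

set_option autoImplicit false

/-! Package C5: the quartic form is zero only in the symmetric case (linear algebra over `ℚ`).

Write `q_i = l_i × l'_i`, `K_i(v) = (l_i·v)(l'_i·v)((l_i-l'_i)·v)`; `α` is the dual basis of `q`.
PROOF. (1) For `v = s q_1 + t q_2`: `α_0·v = 0`, `α_1·v = s`, `α_2·v = t`, `l_1·v = t (l_1·q_2)` etc.
(as `l_i·q_i = l'_i·q_i = 0`), so `K_1(v) = t^3 K_1(q_2)`, `K_2(v) = s^3 K_2(q_1)` and the identity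
gives `s t^3 K_1(q_2) + t s^3 K_2(q_1) = 0` for all `s, t`, so `K_1(q_2) = K_2(q_1) = 0`. By symmetry
`K_i(q_j) = 0` for all `i ≠ j`.
(2) So one of the three forms `l_i, l'_i, l_i - l'_i` vanishes at `q_i, q_(i+1)`, i.e. is a multiple
of `α_(i+2)`, and one vanishes at `q_i, q_(i+2)`, i.e. is a multiple of `α_(i+1)`; they are different
forms. Hence for a suitable frame `k_i` (the six frames realise all ordered pairs of two of the three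
lines): `A_i := (fr k_i l_i l'_i).1 = a_i α_(i+1)`, `B_i := (fr k_i l_i l'_i).2 = b_i α_(i+2)`.
(3) In the frame `k_i`: `A_i × B_i = ε_i q_i` and `A_i B_i (A_i - B_i) = ε_i K_i` (values at `v`) with
the SAME sign `ε_i = ±1` (check the six frames). With `δ = det(α_0,α_1,α_2) ≠ 0`:
`α_(i+1) × α_(i+2) = δ q_i`, so `a_i b_i δ = ε_i`, and the identity becomes
`(α_0·v)(α_1·v)(α_2·v) * ∑_i (a_i α_(i+1) - b_i α_(i+2))·v / δ = 0` for all `v`; so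
`∑_i (a_i α_(i+1) - b_i α_(i+2)) = 0`, i.e. `a_0 = b_2` (coefficient of `α_1`), `a_1 = b_0` (of
`α_2`), `a_2 = b_1` (of `α_0`). This is the claim. -/

namespace Pool.Agent.LThreeC

open Pool.Agent.LThree

private lemma expand3 (α₀ α₁ α₂ q₀ q₁ q₂ : Fin 3 → ℚ)
    (h00 : α₀ ⬝ᵥ q₀ = 1) (h01 : α₀ ⬝ᵥ q₁ = 0) (h02 : α₀ ⬝ᵥ q₂ = 0)
    (h10 : α₁ ⬝ᵥ q₀ = 0) (h11 : α₁ ⬝ᵥ q₁ = 1) (h12 : α₁ ⬝ᵥ q₂ = 0)
    (h20 : α₂ ⬝ᵥ q₀ = 0) (h21 : α₂ ⬝ᵥ q₁ = 0) (h22 : α₂ ⬝ᵥ q₂ = 1) (f : Fin 3 → ℚ) :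
    f = (f ⬝ᵥ q₀) • α₀ + (f ⬝ᵥ q₁) • α₁ + (f ⬝ᵥ q₂) • α₂ := by
  set A : Matrix (Fin 3) (Fin 3) ℚ := Matrix.of ![α₀, α₁, α₂] with hA
  set Q : Matrix (Fin 3) (Fin 3) ℚ := (Matrix.of ![q₀, q₁, q₂]).transpose with hQ
  have hAQ : A * Q = 1 := by
    ext i j
    have h1 : (A * Q) i j = (![α₀, α₁, α₂] i) ⬝ᵥ (![q₀, q₁, q₂] j) := rfl
    rw [h1]
    fin_cases i <;> fin_cases j <;> simp [h00, h01, h02, h10, h11, h12, h20, h21, h22]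
  have hQA : Q * A = 1 := mul_eq_one_comm.1 hAQ
  have h2 : Matrix.vecMul (Matrix.vecMul f Q) A = f := by
    rw [Matrix.vecMul_vecMul, hQA, Matrix.vecMul_one]
  funext k
  have h3 := congrFun h2 k
  rw [← h3]
  simp only [Matrix.vecMul, dotProduct, Fin.sum_univ_three, hA, hQ, Matrix.transpose_apply,
    Matrix.of_apply, Matrix.cons_val_zero, Matrix.cons_val_one, Matrix.cons_val,
    Pi.add_apply, Pi.smul_apply, smul_eq_mul]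

private lemma one_index (α₀ α₁ α₂ q₁ q₂ l l' : Fin 3 → ℚ)
    (h00 : α₀ ⬝ᵥ crossProduct l l' = 1) (h01 : α₀ ⬝ᵥ q₁ = 0) (h02 : α₀ ⬝ᵥ q₂ = 0)
    (h10 : α₁ ⬝ᵥ crossProduct l l' = 0) (h11 : α₁ ⬝ᵥ q₁ = 1) (h12 : α₁ ⬝ᵥ q₂ = 0)
    (h20 : α₂ ⬝ᵥ crossProduct l l' = 0) (h21 : α₂ ⬝ᵥ q₁ = 0) (h22 : α₂ ⬝ᵥ q₂ = 1)
    (k1 : (l ⬝ᵥ q₁) * (l' ⬝ᵥ q₁) * ((l - l') ⬝ᵥ q₁) = 0)
    (k2 : (l ⬝ᵥ q₂) * (l' ⬝ᵥ q₂) * ((l - l') ⬝ᵥ q₂) = 0) :
    ∃ (k : Fin 6) (a b ε : ℚ), ε * ε = 1 ∧ (fr k l l').1 = a • α₁ ∧ (fr k l l').2 = b • α₂ ∧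
      a * b * (α₀ ⬝ᵥ crossProduct α₁ α₂) = ε ∧
      ∀ v : Fin 3 → ℚ, ε * (a * b) * ((α₁ ⬝ᵥ v) * (α₂ ⬝ᵥ v) * (a * (α₁ ⬝ᵥ v) - b * (α₂ ⬝ᵥ v))) =
        (l ⬝ᵥ v) * (l' ⬝ᵥ v) * ((l - l') ⬝ᵥ v) := by
  have hex := expand3 α₀ α₁ α₂ (crossProduct l l') q₁ q₂ h00 h01 h02 h10 h11 h12 h20 h21 h22
  have hl0 : l ⬝ᵥ crossProduct l l' = 0 := dot_self_cross l l'
  have hl'0 : l' ⬝ᵥ crossProduct l l' = 0 := dot_cross_self l l'
  have hne : ∀ f : Fin 3 → ℚ, f ⬝ᵥ crossProduct l l' = 0 → f ⬝ᵥ q₁ = 0 → f ⬝ᵥ q₂ = 0 →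
      f = 0 := by
    intro f e0 e1 e2
    rw [hex f, e0, e1, e2]
    simp
  have hq0 : crossProduct l l' ≠ 0 := by
    intro h
    rw [h, dotProduct_zero] at h00
    exact zero_ne_one h00
  have hA : ∀ f : Fin 3 → ℚ, f ⬝ᵥ crossProduct l l' = 0 → f ⬝ᵥ q₂ = 0 →
      f = (f ⬝ᵥ q₁) • α₁ := by
    intro f e0 e2
    have := hex f
    rw [e0, e2, zero_smul, zero_smul, zero_add, add_zero] at this
    exact this
  have hB : ∀ f : Fin 3 → ℚ, f ⬝ᵥ crossProduct l l' = 0 → f ⬝ᵥ q₁ = 0 →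
      f = (f ⬝ᵥ q₂) • α₂ := by
    intro f e0 e1
    have := hex f
    rw [e0, e1, zero_smul, zero_smul, zero_add, zero_add] at this
    exact this
  -- the general step
  have key : ∀ (k : Fin 6) (A B : Fin 3 → ℚ) (ε : ℚ), fr k l l' = (A, B) → ε * ε = 1 →
      A ⬝ᵥ crossProduct l l' = 0 → A ⬝ᵥ q₂ = 0 → B ⬝ᵥ crossProduct l l' = 0 → B ⬝ᵥ q₁ = 0 →
      crossProduct A B = ε • crossProduct l l' →
      (∀ v : Fin 3 → ℚ, (A ⬝ᵥ v) * (B ⬝ᵥ v) * ((A ⬝ᵥ v) - (B ⬝ᵥ v)) =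
        ε * ((l ⬝ᵥ v) * (l' ⬝ᵥ v) * ((l - l') ⬝ᵥ v))) →
      ∃ (k : Fin 6) (a b ε : ℚ), ε * ε = 1 ∧ (fr k l l').1 = a • α₁ ∧ (fr k l l').2 = b • α₂ ∧
      a * b * (α₀ ⬝ᵥ crossProduct α₁ α₂) = ε ∧
      ∀ v : Fin 3 → ℚ, ε * (a * b) * ((α₁ ⬝ᵥ v) * (α₂ ⬝ᵥ v) * (a * (α₁ ⬝ᵥ v) - b * (α₂ ⬝ᵥ v))) =
        (l ⬝ᵥ v) * (l' ⬝ᵥ v) * ((l - l') ⬝ᵥ v) := by
    intro k A B ε hk hε e1 e2 e3 e4 e5 e6
    have hA' := hA A e1 e2
    have hB' := hB B e3 e4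
    refine ⟨k, A ⬝ᵥ q₁, B ⬝ᵥ q₂, ε, hε, by rw [hk]; exact hA', by rw [hk]; exact hB', ?_, ?_⟩
    · have h1 : α₀ ⬝ᵥ crossProduct A B = ε := by
        rw [e5, dotProduct_smul, h00, smul_eq_mul, mul_one]
      rw [← h1]
      conv_rhs => rw [hA', hB']
      rw [map_smul, map_smul, LinearMap.smul_apply, dotProduct_smul, dotProduct_smul]
      simp only [smul_eq_mul]
      ring
    · intro v
      have h1 : A ⬝ᵥ v = (A ⬝ᵥ q₁) * (α₁ ⬝ᵥ v) := by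
        conv_lhs => rw [hA']
        rw [smul_dotProduct, smul_eq_mul]
      have h2 : B ⬝ᵥ v = (B ⬝ᵥ q₂) * (α₂ ⬝ᵥ v) := by
        conv_lhs => rw [hB']
        rw [smul_dotProduct, smul_eq_mul]
      have h3 := e6 v
      rw [h1, h2] at h3
      calc ε * ((A ⬝ᵥ q₁) * (B ⬝ᵥ q₂)) * ((α₁ ⬝ᵥ v) * (α₂ ⬝ᵥ v) *
            ((A ⬝ᵥ q₁) * (α₁ ⬝ᵥ v) - (B ⬝ᵥ q₂) * (α₂ ⬝ᵥ v)))
          = ε * ((A ⬝ᵥ q₁) * (α₁ ⬝ᵥ v) * ((B ⬝ᵥ q₂) * (α₂ ⬝ᵥ v)) *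
            ((A ⬝ᵥ q₁) * (α₁ ⬝ᵥ v) - (B ⬝ᵥ q₂) * (α₂ ⬝ᵥ v))) := by ring
        _ = (ε * ε) * ((l ⬝ᵥ v) * (l' ⬝ᵥ v) * ((l - l') ⬝ᵥ v)) := by rw [h3]; ring
        _ = _ := by rw [hε, one_mul]
  have hs0 : (l - l') ⬝ᵥ crossProduct l l' = 0 := by rw [sub_dotProduct, hl0, hl'0, sub_zero]
  have hcl : crossProduct l' l = -crossProduct l l' := by
    rw [← cross_anticomm]
  have hll : crossProduct l l = 0 := cross_self l
  have hll' : crossProduct l' l' = 0 := cross_self l'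
  have z1 : ¬ (l ⬝ᵥ q₁ = 0 ∧ l ⬝ᵥ q₂ = 0) := by
    rintro ⟨e1, e2⟩
    have := hne l hl0 e1 e2
    apply hq0
    rw [this]
    simp
  have z2 : ¬ (l' ⬝ᵥ q₁ = 0 ∧ l' ⬝ᵥ q₂ = 0) := by
    rintro ⟨e1, e2⟩
    have := hne l' hl'0 e1 e2
    apply hq0
    rw [this]
    simp
  have z3 : ¬ ((l - l') ⬝ᵥ q₁ = 0 ∧ (l - l') ⬝ᵥ q₂ = 0) := by
    rintro ⟨e1, e2⟩
    have := sub_eq_zero.1 (hne (l - l') hs0 e1 e2)
    apply hq0
    rw [this, hll']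
  have k1' : l ⬝ᵥ q₁ = 0 ∨ l' ⬝ᵥ q₁ = 0 ∨ (l - l') ⬝ᵥ q₁ = 0 := by
    rcases mul_eq_zero.1 k1 with h | h
    · rcases mul_eq_zero.1 h with h | h
      · exact Or.inl h
      · exact Or.inr (Or.inl h)
    · exact Or.inr (Or.inr h)
  have k2' : l ⬝ᵥ q₂ = 0 ∨ l' ⬝ᵥ q₂ = 0 ∨ (l - l') ⬝ᵥ q₂ = 0 := by
    rcases mul_eq_zero.1 k2 with h | h
    · rcases mul_eq_zero.1 h with h | h
      · exact Or.inl h
      · exact Or.inr (Or.inl h)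
    · exact Or.inr (Or.inr h)
  have hs0' : (l' - l) ⬝ᵥ crossProduct l l' = 0 := by rw [sub_dotProduct, hl0, hl'0, sub_zero]
  have hswap : ∀ v : Fin 3 → ℚ, (l - l') ⬝ᵥ v = 0 → (l' - l) ⬝ᵥ v = 0 := by
    intro v hv
    rw [← neg_sub l l', neg_dotProduct, hv, neg_zero]
  rcases k2' with e2 | e2 | e2 <;> rcases k1' with e1 | e1 | e1
  · exact absurd ⟨e1, e2⟩ z1
  · -- A = l, B = l'
    exact key 0 l l' 1 rfl (by norm_num) hl0 e2 hl'0 e1 (by rw [one_smul])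
      (fun v => by rw [sub_dotProduct, one_mul])
  · -- A = -l, B = l' - l
    refine key 2 (-l) (l' - l) (-1) rfl (by norm_num) (by rw [neg_dotProduct, hl0, neg_zero])
      (by rw [neg_dotProduct, e2, neg_zero]) hs0' (hswap _ e1) ?_ (fun v => ?_)
    · simp [hll]
    · simp only [sub_dotProduct, neg_dotProduct]
      ring
  · -- A = l', B = l
    refine key 1 l' l (-1) rfl (by norm_num) hl'0 e2 hl0 e1 ?_ (fun v => ?_)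
    · rw [hcl, neg_one_smul]
    · simp only [sub_dotProduct]
      ring
  · exact absurd ⟨e1, e2⟩ z2
  · -- A = -l', B = l - l'
    refine key 4 (-l') (l - l') 1 rfl (by norm_num) (by rw [neg_dotProduct, hl'0, neg_zero])
      (by rw [neg_dotProduct, e2, neg_zero]) hs0 e1 ?_ (fun v => ?_)
    · rw [map_neg, LinearMap.neg_apply, map_sub, hcl, hll', one_smul, sub_zero, neg_neg]
    · simp only [sub_dotProduct, neg_dotProduct]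
      ring
  · -- A = l' - l, B = -l
    refine key 3 (l' - l) (-l) 1 rfl (by norm_num) hs0' (hswap _ e2)
      (by rw [neg_dotProduct, hl0, neg_zero]) (by rw [neg_dotProduct, e1, neg_zero])
      ?_ (fun v => ?_)
    · rw [map_neg, map_sub, LinearMap.sub_apply, hcl, hll, one_smul, sub_zero, neg_neg]
    · simp only [sub_dotProduct, neg_dotProduct]
      ring
  · -- A = l - l', B = -l'
    refine key 5 (l - l') (-l') (-1) rfl (by norm_num) hs0 e2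
      (by rw [neg_dotProduct, hl'0, neg_zero]) (by rw [neg_dotProduct, e1, neg_zero])
      ?_ (fun v => ?_)
    · simp [hll']
    · simp only [sub_dotProduct, neg_dotProduct]
      ring
  · exact absurd ⟨e1, e2⟩ z3

theorem quartic_zero (l l' α : Fin 3 → Fin 3 → ℚ)
    (hα : ∀ i j, α i ⬝ᵥ (crossProduct (l j) (l' j)) = if i = j then 1 else 0)
    (h : ∀ v : Fin 3 → ℚ,
      ∑ i, (α i ⬝ᵥ v) * (l i ⬝ᵥ v) * (l' i ⬝ᵥ v) * ((l i - l' i) ⬝ᵥ v) = 0) :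
    ∃ k : Fin 3 → Fin 6,
      (fr (k 0) (l 0) (l' 0)).1 = (fr (k 2) (l 2) (l' 2)).2 ∧
      (fr (k 1) (l 1) (l' 1)).1 = (fr (k 0) (l 0) (l' 0)).2 ∧
      (fr (k 2) (l 2) (l' 2)).1 = (fr (k 1) (l 1) (l' 1)).2 := by
  set q : Fin 3 → Fin 3 → ℚ := fun j => crossProduct (l j) (l' j) with hq
  have hα' : ∀ i j, α i ⬝ᵥ q j = if i = j then 1 else 0 := hα
  have hl : ∀ j, l j ⬝ᵥ q j = 0 := fun j => dot_self_cross _ _
  have hl' : ∀ j, l' j ⬝ᵥ q j = 0 := fun j => dot_cross_self _ _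
  -- step 1
  have step1 : ∀ a b c : Fin 3, a ≠ b → c ≠ a → c ≠ b →
      (∀ f : Fin 3 → ℚ, ∑ i, f i = f a + f b + f c) →
      (l a ⬝ᵥ q b) * (l' a ⬝ᵥ q b) * ((l a - l' a) ⬝ᵥ q b) = 0 := by
    intro a b c hab hca hcb hsum
    have e : ∀ s t : ℚ, s * t ^ 3 * ((l a ⬝ᵥ q b) * (l' a ⬝ᵥ q b) * ((l a - l' a) ⬝ᵥ q b)) +
        t * s ^ 3 * ((l b ⬝ᵥ q a) * (l' b ⬝ᵥ q a) * ((l b - l' b) ⬝ᵥ q a)) = 0 := by
      intro s t
      have h1 := h (s • q a + t • q b)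
      rw [hsum] at h1
      simp only [dotProduct_add, dotProduct_smul, sub_dotProduct, hl, hl', hα', smul_eq_mul,
        if_true, if_neg hab, if_neg hab.symm, if_neg hca, if_neg hcb] at h1 ⊢
      linear_combination h1
    have e1 := e 1 1
    have e2 := e 1 2
    linarith
  have s3 : ∀ f : Fin 3 → ℚ, ∑ i, f i = f 0 + f 1 + f 2 := fun f => Fin.sum_univ_three f
  have k01 := step1 0 1 2 (by decide) (by decide) (by decide) (fun f => by rw [s3])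
  have k10 := step1 1 0 2 (by decide) (by decide) (by decide) (fun f => by rw [s3]; ring)
  have k02 := step1 0 2 1 (by decide) (by decide) (by decide) (fun f => by rw [s3]; ring)
  have k20 := step1 2 0 1 (by decide) (by decide) (by decide) (fun f => by rw [s3]; ring)
  have k12 := step1 1 2 0 (by decide) (by decide) (by decide) (fun f => by rw [s3]; ring)
  have k21 := step1 2 1 0 (by decide) (by decide) (by decide) (fun f => by rw [s3]; ring)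
  have a00 : α 0 ⬝ᵥ q 0 = 1 := by rw [hα']; rfl
  have a01 : α 0 ⬝ᵥ q 1 = 0 := by rw [hα']; rfl
  have a02 : α 0 ⬝ᵥ q 2 = 0 := by rw [hα']; rfl
  have a10 : α 1 ⬝ᵥ q 0 = 0 := by rw [hα']; rfl
  have a11 : α 1 ⬝ᵥ q 1 = 1 := by rw [hα']; rfl
  have a12 : α 1 ⬝ᵥ q 2 = 0 := by rw [hα']; rfl
  have a20 : α 2 ⬝ᵥ q 0 = 0 := by rw [hα']; rfl
  have a21 : α 2 ⬝ᵥ q 1 = 0 := by rw [hα']; rfl
  have a22 : α 2 ⬝ᵥ q 2 = 1 := by rw [hα']; rfl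
  obtain ⟨k₀, x₀, y₀, ε₀, p₀, A₀, B₀, d₀, v₀⟩ := one_index (α 0) (α 1) (α 2) (q 1) (q 2) (l 0) (l' 0)
    a00 a01 a02 a10 a11 a12 a20 a21 a22 k01 k02
  obtain ⟨k₁, x₁, y₁, ε₁, p₁, A₁, B₁, d₁, v₁⟩ := one_index (α 1) (α 2) (α 0) (q 2) (q 0) (l 1) (l' 1)
    a11 a12 a10 a21 a22 a20 a01 a02 a00 k12 k10
  obtain ⟨k₂, x₂, y₂, ε₂, p₂, A₂, B₂, d₂, v₂⟩ := one_index (α 2) (α 0) (α 1) (q 0) (q 1) (l 2) (l' 2)
    a22 a20 a21 a02 a00 a01 a12 a10 a11 k20 k21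
  set δ := α 0 ⬝ᵥ crossProduct (α 1) (α 2) with hδ
  have t1 : α 1 ⬝ᵥ crossProduct (α 2) (α 0) = δ := by
    rw [hδ, triple_product_permutation (α 0) (α 1) (α 2)]
  have t2 : α 2 ⬝ᵥ crossProduct (α 0) (α 1) = δ := by
    rw [← t1, triple_product_permutation (α 1) (α 2) (α 0)]
  rw [t1] at d₁
  rw [t2] at d₂
  have g : ∀ x y z : ℚ, x * y * z * ((x₀ - y₂) * y + (x₁ - y₀) * z + (x₂ - y₁) * x) = 0 := by
    intro x y z
    have h1 := h (x • q 0 + y • q 1 + z • q 2)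
    rw [s3] at h1
    set v := x • q 0 + y • q 1 + z • q 2 with hv
    have e0 : α 0 ⬝ᵥ v = x := by
      rw [hv]
      simp only [dotProduct_add, dotProduct_smul, a00, a01, a02, smul_eq_mul]
      ring
    have e1 : α 1 ⬝ᵥ v = y := by
      rw [hv]
      simp only [dotProduct_add, dotProduct_smul, a10, a11, a12, smul_eq_mul]
      ring
    have e2 : α 2 ⬝ᵥ v = z := by
      rw [hv]
      simp only [dotProduct_add, dotProduct_smul, a20, a21, a22, smul_eq_mul]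
      ring
    have w0 := v₀ v
    have w1 := v₁ v
    have w2 := v₂ v
    rw [e1, e2] at w0
    rw [e2, e0] at w1
    rw [e0, e1] at w2
    have h2 : x * (ε₀ * (x₀ * y₀) * (y * z * (x₀ * y - y₀ * z))) +
        y * (ε₁ * (x₁ * y₁) * (z * x * (x₁ * z - y₁ * x))) +
        z * (ε₂ * (x₂ * y₂) * (x * y * (x₂ * x - y₂ * y))) = 0 := by
      rw [w0, w1, w2]
      rw [e0, e1, e2] at h1
      linarith
    have c0 : ε₀ * (x₀ * y₀) * δ = 1 := by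
      calc ε₀ * (x₀ * y₀) * δ = ε₀ * (x₀ * y₀ * δ) := by ring
        _ = 1 := by rw [d₀, p₀]
    have c1 : ε₁ * (x₁ * y₁) * δ = 1 := by
      calc ε₁ * (x₁ * y₁) * δ = ε₁ * (x₁ * y₁ * δ) := by ring
        _ = 1 := by rw [d₁, p₁]
    have c2 : ε₂ * (x₂ * y₂) * δ = 1 := by
      calc ε₂ * (x₂ * y₂) * δ = ε₂ * (x₂ * y₂ * δ) := by ring
        _ = 1 := by rw [d₂, p₂]
    linear_combination δ * h2 - x * (y * z * (x₀ * y - y₀ * z)) * c0 -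
      y * (z * x * (x₁ * z - y₁ * x)) * c1 - z * (x * y * (x₂ * x - y₂ * y)) * c2
  have g1 := g 1 1 1
  have g2 := g 2 1 1
  have g3 := g 1 2 1
  have g4 := g 1 1 2
  have r1 : x₀ = y₂ := by linarith
  have r2 : x₁ = y₀ := by linarith
  have r3 : x₂ = y₁ := by linarith
  refine ⟨![k₀, k₁, k₂], ?_, ?_, ?_⟩
  · show (fr k₀ (l 0) (l' 0)).1 = (fr k₂ (l 2) (l' 2)).2
    rw [A₀, B₂, r1]
  · show (fr k₁ (l 1) (l' 1)).1 = (fr k₀ (l 0) (l' 0)).2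
    rw [A₁, B₀, r2]
  · show (fr k₂ (l 2) (l' 2)).1 = (fr k₁ (l 1) (l' 1)).2
    rw [A₂, B₁, r3]

end Pool.Agent.LThreeC
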