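import Pool.Agent.LThreeC.Defs

set_option autoImplicit false

/-! Package C10: roots of unity in a function field of small degree.

`root_bound`: take `∑_(k<=4) c_k(t) c^k = 0` from `Deg4 t`. Expand in powers of `t`:
`∑_j (∑_k c_(k,j) c^k) t^j = 0`; `c` is algebraic over `ℚ` and `t` is transcendental over `ℚ`, hence
over `ℚ(c)`, so all `∑_k c_(k,j) c^k = 0`, and one of these is a nonzero polynomial of degree `<= 4`
over `ℚ`: `deg_ℚ c <= 4`. `c` has finite order `m`, `c` is a primitive `m`-th root of unity and its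
minimal polynomial is `cyclotomic m`, so `φ(m) <= 4` and `m ∈ {1,2,3,4,5,6,8,10,12}` divides `120`
(`φ(m) <= 4` implies `m <= 12`: show that a prime power `p^a ∣ m` has `φ(p^a) <= 4`, or bound `m` by
`m <= 2 φ(m)^2` or similar, then `decide`). -/

namespace Pool.Agent.LThreeC

open Pool.Agent.LThree Polynomial

variable {F : Type} [Field F] [CharZero F]

private theorem dvd_120_of_totient_le {m : ℕ} (hm : 0 < m) (h : Nat.totient m ≤ 4) : m ∣ 120 := by
  rw [Nat.dvd_iff_prime_pow_dvd_dvd]
  intro p k hp hk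
  rcases k with _ | k
  · simp
  have h1 : Nat.totient (p ^ (k + 1)) ≤ 4 :=
    (Nat.le_of_dvd (Nat.totient_pos.2 hm) (Nat.totient_dvd_of_dvd hk)).trans h
  rw [Nat.totient_prime_pow_succ hp] at h1
  have hp2 := hp.two_le
  have h2 : 1 ≤ p ^ k := Nat.one_le_pow _ _ hp.pos
  have h3 : p ≤ 5 := by
    have : 1 * (p - 1) ≤ p ^ k * (p - 1) := Nat.mul_le_mul_right _ h2
    omega
  interval_cases p
  · have h4 : k ≤ 2 := by
      by_contra hcon
      have : 2 ^ 3 ≤ 2 ^ k := Nat.pow_le_pow_right (by norm_num) (by omega)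
      omega
    interval_cases k <;> decide
  · have h4 : k ≤ 0 := by
      by_contra hcon
      have : 3 ^ 1 ≤ 3 ^ k := Nat.pow_le_pow_right (by norm_num) (by omega)
      omega
    interval_cases k; decide
  · exact absurd hp (by decide)
  · have h4 : k ≤ 0 := by
      by_contra hcon
      have : 5 ^ 1 ≤ 5 ^ k := Nat.pow_le_pow_right (by norm_num) (by omega)
      omega
    interval_cases k; decide

private theorem exists_poly (t : F) (htr : Transcendental ℚ t) (hd : Deg4 t) (c : F)
    (A : IntermediateField ℚ F) [Algebra.IsAlgebraic ℚ A]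
    (hcA : c ∈ A) : ∃ Q : ℚ[X], Q ≠ 0 ∧ Q.natDegree ≤ 4 ∧ aeval c Q = 0 := by
  obtain ⟨p, hp, hsum⟩ := hd c
  let c' : A := ⟨c, hcA⟩
  have htA : Transcendental A t := by
    intro h
    exact htr (IsAlgebraic.restrictScalars ℚ h)
  let P : A[X] := ∑ k : Fin 5, (p k).map (algebraMap ℚ A) * C (c' ^ (k : ℕ))
  have hP : aeval t P = 0 := by
    rw [← hsum]
    simp only [P, map_sum, map_mul, aeval_C, aeval_map_algebraMap]
    rfl
  have hP0 : P = 0 := by
    by_contra hne
    exact htA ⟨P, hne, hP⟩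
  obtain ⟨k, hk⟩ := Function.ne_iff.1 hp
  obtain ⟨j, hj⟩ : ∃ j, (p k).coeff j ≠ 0 := by
    by_contra hcon
    push Not at hcon
    exact hk (Polynomial.ext (by simpa using hcon))
  refine ⟨∑ k : Fin 5, C ((p k).coeff j) * X ^ (k : ℕ), ?_, ?_, ?_⟩
  · intro h0
    have := congrArg (fun q : ℚ[X] => q.coeff (k : ℕ)) h0
    simp only [finsetSum_coeff, coeff_C_mul, coeff_X_pow, coeff_zero] at this
    rw [Finset.sum_eq_single k] at this
    · simp at this
      exact hj this
    · intro b _ hb
      rw [if_neg, mul_zero]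
      intro h
      exact hb (Fin.ext h.symm)
    · intro h; exact absurd (Finset.mem_univ _) h
  · refine natDegree_sum_le_of_forall_le _ _ fun k _ => ?_
    exact (natDegree_C_mul_X_pow_le _ _).trans (by omega)
  · have := congrArg (fun q : A[X] => ((q.coeff j : A) : F)) hP0
    simp only [P, finsetSum_coeff, coeff_mul_C, coeff_map, coeff_zero] at this
    simp only [map_sum, map_mul, aeval_C, map_pow, aeval_X]
    rw [← show ((0 : A) : F) = 0 from rfl, ← this]
    push_cast
    rfl

theorem root_bound (t : F) (htr : Transcendental ℚ t) (hd : Deg4 t) (c : F) (n : ℕ) (hn : 0 < n)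
    (hc : c ^ n = 1) : c ^ 120 = 1 := by
  have hfin : IsOfFinOrder c := isOfFinOrder_iff_pow_eq_one.2 ⟨n, hn, hc⟩
  have hm : 0 < orderOf c := hfin.orderOf_pos
  have hprim : IsPrimitiveRoot c (orderOf c) := IsPrimitiveRoot.orderOf c
  have halg : IsAlgebraic ℚ c := (hprim.isIntegral hm).tower_top.isAlgebraic
  have : Algebra.IsAlgebraic ℚ (algebraicClosure ℚ F) := algebraicClosure.isAlgebraic ℚ F
  obtain ⟨Q, hQ0, hQd, hQ⟩ := exists_poly t htr hd c (algebraicClosure ℚ F)
    (mem_algebraicClosure_iff.2 halg)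
  have h1 : (minpoly ℚ c).natDegree ≤ 4 :=
    (natDegree_le_of_dvd (minpoly.dvd ℚ c hQ) hQ0).trans hQd
  rw [← cyclotomic_eq_minpoly_rat hprim hm, natDegree_cyclotomic] at h1
  exact orderOf_dvd_iff_pow_eq_one.1 (dvd_120_of_totient_le hm h1)

end Pool.Agent.LThreeC
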