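import Pool.Agent.LThreeC.Defs

set_option autoImplicit false

/-! Package C11: a small relation modulo constants (Siegel's lemma).

PROOF. For a valuation `w` let `φ_w : ℤ^6 -> ℤ`, `φ_w m = ∑_s m_s w(z_s) = w (mono z m)`,
`z = co x`. (1) `φ_w` vanishes on every `m` with `mono z m` algebraic over `ℚ` (a nonzero algebraic
`c` has `w c = 0`: in `a_n c^n + .. + a_0 = 0` with `a_0, a_n ≠ 0` one term would have strictly
smallest value otherwise). Hence `φ_w ⟂ u_j`, and the `ℚ`-span of all vectors `(w(z_s))_s` in `ℚ^6`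
has dimension `<= 3`; choose `r <= 3` of them spanning it. (2) By Siegel's lemma
(`Int.Matrix.exists_ne_zero_int_vec_norm_le`) for the `r x 6` matrix with entries `|.| <= 4` there is
`m ≠ 0`, `|m|_∞ <= (6*4)^(r/(6-r)) <= 24`, killed by the chosen ones, hence by all `φ_w`. (If `r = 0`
take a unit vector.) If `mono z m` were transcendental, `hord` would give `w` with
`w (mono z m) ≠ 0`, contradiction. -/

namespace Pool.Agent.LThreeC

open Pool.Agent.LThree Polynomial

variable {F : Type} [Field F] [CharZero F]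

lemma IsOrd.one {w : F → ℤ} (h : IsOrd w) : w 1 = 0 := by
  have := h.rat 1 one_ne_zero
  simpa using this

lemma IsOrd.inv {w : F → ℤ} (h : IsOrd w) {a : F} (ha : a ≠ 0) : w a⁻¹ = -w a := by
  have h1 := h.mul a a⁻¹ ha (inv_ne_zero ha)
  rw [mul_inv_cancel₀ ha, h.one] at h1
  linarith

lemma IsOrd.pow {w : F → ℤ} (h : IsOrd w) {a : F} (ha : a ≠ 0) (n : ℕ) : w (a ^ n) = n * w a := by
  induction n with
  | zero => simp [h.one]
  | succ n ih =>
    rw [pow_succ, h.mul _ _ (pow_ne_zero n ha) ha, ih]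
    push_cast
    ring

lemma IsOrd.zpow {w : F → ℤ} (h : IsOrd w) {a : F} (ha : a ≠ 0) (n : ℤ) : w (a ^ n) = n * w a := by
  obtain ⟨k, rfl | rfl⟩ := n.eq_nat_or_neg
  · rw [zpow_natCast, h.pow ha]
  · rw [zpow_neg, zpow_natCast, h.inv (pow_ne_zero k ha), h.pow ha]
    ring

lemma IsOrd.prod {w : F → ℤ} (h : IsOrd w) {ι : Type} (s : Finset ι) (f : ι → F)
    (hf : ∀ i ∈ s, f i ≠ 0) : w (∏ i ∈ s, f i) = ∑ i ∈ s, w (f i) := by
  classical
  induction s using Finset.induction_on with
  | empty => simp [h.one]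
  | insert i s hi ih =>
    rw [Finset.prod_insert hi, Finset.sum_insert hi, h.mul, ih]
    · exact fun j hj => hf j (Finset.mem_insert_of_mem hj)
    · exact hf i (Finset.mem_insert_self i s)
    · exact Finset.prod_ne_zero_iff.2 fun j hj => hf j (Finset.mem_insert_of_mem hj)

lemma IsOrd.mono {w : F → ℤ} (h : IsOrd w) {ι : Type} [Fintype ι] (z : ι → F) (hz : ∀ s, z s ≠ 0)
    (m : ι → ℤ) : w (mono z m) = ∑ s, m s * w (z s) := by
  unfold Pool.Agent.LThree.mono
  rw [h.prod _ _ fun i _ => zpow_ne_zero _ (hz i)]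
  exact Finset.sum_congr rfl fun i _ => h.zpow (hz i) _

/-- polynomials in an integral element are integral -/
lemma IsOrd.aeval {w : F → ℤ} (h : IsOrd w) {c : F} (hc : c ≠ 0) (hw : 0 ≤ w c) (p : ℚ[X]) :
    aeval c p = 0 ∨ 0 ≤ w (aeval c p) := by
  induction p using Polynomial.induction_on' with
  | add p q hp hq =>
    rw [map_add]
    rcases hp with hp | hp
    · rw [hp, zero_add]
      exact hq
    · rcases hq with hq | hq
      · rw [hq, add_zero]
        exact Or.inr hp
      · by_cases hp0 : Polynomial.aeval c p = 0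
        · rw [hp0, zero_add]
          exact Or.inr hq
        by_cases hq0 : Polynomial.aeval c q = 0
        · rw [hq0, add_zero]
          exact Or.inr hp
        by_cases h0 : Polynomial.aeval c p + Polynomial.aeval c q = 0
        · exact Or.inl h0
        · right
          exact (le_min hp hq).trans (h.add _ _ hp0 hq0 h0)
  | monomial n a =>
    rw [aeval_monomial]
    by_cases ha : a = 0
    · left
      simp [ha]
    · right
      have h1 : algebraMap ℚ F a ≠ 0 := by simpa using ha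
      rw [h.mul _ _ h1 (pow_ne_zero n hc), h.pow hc]
      have h2 : w (algebraMap ℚ F a) = 0 := h.rat a ha
      rw [h2, zero_add]
      positivity

lemma IsOrd.algebraic_le {w : F → ℤ} (h : IsOrd w) {c : F} (hc : c ≠ 0) (halg : IsAlgebraic ℚ c) :
    w c ≤ 0 := by
  by_contra hcon
  push Not at hcon
  have hint : IsIntegral ℚ c := halg.isIntegral
  set p := minpoly ℚ c with hp
  have h0 : p.coeff 0 ≠ 0 := minpoly.coeff_zero_ne_zero hint hc
  have h1 : Polynomial.aeval c p = 0 := minpoly.aeval ℚ c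
  rw [← divX_mul_X_add p, map_add, map_mul, aeval_X, aeval_C] at h1
  have h2 : algebraMap ℚ F (p.coeff 0) ≠ 0 := by simpa using h0
  have h3 : Polynomial.aeval c p.divX * c = algebraMap ℚ F (-p.coeff 0) := by
    rw [map_neg]
    exact eq_neg_of_add_eq_zero_left h1
  have h4 : w (algebraMap ℚ F (-p.coeff 0)) = 0 := h.rat _ (neg_ne_zero.2 h0)
  rcases h.aeval hc hcon.le p.divX with h5 | h5
  · rw [h5, zero_mul, map_neg] at h3
    exact h2 (neg_eq_zero.1 h3.symm)
  · have h6 : Polynomial.aeval c p.divX ≠ 0 := by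
      intro h6
      rw [h6, zero_mul, map_neg] at h3
      exact h2 (neg_eq_zero.1 h3.symm)
    rw [← h3, h.mul _ _ h6 hc] at h4
    linarith

lemma IsOrd.algebraic {w : F → ℤ} (h : IsOrd w) {c : F} (hc : c ≠ 0) (halg : IsAlgebraic ℚ c) :
    w c = 0 := by
  have h1 := h.algebraic_le hc halg
  have h2 := h.algebraic_le (inv_ne_zero hc) halg.inv
  rw [h.inv hc] at h2
  linarith

attribute [local instance] Matrix.seminormedAddCommGroup in
theorem small_rel (z : Fin 3 ⊕ Fin 3 → F) (hz : ∀ s, z s ≠ 0)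
    (hord : ∀ f : F, Transcendental ℚ f → ∃ w : F → ℤ, IsOrd w ∧ w f ≠ 0)
    (hb : ∀ w : F → ℤ, IsOrd w → ∀ s, |w (z s)| ≤ 4)
    (u : Fin 3 → (Fin 3 ⊕ Fin 3 → ℤ)) (hu : LinearIndependent ℤ u)
    (hrel : ∀ j, IsAlgebraic ℚ (mono z (u j))) :
    ∃ m : Fin 3 ⊕ Fin 3 → ℤ, m ≠ 0 ∧ nrm m ≤ 24 ∧ IsAlgebraic ℚ (mono z m) := by
  classical
  have hmono : ∀ m : Fin 3 ⊕ Fin 3 → ℤ, mono z m ≠ 0 := fun m => by
    unfold Pool.Agent.LThree.mono
    exact Finset.prod_ne_zero_iff.2 fun i _ => zpow_ne_zero _ (hz i)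
  -- the vectors of values
  set S : Set (Fin 3 ⊕ Fin 3 → ℚ) := {v | ∃ w : F → ℤ, IsOrd w ∧ v = fun s => (w (z s) : ℚ)} with hS
  set A : Matrix (Fin 3) (Fin 3 ⊕ Fin 3) ℚ := fun j s => (u j s : ℚ) with hA
  have hAli : LinearIndependent ℚ A.row :=
    (linearIndependent_algebraMap_comp_iff (R := ℤ) (S := ℚ) (v := u)).2 hu
  -- the span has dimension at most three
  have hker : ∀ v ∈ S, A.mulVec v = 0 := by
    rintro v ⟨w, hw, rfl⟩
    funext j
    have h1 := hw.mono z hz (u j)
    rw [hw.algebraic (hmono (u j)) (hrel j)] at h1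
    simp only [Matrix.mulVec, dotProduct, hA, Pi.zero_apply]
    exact_mod_cast h1.symm
  have hle : Submodule.span ℚ S ≤ LinearMap.ker A.mulVecLin := by
    rw [Submodule.span_le]
    intro v hv
    rw [SetLike.mem_coe, LinearMap.mem_ker, Matrix.mulVecLin_apply]
    exact hker v hv
  have hfin : Module.finrank ℚ (Submodule.span ℚ S) ≤ 3 := by
    refine (Submodule.finrank_mono hle).trans ?_
    have h1 := A.mulVecLin.finrank_range_add_finrank_ker
    have h2 : Module.finrank ℚ (LinearMap.range A.mulVecLin) = 3 := by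
      have h3 : A.rank = Fintype.card (Fin 3) := hAli.rank_matrix
      rw [Fintype.card_fin] at h3
      exact h3
    rw [h2, Module.finrank_fintype_fun_eq_card] at h1
    simp only [Fintype.card_sum, Fintype.card_fin] at h1
    omega
  obtain ⟨b, hbS, hspan, hbli⟩ := exists_linearIndependent ℚ S
  have hbfin : b.Finite := hbli.setFinite
  have : Fintype b := hbfin.fintype
  have hcard : Fintype.card b ≤ 3 := by
    have h1 := finrank_span_set_eq_card hbli
    rw [hspan, Set.toFinset_card] at h1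
    rw [← h1]
    exact hfin
  obtain ⟨e⟩ : Nonempty (b ↪ Fin 3) :=
    Function.Embedding.nonempty_of_card_le (by rw [Fintype.card_fin]; exact hcard)
  -- integer vectors
  have hint : ∀ i : Fin 3, ∃ f : Fin 3 ⊕ Fin 3 → ℤ, (∀ s, |f s| ≤ 4) ∧
      ∀ x : b, e x = i → (x : Fin 3 ⊕ Fin 3 → ℚ) = fun s => (f s : ℚ) := by
    intro i
    by_cases h : ∃ x : b, e x = i
    · obtain ⟨x, hx⟩ := h
      obtain ⟨w, hw, hwx⟩ := hbS x.2
      refine ⟨fun s => w (z s), fun s => hb w hw s, fun y hy => ?_⟩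
      rw [e.injective (hy.trans hx.symm), hwx]
    · exact ⟨0, fun s => by simp, fun x hx => absurd ⟨x, hx⟩ h⟩
  choose f hf4 hf using hint
  obtain ⟨t, ht0, htA, htn⟩ := Int.Matrix.exists_ne_zero_int_vec_norm_le
    (Matrix.of f) (by simp) (by simp)
  have hnorm : ∀ s, |t s| ≤ 24 := by
    have h1 : ‖Matrix.of f‖ ≤ 4 := by
      rw [Matrix.norm_le_iff (by norm_num)]
      intro i j
      rw [Matrix.of_apply, Int.norm_eq_abs]
      exact_mod_cast hf4 i j
    have h2 : ‖t‖ ≤ 24 := by
      refine htn.trans ?_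
      have h3 : ((Fintype.card (Fin 3) : ℝ) / ((Fintype.card (Fin 3 ⊕ Fin 3) : ℝ) -
          (Fintype.card (Fin 3) : ℝ))) = 1 := by
        simp only [Fintype.card_sum, Fintype.card_fin]
        norm_num
      rw [h3, Real.rpow_one]
      simp only [Fintype.card_sum, Fintype.card_fin]
      have h4 : max 1 ‖Matrix.of f‖ ≤ 4 := max_le (by norm_num) h1
      push_cast
      linarith
    intro s
    have h3 := (norm_le_pi_norm t s).trans h2
    rw [Int.norm_eq_abs] at h3
    exact_mod_cast h3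
  refine ⟨t, ht0, ?_, ?_⟩
  · unfold nrm
    apply Finset.sup_le
    intro s _
    have h5 := hnorm s
    rw [Int.abs_eq_natAbs] at h5
    exact_mod_cast h5
  · by_contra htr
    obtain ⟨w, hw, hwne⟩ := hord _ htr
    apply hwne
    rw [hw.mono z hz]
    -- the functional vanishes on the span
    set L : (Fin 3 ⊕ Fin 3 → ℚ) →ₗ[ℚ] ℚ := ∑ s, (t s : ℚ) • LinearMap.proj s with hL
    have hLapp : ∀ v : Fin 3 ⊕ Fin 3 → ℚ, L v = ∑ s, (t s : ℚ) * v s := by
      intro v
      simp [hL, LinearMap.sum_apply]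
    have h1 : Submodule.span ℚ b ≤ LinearMap.ker L := by
      rw [Submodule.span_le]
      intro v hv
      rw [SetLike.mem_coe, LinearMap.mem_ker, hLapp]
      have h2 := hf (e ⟨v, hv⟩) ⟨v, hv⟩ rfl
      simp only at h2
      rw [h2]
      have h3 := congrFun htA (e ⟨v, hv⟩)
      simp only [Matrix.mulVec, dotProduct, Matrix.of_apply, Pi.zero_apply] at h3
      have h4 : ∑ s, t s * f (e ⟨v, hv⟩) s = 0 := by
        rw [← h3]
        exact Finset.sum_congr rfl fun s _ => mul_comm _ _
      change ∑ s, (t s : ℚ) * ((f (e ⟨v, hv⟩) s : ℤ) : ℚ) = 0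
      exact_mod_cast h4
    have h2 : (fun s => (w (z s) : ℚ)) ∈ Submodule.span ℚ b := by
      rw [hspan]
      exact Submodule.subset_span ⟨w, hw, rfl⟩
    have h3 := h1 h2
    rw [LinearMap.mem_ker, hLapp] at h3
    exact_mod_cast h3

end Pool.Agent.LThreeC
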