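import Pool.Agent.LThreeC.LogD
import Pool.Agent.LThreeC.Pair

set_option autoImplicit false

/-! Package C18: the triple of logarithmic derivatives.

`pairwise_cross`: `l i × l' i ≠ 0` by `LD_indep`. If `q_i × q_j = 0` (both `q ≠ 0`), then `l j, l' j`
lie in the `ℚ`-span of `l i, l' i` (the plane orthogonal to `q_i`), so the logarithmic derivatives of
`x j, 1 - x j` are rational combinations of those of `x i, 1 - x i`, and `pair_eqv` gives
`Eqv (x i) (x j)`. -/

namespace Pool.Agent.LThreeC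

open Pool.Agent.LThree

variable {F : Type} [Field F] [CharZero F]

private theorem ev_comb (a b : ℚ) (u v : Fin 3 → ℚ) (G : Fin 3 → F) :
    ev (fun k => a * u k + b * v k) G = (a : F) * ev u G + (b : F) * ev v G := by
  unfold ev
  simp only [Fin.sum_univ_three]
  push_cast
  ring

/-- A vector which is orthogonal to `u × v ≠ 0` is a combination of `u` and `v`. -/
private theorem comb_of_orth (u v w q : Fin 3 → ℚ) (hq : q = crossProduct u v) (hq0 : q ≠ 0)
    (h : w 0 * q 0 + w 1 * q 1 + w 2 * q 2 = 0) :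
    ∃ a b : ℚ, w = fun k => a * u k + b * v k := by
  have h0 : q 0 = u 1 * v 2 - u 2 * v 1 := by rw [hq, cross_apply]; rfl
  have h1 : q 1 = u 2 * v 0 - u 0 * v 2 := by rw [hq, cross_apply]; rfl
  have h2 : q 2 = u 0 * v 1 - u 1 * v 0 := by rw [hq, cross_apply]; rfl
  have hn : q 0 ^ 2 + q 1 ^ 2 + q 2 ^ 2 ≠ 0 := by
    intro hz
    apply hq0
    have e0 : q 0 = 0 := by nlinarith [sq_nonneg (q 0), sq_nonneg (q 1), sq_nonneg (q 2)]
    have e1 : q 1 = 0 := by nlinarith [sq_nonneg (q 0), sq_nonneg (q 1), sq_nonneg (q 2)]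
    have e2 : q 2 = 0 := by nlinarith [sq_nonneg (q 0), sq_nonneg (q 1), sq_nonneg (q 2)]
    funext k
    fin_cases k
    · exact e0
    · exact e1
    · exact e2
  set n := q 0 ^ 2 + q 1 ^ 2 + q 2 ^ 2 with hnd
  set uw := u 0 * w 0 + u 1 * w 1 + u 2 * w 2 with huw
  set vw := v 0 * w 0 + v 1 * w 1 + v 2 * w 2 with hvw
  set uv := u 0 * v 0 + u 1 * v 1 + u 2 * v 2 with huv
  set uu := u 0 * u 0 + u 1 * u 1 + u 2 * u 2 with huu
  set vv := v 0 * v 0 + v 1 * v 1 + v 2 * v 2 with hvv
  refine ⟨(uw * vv - vw * uv) / n, (vw * uu - uw * uv) / n, ?_⟩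
  have key : ∀ k : Fin 3, w k * n = (uw * vv - vw * uv) * u k + (vw * uu - uw * uv) * v k := by
    intro k
    fin_cases k
    · show w 0 * n = (uw * vv - vw * uv) * u 0 + (vw * uu - uw * uv) * v 0
      rw [hnd, huw, hvv, hvw, huv, huu, h0, h1, h2]
      rw [h0, h1, h2] at h
      linear_combination (u 1 * v 2 - u 2 * v 1) * h
    · show w 1 * n = (uw * vv - vw * uv) * u 1 + (vw * uu - uw * uv) * v 1
      rw [hnd, huw, hvv, hvw, huv, huu, h0, h1, h2]
      rw [h0, h1, h2] at h
      linear_combination (u 2 * v 0 - u 0 * v 2) * h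
    · show w 2 * n = (uw * vv - vw * uv) * u 2 + (vw * uu - uw * uv) * v 2
      rw [hnd, huw, hvv, hvw, huv, huu, h0, h1, h2]
      rw [h0, h1, h2] at h
      linear_combination (u 0 * v 1 - u 1 * v 0) * h
  funext k
  have := key k
  field_simp
  linarith

/-- Parallel vectors. -/
private theorem par_of_cross (q r : Fin 3 → ℚ) (hr0 : r ≠ 0) (h : crossProduct q r = 0) :
    ∃ c : ℚ, q = fun k => c * r k := by
  have h0 : q 1 * r 2 - q 2 * r 1 = 0 := by
    have := congrFun h 0
    rw [cross_apply] at this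
    exact this
  have h1 : q 2 * r 0 - q 0 * r 2 = 0 := by
    have := congrFun h 1
    rw [cross_apply] at this
    exact this
  have h2 : q 0 * r 1 - q 1 * r 0 = 0 := by
    have := congrFun h 2
    rw [cross_apply] at this
    exact this
  have hex : r 0 ≠ 0 ∨ r 1 ≠ 0 ∨ r 2 ≠ 0 := by
    by_contra hcon
    push Not at hcon
    apply hr0
    funext k
    fin_cases k
    · exact hcon.1
    · exact hcon.2.1
    · exact hcon.2.2
  rcases hex with hr | hr | hr
  · refine ⟨q 0 / r 0, funext fun k => ?_⟩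
    fin_cases k
    · show q 0 = q 0 / r 0 * r 0
      field_simp
    · show q 1 = q 0 / r 0 * r 1
      field_simp
      linarith
    · show q 2 = q 0 / r 0 * r 2
      field_simp
      linarith
  · refine ⟨q 1 / r 1, funext fun k => ?_⟩
    fin_cases k
    · show q 0 = q 1 / r 1 * r 0
      field_simp
      linarith
    · show q 1 = q 1 / r 1 * r 1
      field_simp
    · show q 2 = q 1 / r 1 * r 2
      field_simp
      linarith
  · refine ⟨q 2 / r 2, funext fun k => ?_⟩
    fin_cases k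
    · show q 0 = q 2 / r 2 * r 0
      field_simp
      linarith
    · show q 1 = q 2 / r 2 * r 1
      field_simp
      linarith
    · show q 2 = q 2 / r 2 * r 2
      field_simp

theorem pairwise_cross (D : Derivation ℚ F F) (x : Fin 3 → F) (h0 : ∀ i, x i ≠ 0)
    (h1 : ∀ i, x i ≠ 1) (htr : ∀ i, Transcendental ℚ (x i)) (hDx : ∀ i, D (x i) ≠ 0)
    (G : Fin 3 → F) (l l' : Fin 3 → Fin 3 → ℚ) (hl : ∀ i, LD D (x i) = ev (l i) G)
    (hl' : ∀ i, LD D (1 - x i) = ev (l' i) G) :
    (∀ i, crossProduct (l i) (l' i) ≠ 0) ∧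
      ∀ i j, crossProduct (crossProduct (l i) (l' i)) (crossProduct (l j) (l' j)) = 0 →
        Eqv (x i) (x j) := by
  have hne : ∀ i, crossProduct (l i) (l' i) ≠ 0 := by
    intro i hi
    by_cases hz : l' i = 0
    · have h2 : LD D (1 - x i) = 0 := by
        rw [hl' i, hz]
        simp [ev]
      have h3 := (LD_indep D (x i) (h0 i) (h1 i) (hDx i) (htr i) 0 1
        (by rw [h2]; simp)).2
      exact one_ne_zero h3
    · obtain ⟨c, hc⟩ := par_of_cross (l i) (l' i) hz hi
      have h2 : LD D (x i) = (c : F) * LD D (1 - x i) := by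
        rw [hl i, hl' i, hc]
        unfold ev
        simp only [Fin.sum_univ_three]
        push_cast
        ring
      have h3 := (LD_indep D (x i) (h0 i) (h1 i) (hDx i) (htr i) 1 (-c)
        (by rw [h2]; push_cast; ring)).1
      exact one_ne_zero h3
  refine ⟨hne, fun i j hij => ?_⟩
  have hij' : crossProduct (crossProduct (l j) (l' j)) (crossProduct (l i) (l' i)) = 0 := by
    rw [← cross_anticomm, hij, neg_zero]
  -- `q i = c q j`
  obtain ⟨c, hc⟩ := par_of_cross _ _ (hne j) hij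
  have horth : ∀ w : Fin 3 → ℚ, (w = l j ∨ w = l' j) →
      w 0 * crossProduct (l i) (l' i) 0 + w 1 * crossProduct (l i) (l' i) 1 +
        w 2 * crossProduct (l i) (l' i) 2 = 0 := by
    intro w hw
    have e0 : crossProduct (l j) (l' j) 0 = l j 1 * l' j 2 - l j 2 * l' j 1 := by
      rw [cross_apply]; rfl
    have e1 : crossProduct (l j) (l' j) 1 = l j 2 * l' j 0 - l j 0 * l' j 2 := by
      rw [cross_apply]; rfl
    have e2 : crossProduct (l j) (l' j) 2 = l j 0 * l' j 1 - l j 1 * l' j 0 := by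
      rw [cross_apply]; rfl
    rw [hc]
    show w 0 * (c * crossProduct (l j) (l' j) 0) + w 1 * (c * crossProduct (l j) (l' j) 1) +
        w 2 * (c * crossProduct (l j) (l' j) 2) = 0
    rw [e0, e1, e2]
    rcases hw with rfl | rfl <;> ring
  obtain ⟨a, b, hab⟩ := comb_of_orth (l i) (l' i) (l j) _ rfl (hne i) (horth _ (Or.inl rfl))
  obtain ⟨a', b', hab'⟩ := comb_of_orth (l i) (l' i) (l' j) _ rfl (hne i) (horth _ (Or.inr rfl))
  refine pair_eqv D (x i) (x j) (h0 i) (h1 i) (h0 j) (h1 j) (htr i) (hDx i) (hDx j) a b a' b'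
    ?_ ?_
  · rw [hl j, hab, ev_comb, hl i, hl' i]
  · rw [hl' j, hab', ev_comb, hl i, hl' i]

/-- A spanning triple for the six logarithmic derivatives, from three independent relations.
PROOF. The map `ℚ^6 -> F`, `c |-> ∑ c_s LD (co x s)` kills the three independent `u j`
(`mono_alg_iff`), so its image has dimension `<= 3`; take `G` spanning the image. -/
theorem exists_triple (D : Derivation ℚ F F) (z : Fin 3 ⊕ Fin 3 → F)
    (u : Fin 3 → (Fin 3 ⊕ Fin 3 → ℤ)) (hu : LinearIndependent ℤ u)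
    (hrel : ∀ j, ∑ s, (u j s : F) * LD D (z s) = 0) :
    ∃ (G : Fin 3 → F) (c : Fin 3 ⊕ Fin 3 → Fin 3 → ℚ), ∀ s, LD D (z s) = ev (c s) G := by
  classical
  have hsm : ∀ (q : ℚ) (g : F), q • g = (q : F) * g := fun q g => by
    rw [Algebra.smul_def, eq_ratCast]
  -- the map `c ↦ ∑ c_s LD (z s)`
  set φ : ((Fin 3 ⊕ Fin 3) → ℚ) →ₗ[ℚ] F :=
    Fintype.linearCombination ℚ (fun s => LD D (z s)) with hφ
  have hφa : ∀ c, φ c = ∑ s, (c s : F) * LD D (z s) := by
    intro c
    rw [hφ, Fintype.linearCombination_apply]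
    exact Finset.sum_congr rfl fun s _ => hsm _ _
  -- the relations over `ℚ`
  have hu1 : LinearIndependent ℤ fun (j : Fin 3) (s : Fin 3 ⊕ Fin 3) => ((u j s : ℤ) : ℚ) := by
    have hinj : LinearMap.ker (LinearMap.compLeft (Int.castAddHom ℚ).toIntLinearMap
        (Fin 3 ⊕ Fin 3)) = ⊥ := by
      rw [LinearMap.ker_eq_bot]
      intro a b hab
      funext s
      have := congrFun hab s
      simpa using this
    exact hu.map' _ hinj
  have hu2 : LinearIndependent ℚ fun (j : Fin 3) (s : Fin 3 ⊕ Fin 3) => ((u j s : ℤ) : ℚ) :=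
    (LinearIndependent.iff_fractionRing ℤ ℚ).1 hu1
  have hmem : ∀ j : Fin 3, (fun s => ((u j s : ℤ) : ℚ)) ∈ LinearMap.ker φ := by
    intro j
    rw [LinearMap.mem_ker, hφa, ← hrel j]
    refine Finset.sum_congr rfl fun s _ => ?_
    push_cast
    rfl
  have hker : 3 ≤ Module.finrank ℚ (LinearMap.ker φ) := by
    have hli : LinearIndependent ℚ fun j : Fin 3 =>
        (⟨fun s => ((u j s : ℤ) : ℚ), hmem j⟩ : LinearMap.ker φ) := by
      refine LinearIndependent.of_comp (LinearMap.ker φ).subtype ?_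
      exact hu2
    have := hli.fintype_card_le_finrank
    simpa using this
  have hrn := LinearMap.finrank_range_add_finrank_ker φ
  have hV : Module.finrank ℚ ((Fin 3 ⊕ Fin 3) → ℚ) = 6 := by simp
  rw [hV] at hrn
  have hr : Module.finrank ℚ (LinearMap.range φ) ≤ 3 := by omega
  let b := Module.finBasis ℚ (LinearMap.range φ)
  let ψ : (Fin 3 → ℚ) →ₗ[ℚ] LinearMap.range φ :=
    b.equivFun.symm.toLinearMap ∘ₗ LinearMap.funLeft ℚ ℚ (Fin.castLE hr)
  have hψ : Function.Surjective ψ := by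
    intro w
    obtain ⟨y, hy⟩ := b.equivFun.symm.surjective w
    obtain ⟨t, ht⟩ := LinearMap.funLeft_surjective_of_injective ℚ ℚ (Fin.castLE hr)
      (Fin.castLE_injective hr) y
    refine ⟨t, ?_⟩
    show b.equivFun.symm (LinearMap.funLeft ℚ ℚ (Fin.castLE hr) t) = w
    rw [ht, hy]
  have hin : ∀ s, ∃ c : Fin 3 → ℚ, ψ c = ⟨φ (Pi.single s 1), LinearMap.mem_range_self _ _⟩ :=
    fun s => hψ _
  choose c hc using hin
  refine ⟨fun i => (ψ (fun j => if i = j then 1 else 0) : F), c, fun s => ?_⟩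
  have h1 : φ (Pi.single s 1) = LD D (z s) := by
    rw [hφa, Finset.sum_eq_single s]
    · simp
    · intro t _ hts
      simp [Pi.single_eq_of_ne hts]
    · intro hs
      exact absurd (Finset.mem_univ s) hs
  rw [← h1]
  have h2 : (ψ (c s) : F) = φ (Pi.single s 1) := congrArg Subtype.val (hc s)
  rw [← h2, LinearMap.pi_apply_eq_sum_univ ψ (c s)]
  unfold ev
  push_cast
  exact Finset.sum_congr rfl fun i _ => hsm _ _

end Pool.Agent.LThreeC
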