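import Pool.Agent.LThreeC.Tors
import Pool.Agent.LThreeC.Triple
import Pool.Agent.LThreeC.Forms
import Pool.Agent.LThreeC.PolyForms
import Pool.Agent.LThreeC.QZero
import Pool.Agent.LThreeC.CubicNe
import Pool.Agent.LThreeC.Degree
import Pool.Agent.LThreeC.Ord
import Pool.Agent.LThreeC.OrdBound
import Pool.Agent.LThreeC.RootBound
import Pool.Agent.LThreeC.Sixth
import Pool.Agent.LThreeC.SmallRel
import Pool.Agent.LThreeC.SymRel

set_option autoImplicit false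

/-! Three transcendental coordinates in transcendence degree one (assembly). -/

namespace Pool.Agent.LThreeC

open Pool.Agent.LThree IntermediateField

variable {F : Type} [Field F] [CharZero F]

theorem co_ne {ι : Type} (x : ι → F) (h0 : ∀ i, x i ≠ 0) (h1 : ∀ i, x i ≠ 1) (s : ι ⊕ ι) :
    co x s ≠ 0 := by
  rcases s with i | i
  · exact h0 i
  · exact sub_ne_zero.2 (h1 i).symm

/-- The endgame. -/
theorem small_of_deg4 (x : Fin 3 → F) (h0 : ∀ i, x i ≠ 0) (h1 : ∀ i, x i ≠ 1)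
    (htr : ∀ i, Transcendental ℚ (x i)) (hgen : adjoin ℚ (Set.range x) = ⊤)
    (halg : Algebra.IsAlgebraic (adjoin ℚ {x 0}) F) (hne : ¬ Eqv (x 0) (x 1))
    (u : Fin 3 → (Fin 3 ⊕ Fin 3 → ℤ)) (hu : LinearIndependent ℤ u)
    (hrel : ∀ j, mono (co x) (u j) = 1) (hdeg : ∀ i, Deg4 (x i)) : Small 2880 x := by
  obtain ⟨m, hm0, hm, ha⟩ := small_rel (co x) (co_ne x h0 h1)
    (fun f hf => exists_ord x hgen (x 0) halg f hf)
    (fun w hw s => by
      rcases s with i | i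
      · exact (ord_bound w hw (x i) (htr i) (hdeg i)).1
      · exact (ord_bound w hw (x i) (htr i) (hdeg i)).2) u hu
    (fun j => by rw [hrel j]; exact isAlgebraic_one)
  obtain ⟨n, hn, hmn⟩ := tors x h0 h1 htr hne u hu hrel m ha
  have h120 := root_bound (x 0) (htr 0) (hdeg 0) _ n hn hmn
  exact small_mono (by norm_num) x (small_of_pow x m hm0 24 120 (by norm_num) hm h120)

theorem sy_transc (x : F) (h0 : x ≠ 0) (h1 : x ≠ 1) (hx : Transcendental ℚ x) (k : Fin 6) :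
    Transcendental ℚ (sy k x) := by
  intro h
  apply hx
  have h1' : (1 : F) - x ≠ 0 := sub_ne_zero.2 h1.symm
  have h1'' : x - 1 ≠ 0 := sub_ne_zero.2 h1
  fin_cases k
  · exact h
  · have : x = 1 - (1 - x) := by ring
    rw [this]; exact isAlgebraic_one.sub h
  · have h' : IsAlgebraic ℚ x⁻¹ := h
    have : x = (x⁻¹)⁻¹ := by simp
    rw [this]; exact h'.inv
  · have h' : IsAlgebraic ℚ ((x - 1) / x) := h
    have : x = (1 - (x - 1) / x)⁻¹ := by field_simp; ring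
    rw [this]; exact (isAlgebraic_one.sub h').inv
  · have h' : IsAlgebraic ℚ ((1 - x)⁻¹) := h
    have : x = 1 - ((1 - x)⁻¹)⁻¹ := by simp
    rw [this]; exact isAlgebraic_one.sub h'.inv
  · have h' : IsAlgebraic ℚ (x / (x - 1)) := h
    have : x = 1 - (1 - x / (x - 1))⁻¹ := by field_simp; ring
    rw [this]; exact isAlgebraic_one.sub (isAlgebraic_one.sub h').inv

/-- Equal logarithmic derivatives: the quotient is algebraic. -/
theorem alg_of_LD_eq (D : Derivation ℚ F F) (hD : ∀ f, D f = 0 ↔ IsAlgebraic ℚ f) (a b : F)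
    (ha : a ≠ 0) (hb : b ≠ 0) (h : LD D a = LD D b) : IsAlgebraic ℚ (a / b) := by
  rw [← hD, Derivation.leibniz_div]
  unfold LD at h
  have : b * D a - a * D b = 0 := by
    field_simp at h
    linear_combination h
  simp [this, smul_eq_mul]

/-- The symmetric case. -/
theorem small_of_frames (D : Derivation ℚ F F) (hD : ∀ f, D f = 0 ↔ IsAlgebraic ℚ f)
    (x : Fin 3 → F) (h0 : ∀ i, x i ≠ 0) (h1 : ∀ i, x i ≠ 1)
    (htr : ∀ i, Transcendental ℚ (x i)) (hne : ¬ Eqv (x 0) (x 1))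
    (u : Fin 3 → (Fin 3 ⊕ Fin 3 → ℤ)) (hu : LinearIndependent ℤ u)
    (hrel : ∀ j, mono (co x) (u j) = 1) (G : Fin 3 → F) (l l' : Fin 3 → Fin 3 → ℚ)
    (hl : ∀ i, LD D (x i) = ev (l i) G) (hl' : ∀ i, LD D (1 - x i) = ev (l' i) G)
    (k : Fin 3 → Fin 6)
    (hk0 : (fr (k 0) (l 0) (l' 0)).1 = (fr (k 2) (l 2) (l' 2)).2)
    (hk1 : (fr (k 1) (l 1) (l' 1)).1 = (fr (k 0) (l 0) (l' 0)).2)
    (hk2 : (fr (k 2) (l 2) (l' 2)).1 = (fr (k 1) (l 1) (l' 1)).2) : Small 6 x := by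
  have hs : ∀ i, sy (k i) (x i) ≠ 0 ∧ sy (k i) (x i) ≠ 1 ∧
      LD D (sy (k i) (x i)) = ev (fr (k i) (l i) (l' i)).1 G ∧
      LD D (1 - sy (k i) (x i)) = ev (fr (k i) (l i) (l' i)).2 G := fun i =>
    LD_sy D (x i) (h0 i) (h1 i) G (l i) (l' i) (hl i) (hl' i) (k i)
  have hs1 : ∀ i, 1 - sy (k i) (x i) ≠ 0 := fun i => sub_ne_zero.2 (hs i).2.1.symm
  have ht := tors x h0 h1 htr hne u hu hrel
  have c0 : IsAlgebraic ℚ (sy (k 0) (x 0) / (1 - sy (k 2) (x 2))) :=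
    alg_of_LD_eq D hD _ _ (hs 0).1 (hs1 2) (by rw [(hs 0).2.2.1, (hs 2).2.2.2, hk0])
  have c1 : IsAlgebraic ℚ (sy (k 1) (x 1) / (1 - sy (k 0) (x 0))) :=
    alg_of_LD_eq D hD _ _ (hs 1).1 (hs1 0) (by rw [(hs 1).2.2.1, (hs 0).2.2.2, hk1])
  have c2 : IsAlgebraic ℚ (sy (k 2) (x 2) / (1 - sy (k 1) (x 1))) :=
    alg_of_LD_eq D hD _ _ (hs 2).1 (hs1 1) (by rw [(hs 2).2.2.1, (hs 1).2.2.2, hk2])
  obtain ⟨n0, hn0, e0⟩ := tors_of_sy x h0 h1 ht 2 0 (k 2) (k 0) c0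
  obtain ⟨n1, hn1, e1⟩ := tors_of_sy x h0 h1 ht 0 1 (k 0) (k 1) c1
  obtain ⟨n2, hn2, e2⟩ := tors_of_sy x h0 h1 ht 1 2 (k 1) (k 2) c2
  apply small_of_sy x h0 h1 0 1 (by decide) (k 0) (k 1)
  refine sym_case (sy (k 0) (x 0)) (sy (k 1) (x 1)) (sy (k 2) (x 2)) _
    (sy (k 2) (x 2) / (1 - sy (k 1) (x 1))) (sy (k 0) (x 0) / (1 - sy (k 2) (x 2)))
    (sy_transc _ (h0 0) (h1 0) (htr 0) _) (n0 * n1 * n2) (by positivity) ?_ ?_ ?_ ?_ ?_ ?_
  · rw [mul_comm n0 n1, mul_assoc, pow_mul, e1, one_pow]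
  · rw [mul_comm, pow_mul, e2, one_pow]
  · rw [mul_assoc, pow_mul, e0, one_pow]
  · rw [div_mul_cancel₀ _ (hs1 0)]
  · rw [div_mul_cancel₀ _ (hs1 1)]
  · rw [div_mul_cancel₀ _ (hs1 2)]

/-- **Three transcendental coordinates in transcendence degree one.** -/
theorem caseC (x : Fin 3 → F) (h0 : ∀ i, x i ≠ 0) (h1 : ∀ i, x i ≠ 1)
    (htr : ∀ i, Transcendental ℚ (x i)) (hgen : adjoin ℚ (Set.range x) = ⊤)
    (halg : Algebra.IsAlgebraic (adjoin ℚ {x 0}) F)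
    (u : Fin 3 → (Fin 3 ⊕ Fin 3 → ℤ)) (hu : LinearIndependent ℤ u)
    (hrel : ∀ j, mono (co x) (u j) = 1) : Small 2880 x := by
  by_cases hE : ∃ i j, i ≠ j ∧ Eqv (x i) (x j)
  · obtain ⟨i, j, hij, hE⟩ := hE
    exact small_mono (by norm_num) x (small_of_eqv x h0 h1 i j hij hE)
  have hE' : ∀ i j, i ≠ j → ¬ Eqv (x i) (x j) := fun i j hij h => hE ⟨i, j, hij, h⟩
  have hne : ¬ Eqv (x 0) (x 1) := hE' 0 1 (by decide)
  obtain ⟨D, hDt, hD⟩ := exists_deriv (k := ℚ) (x 0) (htr 0) halg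
  have hDx : ∀ i, D (x i) ≠ 0 := fun i h => htr i ((hD _).1 h)
  obtain ⟨G, c, hc⟩ := exists_triple D (co x) u hu (fun j => by
    rw [← mono_alg_iff D hD (co x) (co_ne x h0 h1), hrel j]; exact isAlgebraic_one)
  obtain ⟨l, hl⟩ : ∃ l : Fin 3 → Fin 3 → ℚ, ∀ i, LD D (x i) = ev (l i) G :=
    ⟨fun i => c (Sum.inl i), fun i => hc (Sum.inl i)⟩
  obtain ⟨l', hl'⟩ : ∃ l' : Fin 3 → Fin 3 → ℚ, ∀ i, LD D (1 - x i) = ev (l' i) G :=
    ⟨fun i => c (Sum.inr i), fun i => hc (Sum.inr i)⟩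
  obtain ⟨hq, hqq⟩ := pairwise_cross D x h0 h1 htr hDx G l l' hl hl'
  have hq' : ∀ i j, i ≠ j →
      crossProduct (crossProduct (l i) (l' i)) (crossProduct (l j) (l' j)) ≠ 0 :=
    fun i j hij h => hE' i j hij (hqq i j h)
  have hx : ∀ i, ev (l' i) G - ev (l i) G ≠ 0 ∧
      x i = ev (l' i) G / (ev (l' i) G - ev (l i) G) := by
    intro i
    have := x_eq D (x i) (h0 i) (h1 i) (hDx i)
    rwa [hl i, hl' i] at this
  rcases dual_or_rel (fun i => crossProduct (l i) (l' i)) with ⟨α, hα⟩ | ⟨c', hc'0, hc'⟩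
  · by_cases hv : ∃ v : Fin 3 → ℚ,
      ∑ i, (α i ⬝ᵥ v) * (l i ⬝ᵥ v) * (l' i ⬝ᵥ v) * ((l i - l' i) ⬝ᵥ v) ≠ 0
    · obtain ⟨R, hRh, hR0, hRG⟩ := poly4 (F := F) l l' α hv
      have hz : MvPolynomial.aeval G R = 0 := by
        rw [hRG G]; exact eq4 D x h0 h1 G l l' α hl hl' hα
      exact small_of_deg4 x h0 h1 htr hgen halg hne u hu hrel fun i =>
        deg4_of_homog x hgen G l l' hx hq R 4 (by norm_num) hRh hR0 hz i (htr i)
    · push Not at hv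
      obtain ⟨k, hk0, hk1, hk2⟩ := quartic_zero l l' α hα hv
      exact small_mono (by norm_num) x
        (small_of_frames D hD x h0 h1 htr hne u hu hrel G l l' hl hl' k hk0 hk1 hk2)
  · have hcne := rel_ne _ hq' c' hc'0 hc'
    have hv := cubic_ne l l' hq' c' hcne hc'
    obtain ⟨R, hRh, hR0, hRG⟩ := poly3 (F := F) l l' c' hv
    have hz : MvPolynomial.aeval G R = 0 := by
      rw [hRG G]; exact eq3 D x h0 h1 G l l' hl hl' c' hc'
    exact small_of_deg4 x h0 h1 htr hgen halg hne u hu hrel fun i =>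
      deg4_of_homog x hgen G l l' hx hq R 3 (by norm_num) hRh hR0 hz i (htr i)

end Pool.Agent.LThreeC
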