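import Pool.Agent.LThreeC.TrMono
import Pool.Agent.LThreeC.PairRel
import Pool.Agent.LThreeC.SymRel
import Pool.Agent.LThreeC.Sixth
import Pool.Agent.LThreeC.Deriv
import Pool.Agent.LThreeC.LogD

set_option autoImplicit false

/-! Package C16: transcendence degree two.

`surf`: `x i, x j` algebraically independent, `x k` algebraic over `ℚ(x i, x j)`, two independent
relations `u, v`.
(1) `x k` algebraic over `ℚ`: as above the exponents at `i` and `j` vanish (`(x i)^a (1-x i)^b` is
algebraic over `ℚ(x j)`), so `u, v` are two independent relations of `x k`: `two_rel_one`.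
(2) `x k` algebraic over `ℚ(x j)` but not over `ℚ`: the exponents at `i` vanish, and `u, v` are two
independent relations of `x j, x k`: `pair_eqv_gen`. The same with `i, j` exchanged.
(3) `x k` algebraic neither over `ℚ(x i)` nor over `ℚ(x j)`: for a derivation `D` over `ℚ(x j)` with
`D (x i) = 1` a relation `m = (a,b; c,d; e,f)` (exponents of `x i, 1-x i; x j, 1-x j; x k, 1-x k`)
gives `P + E W = 0` with `P = a (1 - x i) - b (x i)`, `E = e (1 - x k) - f (x k)` and a nonzero `W`
which does not depend on the relation; the same for `Q = c (1 - x j) - d (x j)`. For two relations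
`P Q' = P' Q`, and as `x i, x j` are independent, `(P, Q)` is a rational multiple of `(P', Q')`. -/

namespace Pool.Agent.LThreeC

open Pool.Agent.LThree IntermediateField

variable {F : Type} [Field F] [CharZero F]

/-! ### A derivation on a suitable subfield -/

private theorem exists_deriv_sub {k F : Type} [Field k] [CharZero k] [Field F] [Algebra k F]
    (t z : F) (ht : Transcendental k t) (hz : IsAlgebraic (adjoin k ({t} : Set F)) z) :
    ∃ (E : IntermediateField k F) (T Z : E), (T : F) = t ∧ (Z : F) = z ∧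
      ∃ D : Derivation k E E, D T = 1 ∧ ∀ f, D f = 0 ↔ IsAlgebraic k f := by
  set E : IntermediateField k F := adjoin k {t, z} with hE
  have htE : t ∈ E := subset_adjoin k _ (by simp)
  have hzE : z ∈ E := subset_adjoin k _ (by simp)
  set T : E := ⟨t, htE⟩ with hT
  have hmap : (adjoin k ({T} : Set E)).map E.val = adjoin k {t} := by
    rw [adjoin_map, Set.image_singleton]
    rfl
  have htr : Transcendental k T := by
    intro h
    exact ht (h.algHom E.val)
  have halg : Algebra.IsAlgebraic (adjoin k ({T} : Set E)) E := by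
    refine ⟨fun w => ?_⟩
    have hw : IsAlgebraic (adjoin k ({t} : Set F)) (w : F) := by
      have h1 : E ≤ (algebraicClosure (adjoin k ({t} : Set F)) F).restrictScalars k := by
        rw [hE, adjoin_le_iff]
        rintro s (rfl | h)
        · refine (mem_algebraicClosure_iff.2 ?_ : s ∈ algebraicClosure (adjoin k ({s} : Set F)) F)
          exact isAlgebraic_algebraMap (⟨s, subset_adjoin k _ (by simp)⟩ : adjoin k ({s} : Set F))
        · rw [Set.mem_singleton_iff] at h
          rw [h]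
          exact (mem_algebraicClosure_iff.2 hz : z ∈ algebraicClosure (adjoin k ({t} : Set F)) F)
      exact (mem_algebraicClosure_iff.1 (h1 w.2 : (w : F) ∈ algebraicClosure _ F))
    let f : adjoin k ({T} : Set E) →+* adjoin k ({t} : Set F) :=
      ((E.val.comp (adjoin k ({T} : Set E)).val).toRingHom.codRestrict
        (adjoin k ({t} : Set F)).toSubring.toSubsemiring fun w => by
          have h2 : ((w : E) : F) ∈ (adjoin k ({T} : Set E)).map E.val := ⟨w, w.2, rfl⟩
          rw [hmap] at h2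
          exact h2)
    have hf : Function.Surjective f := by
      rintro ⟨s, hs⟩
      rw [← hmap] at hs
      obtain ⟨w, hw, rfl⟩ := hs
      exact ⟨⟨w, hw⟩, rfl⟩
    exact IsAlgebraic.of_ringHom_of_comp_eq f E.val.toRingHom hw hf E.val.injective rfl
  obtain ⟨D, h1, h2⟩ := exists_deriv T htr halg
  exact ⟨E, T, ⟨z, hzE⟩, rfl, rfl, D, h1, h2⟩

/-- The linear relation given by a multiplicative relation. -/
private theorem main_rel (x y z : F) (hx0 : x ≠ 0) (hx1 : x ≠ 1) (hy0 : y ≠ 0) (hy1 : y ≠ 1)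
    (hz0 : z ≠ 0) (hz1 : z ≠ 1) (htr : Transcendental (adjoin ℚ ({y} : Set F)) x)
    (halg : IsAlgebraic (adjoin ℚ ({x, y} : Set F)) z)
    (hz : ¬ IsAlgebraic (adjoin ℚ ({y} : Set F)) z) :
    ∃ W : F, W ≠ 0 ∧ ∀ a b c d e f : ℤ,
      x ^ a * (1 - x) ^ b * (y ^ c * (1 - y) ^ d) * (z ^ e * (1 - z) ^ f) = 1 →
        ((a : F) * (1 - x) - b * x) + (e * (1 - z) - f * z) * W = 0 := by
  have hyk : y ∈ adjoin ℚ ({y} : Set F) := subset_adjoin ℚ _ rfl
  have halg' : IsAlgebraic (adjoin (adjoin ℚ ({y} : Set F)) ({x} : Set F)) z := by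
    have hle : adjoin ℚ ({x, y} : Set F) ≤
        (adjoin (adjoin ℚ ({y} : Set F)) ({x} : Set F)).restrictScalars ℚ := by
      rw [adjoin_le_iff]
      rintro s (rfl | h)
      · exact subset_adjoin (adjoin ℚ ({y} : Set F)) _ rfl
      · rw [Set.mem_singleton_iff] at h
        rw [h]
        exact (adjoin (adjoin ℚ ({y} : Set F)) ({x} : Set F)).algebraMap_mem ⟨y, hyk⟩
    have h1 := halg.ringHom_of_comp_eq (S := adjoin (adjoin ℚ ({y} : Set F)) ({x} : Set F))
      (B := F) (inclusion hle).toRingHom (RingHom.id F) (inclusion hle).injective rfl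
    exact h1
  obtain ⟨E, T, Z, hT, hZ, D, hD1, hD⟩ := exists_deriv_sub x z htr halg'
  set Y : E := algebraMap (adjoin ℚ ({y} : Set F)) E ⟨y, hyk⟩ with hYdef
  have hY : (Y : F) = y := rfl
  have hT0 : T ≠ 0 := fun h => hx0 (by rw [← hT, h]; rfl)
  have hT1 : T ≠ 1 := fun h => hx1 (by rw [← hT, h]; rfl)
  have hY0 : Y ≠ 0 := fun h => hy0 (by rw [← hY, h]; rfl)
  have hY1 : Y ≠ 1 := fun h => hy1 (by rw [← hY, h]; rfl)
  have hZ0 : Z ≠ 0 := fun h => hz0 (by rw [← hZ, h]; rfl)
  have hZ1 : Z ≠ 1 := fun h => hz1 (by rw [← hZ, h]; rfl)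
  have hT1' : 1 - T ≠ 0 := sub_ne_zero.2 hT1.symm
  have hY1' : 1 - Y ≠ 0 := sub_ne_zero.2 hY1.symm
  have hZ1' : 1 - Z ≠ 0 := sub_ne_zero.2 hZ1.symm
  let D' : Derivation ℚ E E := Derivation.mk' (D.toLinearMap.toAddMonoidHom.toRatLinearMap)
    fun a b => D.leibniz a b
  have hD' : ∀ w, D' w = D w := fun w => rfl
  have hDZ : D Z ≠ 0 := by
    intro h
    apply hz
    rw [hD] at h
    rw [← hZ]
    exact h.algHom E.val
  have hDY : D' Y = 0 := by
    rw [hD', hYdef]
    exact D.map_algebraMap _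
  refine ⟨((D Z * (T * (1 - T)) / (Z * (1 - Z)) : E) : F), ?_, ?_⟩
  · intro h
    have h1 : (D Z * (T * (1 - T)) / (Z * (1 - Z)) : E) = 0 := Subtype.ext h
    exact div_ne_zero (mul_ne_zero hDZ (mul_ne_zero hT0 hT1')) (mul_ne_zero hZ0 hZ1') h1
  · intro a b c d e f h
    have h2 : T ^ a * (1 - T) ^ b * (Y ^ c * (1 - Y) ^ d) * (Z ^ e * (1 - Z) ^ f) = 1 := by
      apply E.val.injective
      simp only [map_mul, map_zpow₀, map_sub, map_one]
      change (T : F) ^ a * (1 - (T : F)) ^ b * ((Y : F) ^ c * (1 - (Y : F)) ^ d) *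
        ((Z : F) ^ e * (1 - (Z : F)) ^ f) = 1
      rw [hT, hY, hZ]
      exact h
    have h3 : mono (co ![T, Y, Z]) (Sum.elim ![a, c, e] ![b, d, f]) = 1 := by
      rw [← h2]
      simp only [mono, co, Fintype.prod_sum_type, Fin.prod_univ_three, Sum.elim_inl, Sum.elim_inr,
        Matrix.cons_val_zero, Matrix.cons_val_one, Matrix.cons_val]
      ring
    have hne : ∀ i, co ![T, Y, Z] i ≠ 0 := by
      rintro (i | i)
      · fin_cases i
        · exact hT0
        · exact hY0
        · exact hZ0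
      · fin_cases i
        · exact hT1'
        · exact hY1'
        · exact hZ1'
    have h4 := LD_mono D' (co ![T, Y, Z]) hne (Sum.elim ![a, c, e] ![b, d, f])
    rw [h3] at h4
    simp only [co, Fintype.sum_sum_type, Fin.sum_univ_three, Sum.elim_inl, Sum.elim_inr,
      Matrix.cons_val_zero, Matrix.cons_val_one, Matrix.cons_val] at h4
    rw [LD_one_sub D' T hT0 hT1, LD_one_sub D' Y hY0 hY1, LD_one_sub D' Z hZ0 hZ1] at h4
    have h5 : LD D' Y = 0 := by rw [LD, hDY, zero_div]
    have h6 : LD D' (1 : E) = 0 := by rw [LD, D'.map_one_eq_zero, zero_div]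
    have h7 : LD D' T = T⁻¹ := by rw [LD, hD', hD1, one_div]
    have h8 : LD D' Z = D Z / Z := by rw [LD, hD']
    rw [h5, h6, h7, h8] at h4
    have h9 : ((a : E) * (1 - T) - b * T) + (e * (1 - Z) - f * Z) *
        (D Z * (T * (1 - T)) / (Z * (1 - Z))) = 0 := by
      have h10 : ((a : E) * (1 - T) - b * T) + (e * (1 - Z) - f * Z) *
          (D Z * (T * (1 - T)) / (Z * (1 - Z))) = T * (1 - T) *
          ((a : E) * T⁻¹ + c * 0 + e * (D Z / Z) + (b * (-(T / (1 - T)) * T⁻¹) +
            d * (-(Y / (1 - Y)) * 0) + f * (-(Z / (1 - Z)) * (D Z / Z)))) := by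
        field_simp
        ring
      rw [h10, ← h4, mul_zero]
    have h11 := congrArg (fun w : E => (w : F)) h9
    push_cast at h11
    rw [hT, hZ] at h11
    push_cast
    rw [hT, hZ]
    exact h11

/-! ### Vanishing exponents -/

omit [CharZero F] in
private theorem zpow_alg {k : Type} [Field k] [Algebra k F] {w : F} (h : IsAlgebraic k w) (n : ℤ) :
    IsAlgebraic k (w ^ n) := by
  rw [← mem_algebraicClosure_iff] at h ⊢
  exact zpow_mem h n

omit [CharZero F] in
private theorem one_sub_alg {k : Type} [Field k] [Algebra k F] {w : F} (h : IsAlgebraic k w) :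
    IsAlgebraic k (1 - w) := by
  rw [← mem_algebraicClosure_iff] at h ⊢
  exact sub_mem (one_mem _) h

private theorem kill {k : Type} [Field k] [Algebra k F] (x y z : F)
    (hx : Transcendental k x) (hy : IsAlgebraic k y) (hz : IsAlgebraic k z) (a b c d e f : ℤ)
    (h : x ^ a * (1 - x) ^ b * (y ^ c * (1 - y) ^ d) * (z ^ e * (1 - z) ^ f) = 1) :
    a = 0 ∧ b = 0 := by
  apply tr_mono x hx a b
  have h1 : IsAlgebraic k ((y ^ c * (1 - y) ^ d) * (z ^ e * (1 - z) ^ f)) :=
    ((zpow_alg hy c).mul (zpow_alg (one_sub_alg hy) d)).mul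
      ((zpow_alg hz e).mul (zpow_alg (one_sub_alg hz) f))
  have h2 : x ^ a * (1 - x) ^ b = ((y ^ c * (1 - y) ^ d) * (z ^ e * (1 - z) ^ f))⁻¹ := by
    rw [mul_assoc] at h
    exact eq_inv_of_mul_eq_one_left h
  rw [h2]
  exact h1.inv

omit [CharZero F] in
/-- A transcendental element satisfies no linear equation. -/
private theorem lin_zero {k : Type} [Field k] [Algebra k F] (x : F) (hx : Transcendental k x)
    (a b : k) (h : algebraMap k F a + algebraMap k F b * x = 0) : a = 0 ∧ b = 0 := by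
  have hb : b = 0 := by
    by_contra hb
    apply hx
    have hb' : algebraMap k F b ≠ 0 := by
      rwa [Ne, map_eq_zero]
    have h1 : x = algebraMap k F (-a / b) := by
      rw [map_div₀, map_neg, eq_div_iff hb']
      linear_combination h
    rw [h1]
    exact isAlgebraic_algebraMap _
  rw [hb, map_zero, zero_mul, add_zero, map_eq_zero] at h
  exact ⟨h, hb⟩

/-! ### The coordinates -/

private theorem univ_three : ∀ i j k : Fin 3, i ≠ j → i ≠ k → j ≠ k →
    (Finset.univ : Finset (Fin 3)) = {i, j, k} := by decide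

private theorem cases_three : ∀ i j k : Fin 3, i ≠ j → i ≠ k → j ≠ k →
    ∀ l : Fin 3, l = i ∨ l = j ∨ l = k := by decide

omit [CharZero F] in
private theorem mono_eq (x : Fin 3 → F) (i j k : Fin 3) (hij : i ≠ j) (hik : i ≠ k) (hjk : j ≠ k)
    (u : Fin 3 ⊕ Fin 3 → ℤ) : mono (co x) u =
      x i ^ u (Sum.inl i) * (1 - x i) ^ u (Sum.inr i) *
        (x j ^ u (Sum.inl j) * (1 - x j) ^ u (Sum.inr j)) *
        (x k ^ u (Sum.inl k) * (1 - x k) ^ u (Sum.inr k)) := by
  have h1 : i ∉ ({j, k} : Finset (Fin 3)) := by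
    simp only [Finset.mem_insert, Finset.mem_singleton]
    tauto
  have h2 : j ∉ ({k} : Finset (Fin 3)) := by
    simp only [Finset.mem_singleton]
    exact hjk
  simp only [mono, co, Fintype.prod_sum_type, Sum.elim_inl, Sum.elim_inr]
  rw [univ_three i j k hij hik hjk, Finset.prod_insert h1, Finset.prod_insert h2,
    Finset.prod_singleton, Finset.prod_insert h1, Finset.prod_insert h2, Finset.prod_singleton]
  ring

private theorem ext_three (i j k : Fin 3) (hij : i ≠ j) (hik : i ≠ k) (hjk : j ≠ k)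
    (u v : Fin 3 ⊕ Fin 3 → ℤ) (h1 : u (Sum.inl i) = v (Sum.inl i))
    (h2 : u (Sum.inr i) = v (Sum.inr i)) (h3 : u (Sum.inl j) = v (Sum.inl j))
    (h4 : u (Sum.inr j) = v (Sum.inr j)) (h5 : u (Sum.inl k) = v (Sum.inl k))
    (h6 : u (Sum.inr k) = v (Sum.inr k)) : u = v := by
  funext l
  rcases l with l | l
  · rcases cases_three i j k hij hik hjk l with rfl | rfl | rfl <;> assumption
  · rcases cases_three i j k hij hik hjk l with rfl | rfl | rfl <;> assumption

/-- Case (2). -/
private theorem two_case (x : Fin 3 → F) (h0 : ∀ i, x i ≠ 0) (h1 : ∀ i, x i ≠ 1) (i j k : Fin 3)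
    (hij : i ≠ j) (hik : i ≠ k) (hjk : j ≠ k)
    (hi : Transcendental (adjoin ℚ ({x j} : Set F)) (x i)) (hj : Transcendental ℚ (x j))
    (hk : Transcendental ℚ (x k)) (halg : IsAlgebraic (adjoin ℚ ({x j} : Set F)) (x k))
    (u v : Fin 3 ⊕ Fin 3 → ℤ) (hli : LinearIndependent ℤ ![u, v]) (hu : mono (co x) u = 1)
    (hv : mono (co x) v = 1) : Small 6 x := by
  have hjj : IsAlgebraic (adjoin ℚ ({x j} : Set F)) (x j) :=
    isAlgebraic_algebraMap (⟨x j, subset_adjoin ℚ _ rfl⟩ : adjoin ℚ ({x j} : Set F))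
  rw [mono_eq x i j k hij hik hjk] at hu hv
  obtain ⟨a1, a2⟩ := kill _ _ _ hi hjj halg _ _ _ _ _ _ hu
  obtain ⟨b1, b2⟩ := kill _ _ _ hi hjj halg _ _ _ _ _ _ hv
  rw [a1, a2, zpow_zero, zpow_zero, one_mul, one_mul] at hu
  rw [b1, b2, zpow_zero, zpow_zero, one_mul, one_mul] at hv
  set r : (Fin 3 ⊕ Fin 3 → ℤ) → (Fin 2 ⊕ Fin 2 → ℤ) := fun w =>
    Sum.elim ![w (Sum.inl j), w (Sum.inl k)] ![w (Sum.inr j), w (Sum.inr k)] with hr
  have hm : ∀ w : Fin 3 ⊕ Fin 3 → ℤ, mono (co ![x j, x k]) (r w) =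
      x j ^ w (Sum.inl j) * (1 - x j) ^ w (Sum.inr j) *
        (x k ^ w (Sum.inl k) * (1 - x k) ^ w (Sum.inr k)) := by
    intro w
    simp only [hr, mono, co, Fintype.prod_sum_type, Fin.prod_univ_two, Sum.elim_inl, Sum.elim_inr,
      Matrix.cons_val_zero, Matrix.cons_val_one]
    ring
  have hli' : LinearIndependent ℤ ![r u, r v] := by
    rw [LinearIndependent.pair_iff] at hli ⊢
    intro s t hst
    apply hli s t
    have e1 := congrFun hst (Sum.inl 0)
    have e2 := congrFun hst (Sum.inl 1)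
    have e3 := congrFun hst (Sum.inr 0)
    have e4 := congrFun hst (Sum.inr 1)
    simp only [hr, Pi.add_apply, Pi.smul_apply, Sum.elim_inl, Sum.elim_inr, smul_eq_mul,
      Matrix.cons_val_zero, Matrix.cons_val_one, Pi.zero_apply] at e1 e2 e3 e4
    refine ext_three i j k hij hik hjk _ _ ?_ ?_ ?_ ?_ ?_ ?_
    · simp [a1, b1]
    · simp [a2, b2]
    · simpa using e1
    · simpa using e3
    · simpa using e2
    · simpa using e4
  have hE : Eqv (x j) (x k) := by
    refine pair_eqv_gen ![x j, x k] ?_ ?_ ?_ (r u) (r v) hli' ?_ ?_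
    · intro l
      fin_cases l
      · exact h0 j
      · exact h0 k
    · intro l
      fin_cases l
      · exact h1 j
      · exact h1 k
    · intro l
      fin_cases l
      · exact hj
      · exact hk
    · rw [hm, hu]
      exact isAlgebraic_one
    · rw [hm, hv]
      exact isAlgebraic_one
  exact small_mono (by norm_num) x (small_of_eqv x h0 h1 j k hjk hE)

/-- Case (1). -/
private theorem one_case (x : Fin 3 → F) (h0 : ∀ i, x i ≠ 0) (h1 : ∀ i, x i ≠ 1) (i j k : Fin 3)
    (hij : i ≠ j) (hik : i ≠ k) (hjk : j ≠ k)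
    (hi : Transcendental (adjoin ℚ ({x j} : Set F)) (x i))
    (hj : Transcendental (adjoin ℚ ({x i} : Set F)) (x j)) (hk : IsAlgebraic ℚ (x k))
    (u v : Fin 3 ⊕ Fin 3 → ℤ) (hli : LinearIndependent ℤ ![u, v]) (hu : mono (co x) u = 1)
    (hv : mono (co x) v = 1) : Small 6 x := by
  have hself : ∀ y : F, IsAlgebraic (adjoin ℚ ({y} : Set F)) y := fun y =>
    isAlgebraic_algebraMap (⟨y, subset_adjoin ℚ _ rfl⟩ : adjoin ℚ ({y} : Set F))
  have hkt : ∀ y : F, IsAlgebraic (adjoin ℚ ({y} : Set F)) (x k) := fun y => hk.tower_top _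
  have hu' := hu
  have hv' := hv
  rw [mono_eq x i j k hij hik hjk] at hu hv
  rw [mono_eq x j i k hij.symm hjk hik] at hu' hv'
  obtain ⟨a1, a2⟩ := kill _ _ _ hi (hself _) (hkt _) _ _ _ _ _ _ hu
  obtain ⟨b1, b2⟩ := kill _ _ _ hi (hself _) (hkt _) _ _ _ _ _ _ hv
  obtain ⟨a3, a4⟩ := kill _ _ _ hj (hself _) (hkt _) _ _ _ _ _ _ hu'
  obtain ⟨b3, b4⟩ := kill _ _ _ hj (hself _) (hkt _) _ _ _ _ _ _ hv'
  rw [a1, a2, a3, a4] at hu
  rw [b1, b2, b3, b4] at hv
  simp only [zpow_zero, one_mul] at hu hv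
  have h6 : x k ^ 6 = 1 := by
    refine two_rel_one (x k) (h0 k) (h1 k) _ _ _ _ ?_ hu hv
    intro hdet
    rw [LinearIndependent.pair_iff] at hli
    have c1 := hli (v (Sum.inr k)) (-u (Sum.inr k)) (by
      refine ext_three i j k hij hik hjk _ _ ?_ ?_ ?_ ?_ ?_ ?_
      · simp [a1, b1]
      · simp [a2, b2]
      · simp [a3, b3]
      · simp [a4, b4]
      · simp only [Pi.add_apply, Pi.smul_apply, smul_eq_mul, Pi.zero_apply]
        linarith
      · simp only [Pi.add_apply, Pi.smul_apply, smul_eq_mul, Pi.zero_apply]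
        ring)
    have c2 := hli (v (Sum.inl k)) (-u (Sum.inl k)) (by
      refine ext_three i j k hij hik hjk _ _ ?_ ?_ ?_ ?_ ?_ ?_
      · simp [a1, b1]
      · simp [a2, b2]
      · simp [a3, b3]
      · simp [a4, b4]
      · simp only [Pi.add_apply, Pi.smul_apply, smul_eq_mul, Pi.zero_apply]
        ring
      · simp only [Pi.add_apply, Pi.smul_apply, smul_eq_mul, Pi.zero_apply]
        linarith)
    have c3 := hli 1 0 (by
      refine ext_three i j k hij hik hjk _ _ ?_ ?_ ?_ ?_ ?_ ?_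
      · simp [a1]
      · simp [a2]
      · simp [a3]
      · simp [a4]
      · simpa using c2.2
      · simpa using c1.2)
    exact one_ne_zero c3.1
  refine ⟨Pi.single (Sum.inl k) 6, ?_, ?_, ?_⟩
  · intro h
    have := congrFun h (Sum.inl k)
    rw [Pi.single_eq_same] at this
    norm_num at this
  · refine Finset.sup_le fun l _ => ?_
    by_cases hl : l = Sum.inl k
    · subst hl
      rw [Pi.single_eq_same]
      norm_num
    · rw [Pi.single_eq_of_ne hl]
      norm_num
  · rw [mono_eq x i j k hij hik hjk, Pi.single_eq_same, Pi.single_eq_of_ne (by simp [hik]),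
      Pi.single_eq_of_ne (by simp), Pi.single_eq_of_ne (by simp [hjk]),
      Pi.single_eq_of_ne (by simp), Pi.single_eq_of_ne (by simp)]
    simp only [zpow_zero, one_mul, mul_one]
    exact_mod_cast h6

/-- A bilinear form in two independent elements. -/
private theorem bilin_zero (X Y : F)
    (hX : Transcendental (adjoin ℚ ({Y} : Set F)) X) (hY : Transcendental ℚ Y) (p q r s : ℤ)
    (h : (p : F) + q * Y + (r + s * Y) * X = 0) : p = 0 ∧ q = 0 ∧ r = 0 ∧ s = 0 := by
  set y : adjoin ℚ ({Y} : Set F) := ⟨Y, subset_adjoin ℚ _ rfl⟩ with hy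
  have hyY : algebraMap (adjoin ℚ ({Y} : Set F)) F y = Y := rfl
  obtain ⟨h1, h2⟩ := lin_zero X hX ((p : adjoin ℚ ({Y} : Set F)) + q * y) (r + s * y) (by
    rw [map_add, map_add, map_mul, map_mul, map_intCast, map_intCast, map_intCast, map_intCast,
      hyY]
    exact h)
  have h3 : (p : F) + q * Y = 0 := by
    have := congrArg (algebraMap (adjoin ℚ ({Y} : Set F)) F) h1
    rwa [map_add, map_mul, map_intCast, map_intCast, hyY, map_zero] at this
  have h4 : (r : F) + s * Y = 0 := by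
    have := congrArg (algebraMap (adjoin ℚ ({Y} : Set F)) F) h2
    rwa [map_add, map_mul, map_intCast, map_intCast, hyY, map_zero] at this
  obtain ⟨h5, h6⟩ := lin_zero Y hY (p : ℚ) (q : ℚ) (by rwa [map_intCast, map_intCast])
  obtain ⟨h7, h8⟩ := lin_zero Y hY (r : ℚ) (s : ℚ) (by rwa [map_intCast, map_intCast])
  exact ⟨by exact_mod_cast h5, by exact_mod_cast h6, by exact_mod_cast h7, by exact_mod_cast h8⟩

private theorem lin_form_zero (X : F) (hX : Transcendental ℚ X) (a b : ℤ)
    (h : (a : F) * (1 - X) - b * X = 0) : a = 0 ∧ b = 0 := by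
  obtain ⟨h5, h6⟩ := lin_zero X hX (a : ℚ) ((-(a + b) : ℤ) : ℚ) (by
    rw [map_intCast, map_intCast]
    push_cast
    linear_combination h)
  have h7 : a = 0 := by exact_mod_cast h5
  have h8 : -(a + b) = 0 := by exact_mod_cast h6
  exact ⟨h7, by omega⟩

/-- Two vectors of rank one. -/
private theorem rank_one (p1 p2 p1' p2' q1 q2 q1' q2' : ℤ) (h11 : p1 * q1' = p1' * q1)
    (h12 : p1 * q2' = p1' * q2) (h21 : p2 * q1' = p2' * q1) (h22 : p2 * q2' = p2' * q2)
    (hp : p1' ≠ 0 ∨ p2' ≠ 0) (hq : q1' ≠ 0 ∨ q2' ≠ 0) :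
    ∃ s r : ℤ, s ≠ 0 ∧ s * p1 = r * p1' ∧ s * p2 = r * p2' ∧ s * q1 = r * q1' ∧
      s * q2 = r * q2' := by
  rcases hq with hq | hq
  · have e1 : q1' * p1 = q1 * p1' := by linarith
    have e2 : q1' * p2 = q1 * p2' := by linarith
    refine ⟨q1', q1, hq, e1, e2, by ring, ?_⟩
    rcases hp with hp | hp
    · refine mul_left_cancel₀ hp ?_
      calc p1' * (q1' * q2) = q1' * (p1' * q2) := by ring
        _ = q1' * (p1 * q2') := by rw [h12]
        _ = (q1' * p1) * q2' := by ring
        _ = p1' * (q1 * q2') := by rw [e1]; ring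
    · refine mul_left_cancel₀ hp ?_
      calc p2' * (q1' * q2) = q1' * (p2' * q2) := by ring
        _ = q1' * (p2 * q2') := by rw [h22]
        _ = (q1' * p2) * q2' := by ring
        _ = p2' * (q1 * q2') := by rw [e2]; ring
  · have e1 : q2' * p1 = q2 * p1' := by linarith
    have e2 : q2' * p2 = q2 * p2' := by linarith
    refine ⟨q2', q2, hq, e1, e2, ?_, by ring⟩
    rcases hp with hp | hp
    · refine mul_left_cancel₀ hp ?_
      calc p1' * (q2' * q1) = q2' * (p1' * q1) := by ring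
        _ = q2' * (p1 * q1') := by rw [h11]
        _ = (q2' * p1) * q1' := by ring
        _ = p1' * (q2 * q1') := by rw [e1]; ring
    · refine mul_left_cancel₀ hp ?_
      calc p2' * (q2' * q1) = q2' * (p2' * q1) := by ring
        _ = q2' * (p2 * q1') := by rw [h21]
        _ = (q2' * p2) * q1' := by ring
        _ = p2' * (q2 * q1') := by rw [e2]; ring

theorem surf (x : Fin 3 → F) (h0 : ∀ i, x i ≠ 0) (h1 : ∀ i, x i ≠ 1) (i j k : Fin 3)
    (hij : i ≠ j) (hik : i ≠ k) (hjk : j ≠ k) (hind : AlgebraicIndependent ℚ ![x i, x j])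
    (halg : IsAlgebraic (adjoin ℚ ({x i, x j} : Set F)) (x k))
    (u v : Fin 3 ⊕ Fin 3 → ℤ) (hli : LinearIndependent ℤ ![u, v]) (hu : mono (co x) u = 1)
    (hv : mono (co x) v = 1) : Small 6 x := by
  have hi : Transcendental (adjoin ℚ ({x j} : Set F)) (x i) := by
    have h2 := hind.transcendental_adjoin (s := {1}) (i := 0) (by simp)
    rw [Set.image_singleton] at h2
    exact transcendental_adjoin_iff.2 h2
  have hj : Transcendental (adjoin ℚ ({x i} : Set F)) (x j) := by
    have h2 := hind.transcendental_adjoin (s := {0}) (i := 1) (by simp)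
    rw [Set.image_singleton] at h2
    exact transcendental_adjoin_iff.2 h2
  have hti : Transcendental ℚ (x i) := hind.transcendental 0
  have htj : Transcendental ℚ (x j) := hind.transcendental 1
  by_cases hk : IsAlgebraic ℚ (x k)
  · exact one_case x h0 h1 i j k hij hik hjk hi hj hk u v hli hu hv
  by_cases hkj : IsAlgebraic (adjoin ℚ ({x j} : Set F)) (x k)
  · exact two_case x h0 h1 i j k hij hik hjk hi htj hk hkj u v hli hu hv
  by_cases hki : IsAlgebraic (adjoin ℚ ({x i} : Set F)) (x k)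
  · exact two_case x h0 h1 j i k hij.symm hjk hik hj hti hk hki u v hli hu hv
  -- case (3)
  exfalso
  obtain ⟨W, hW, hWr⟩ := main_rel (x i) (x j) (x k) (h0 i) (h1 i) (h0 j) (h1 j) (h0 k) (h1 k)
    hi halg hkj
  obtain ⟨W', hW', hWr'⟩ := main_rel (x j) (x i) (x k) (h0 j) (h1 j) (h0 i) (h1 i) (h0 k) (h1 k)
    hj (by rwa [Set.pair_comm]) hki
  have hrel : ∀ w : Fin 3 ⊕ Fin 3 → ℤ, mono (co x) w = 1 →
      ((w (Sum.inl i) : F) * (1 - x i) - w (Sum.inr i) * x i) +
        (w (Sum.inl k) * (1 - x k) - w (Sum.inr k) * x k) * W = 0 ∧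
      ((w (Sum.inl j) : F) * (1 - x j) - w (Sum.inr j) * x j) +
        (w (Sum.inl k) * (1 - x k) - w (Sum.inr k) * x k) * W' = 0 := by
    intro w hw
    refine ⟨hWr _ _ _ _ _ _ ((mono_eq x i j k hij hik hjk w).symm.trans hw),
      hWr' _ _ _ _ _ _ ((mono_eq x j i k hij.symm hjk hik w).symm.trans hw)⟩
  obtain ⟨u1, u2⟩ := hrel u hu
  obtain ⟨v1, v2⟩ := hrel v hv
  rw [LinearIndependent.pair_iff] at hli
  have hE : (v (Sum.inl k) : F) * (1 - x k) - v (Sum.inr k) * x k ≠ 0 := by
    intro hE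
    rw [hE, zero_mul, add_zero] at v1 v2
    obtain ⟨c1, c2⟩ := lin_form_zero _ hti _ _ v1
    obtain ⟨c3, c4⟩ := lin_form_zero _ htj _ _ v2
    obtain ⟨c5, c6⟩ := lin_form_zero _ hk _ _ hE
    have := hli 0 1 (by
      rw [zero_smul, zero_add, one_smul]
      exact ext_three i j k hij hik hjk _ _ c1 c2 c3 c4 c5 c6)
    exact one_ne_zero this.2
  have hP : v (Sum.inl i) ≠ 0 ∨ v (Sum.inl i) + v (Sum.inr i) ≠ 0 := by
    by_contra hcon
    push Not at hcon
    have h5 : v (Sum.inr i) = 0 := by omega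
    rw [hcon.1, h5, Int.cast_zero, zero_mul, zero_mul, sub_zero, zero_add] at v1
    exact mul_ne_zero hE hW v1
  have hQ : v (Sum.inl j) ≠ 0 ∨ v (Sum.inl j) + v (Sum.inr j) ≠ 0 := by
    by_contra hcon
    push Not at hcon
    have h5 : v (Sum.inr j) = 0 := by omega
    rw [hcon.1, h5, Int.cast_zero, zero_mul, zero_mul, sub_zero, zero_add] at v2
    exact mul_ne_zero hE hW' v2
  have hbil : ((u (Sum.inl i) : F) * (1 - x i) - u (Sum.inr i) * x i) *
      ((v (Sum.inl j) : F) * (1 - x j) - v (Sum.inr j) * x j) =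
      ((v (Sum.inl i) : F) * (1 - x i) - v (Sum.inr i) * x i) *
      ((u (Sum.inl j) : F) * (1 - x j) - u (Sum.inr j) * x j) := by
    rw [eq_neg_of_add_eq_zero_left u1, eq_neg_of_add_eq_zero_left u2,
      eq_neg_of_add_eq_zero_left v1, eq_neg_of_add_eq_zero_left v2]
    ring
  obtain ⟨b1, b2, b3, b4⟩ := bilin_zero (x i) (x j) hi htj
    (u (Sum.inl i) * v (Sum.inl j) - v (Sum.inl i) * u (Sum.inl j))
    (-(u (Sum.inl i) * (v (Sum.inl j) + v (Sum.inr j)) -
      v (Sum.inl i) * (u (Sum.inl j) + u (Sum.inr j))))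
    (-((u (Sum.inl i) + u (Sum.inr i)) * v (Sum.inl j) -
      (v (Sum.inl i) + v (Sum.inr i)) * u (Sum.inl j)))
    ((u (Sum.inl i) + u (Sum.inr i)) * (v (Sum.inl j) + v (Sum.inr j)) -
      (v (Sum.inl i) + v (Sum.inr i)) * (u (Sum.inl j) + u (Sum.inr j))) (by
      push_cast
      linear_combination hbil)
  obtain ⟨s, r, hs, e1, e2, e3, e4⟩ := rank_one (u (Sum.inl i)) (u (Sum.inl i) + u (Sum.inr i))
    (v (Sum.inl i)) (v (Sum.inl i) + v (Sum.inr i)) (u (Sum.inl j))
    (u (Sum.inl j) + u (Sum.inr j)) (v (Sum.inl j)) (v (Sum.inl j) + v (Sum.inr j))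
    (by linarith) (by linarith) (by linarith) (by linarith) hP hQ
  have e2' : s * u (Sum.inr i) = r * v (Sum.inr i) := by
    rw [mul_add, mul_add] at e2
    linarith
  have e4' : s * u (Sum.inr j) = r * v (Sum.inr j) := by
    rw [mul_add, mul_add] at e4
    linarith
  have hF : (s : F) * ((u (Sum.inl k) : F) * (1 - x k) - u (Sum.inr k) * x k) =
      r * ((v (Sum.inl k) : F) * (1 - x k) - v (Sum.inr k) * x k) := by
    have f1 : (s : F) * u (Sum.inl i) = r * v (Sum.inl i) := by exact_mod_cast e1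
    have f2 : (s : F) * u (Sum.inr i) = r * v (Sum.inr i) := by exact_mod_cast e2'
    refine mul_right_cancel₀ hW ?_
    linear_combination (s : F) * u1 - (r : F) * v1 - (1 - x i) * f1 + x i * f2
  obtain ⟨g1, g2⟩ := lin_form_zero (x k) hk (s * u (Sum.inl k) - r * v (Sum.inl k))
    (s * u (Sum.inr k) - r * v (Sum.inr k)) (by
      push_cast
      linear_combination hF)
  have hfin := hli s (-r) (by
    refine ext_three i j k hij hik hjk _ _ ?_ ?_ ?_ ?_ ?_ ?_ <;>
      simp only [Pi.add_apply, Pi.smul_apply, smul_eq_mul, Pi.zero_apply] <;> linarith)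
  exact hs hfin.1

end Pool.Agent.LThreeC
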