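import Pool.Agent.LThreeC.TrMono

set_option autoImplicit false

/-! Package C21: transcendence degree three.

PROOF: each `x i` is transcendental over `L := ℚ(x j, x k)` (`j, k` the other two indices). In a
relation `m` the factor `(x i)^a (1 - x i)^b` lies in `L` (it is the inverse of the other factors), so
`tr_mono` over `L` gives `a = b = 0`. -/

namespace Pool.Agent.LThreeC

open Pool.Agent.LThree IntermediateField

variable {F : Type} [Field F] [CharZero F]

theorem three (x : Fin 3 → F) (h0 : ∀ i, x i ≠ 0) (h1 : ∀ i, x i ≠ 1)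
    (hx : AlgebraicIndependent ℚ x) (m : Fin 3 ⊕ Fin 3 → ℤ) (hm : mono (co x) m = 1) :
    m = 0 := by
  have key : ∀ i : Fin 3, m (Sum.inl i) = 0 ∧ m (Sum.inr i) = 0 := by
    intro i
    set L : IntermediateField ℚ F := adjoin ℚ (x '' {i}ᶜ) with hL
    have htr : Transcendental L (x i) := by
      rw [hL, IntermediateField.transcendental_adjoin_iff]
      exact hx.transcendental_adjoin (by simp)
    have hxL : ∀ j, j ≠ i → x j ∈ L := fun j hj =>
      subset_adjoin ℚ _ ⟨j, by simpa using hj, rfl⟩
    set r : F := ∏ j ∈ Finset.univ.erase i, (x j ^ m (Sum.inl j) * (1 - x j) ^ m (Sum.inr j))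
      with hr
    have hrL : r ∈ L := by
      refine prod_mem fun j hj => ?_
      have hj' := hxL j (Finset.ne_of_mem_erase hj)
      exact mul_mem (zpow_mem hj' _) (zpow_mem (sub_mem (one_mem L) hj') _)
    have hprod : (x i ^ m (Sum.inl i) * (1 - x i) ^ m (Sum.inr i)) * r = 1 := by
      refine Eq.trans ?_ hm
      rw [hr, Finset.mul_prod_erase Finset.univ
        (fun j => x j ^ m (Sum.inl j) * (1 - x j) ^ m (Sum.inr j)) (Finset.mem_univ i),
        Finset.prod_mul_distrib]
      unfold mono
      rw [Fintype.prod_sum_type]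
      rfl
    have hmem : x i ^ m (Sum.inl i) * (1 - x i) ^ m (Sum.inr i) ∈ L := by
      rw [eq_inv_of_mul_eq_one_left hprod]
      exact inv_mem hrL
    exact tr_mono (x i) htr _ _ (isAlgebraic_algebraMap (⟨_, hmem⟩ : L))
  funext j
  rcases j with j | j
  · exact (key j).1
  · exact (key j).2

end Pool.Agent.LThreeC
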