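import Pool.Agent.LThreeC.CaseA
import Pool.Agent.LThreeC.CaseB
import Pool.Agent.LThreeC.CaseC
import Pool.Agent.LThreeC.Surf
import Pool.Agent.LThreeC.Three

set_option autoImplicit false

/-! Transcendental points of `L^3` with many relations: the final statement. -/

namespace Pool.Agent.LThreeC

open Pool.Agent.LThree IntermediateField

variable {F : Type} [Field F] [CharZero F]

theorem third (i j : Fin 3) (h : i ≠ j) : ∃ k, i ≠ k ∧ j ≠ k := by
  revert i j; decide

theorem cover (i j k : Fin 3) (hij : i ≠ j) (hik : i ≠ k) (hjk : j ≠ k) (t : Fin 3) :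
    t = i ∨ t = j ∨ t = k := by
  revert i j k t; decide

/-- Algebraic independence of a pair. -/
theorem indep_pair (a b : F) (ha : Transcendental ℚ a)
    (hb : Transcendental (adjoin ℚ ({a} : Set F)) b) : AlgebraicIndependent ℚ ![a, b] := by
  have h1 : AlgebraicIndependent ℚ (fun _ : Unit => a) := by
    rw [algebraicIndependent_unique_type_iff]; exact ha
  have h2 : AlgebraicIndependent ℚ (fun o : Option Unit => o.elim b (fun _ => a)) := by
    rw [AlgebraicIndependent.option_iff]
    refine ⟨h1, ?_⟩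
    have : Set.range (fun _ : Unit => a) = {a} := Set.range_const
    rw [this, ← IntermediateField.transcendental_adjoin_iff]
    exact hb
  have h3 := h2.comp (fun t : Fin 2 => if t = 0 then some () else none) (by
    intro s t h
    fin_cases s <;> fin_cases t <;> simp_all)
  convert! h3 using 1
  funext t
  fin_cases t <;> rfl

/-- Algebraic independence of three. -/
theorem indep_three (x : Fin 3 → F) (i j k : Fin 3) (hij : i ≠ j) (hik : i ≠ k) (hjk : j ≠ k)
    (h : AlgebraicIndependent ℚ ![x i, x j])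
    (hk : Transcendental (adjoin ℚ ({x i, x j} : Set F)) (x k)) : AlgebraicIndependent ℚ x := by
  have h2 : AlgebraicIndependent ℚ (fun o : Option (Fin 2) => o.elim (x k) ![x i, x j]) := by
    rw [AlgebraicIndependent.option_iff]
    refine ⟨h, ?_⟩
    have : Set.range ![x i, x j] = {x i, x j} := by
      simp [Matrix.range_cons, Set.pair_comm]
    rw [this, ← IntermediateField.transcendental_adjoin_iff]
    exact hk
  have h3 := h2.comp (fun t : Fin 3 => if t = i then some 0 else if t = j then some 1 else none) (by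
    intro s t h
    rcases cover i j k hij hik hjk s with rfl | rfl | rfl <;>
    rcases cover _ _ _ hij hik hjk t with rfl | rfl | rfl <;>
    simp_all [eq_comm])
  convert! h3 using 1
  funext t
  rcases cover i j k hij hik hjk t with rfl | rfl | rfl
  · simp
  · simp [hij.symm]
  · simp [hik.symm, hjk.symm]

theorem ne_of_indep (x : Fin 3 → F) (i j : Fin 3) (h : AlgebraicIndependent ℚ ![x i, x j]) :
    i ≠ j := by
  rintro rfl
  have := h.injective (a₁ := 0) (a₂ := 1) (by simp)
  exact absurd this (by decide)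

theorem part_ii (x : Fin 3 → F) (h0 : ∀ i, x i ≠ 0) (h1 : ∀ i, x i ≠ 1) (i j : Fin 3)
    (hind : AlgebraicIndependent ℚ ![x i, x j]) (u v : Fin 3 ⊕ Fin 3 → ℤ)
    (hli : LinearIndependent ℤ ![u, v]) (hu : mono (co x) u = 1) (hv : mono (co x) v = 1) :
    Small 6 x := by
  have hij := ne_of_indep x i j hind
  obtain ⟨k, hik, hjk⟩ := third i j hij
  by_cases hk : IsAlgebraic (adjoin ℚ ({x i, x j} : Set F)) (x k)
  · exact surf x h0 h1 i j k hij hik hjk hind hk u v hli hu hv
  · exfalso
    have := three x h0 h1 (indep_three x i j k hij hik hjk hind hk) u hu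
    exact hli.ne_zero 0 (by simpa using this)

theorem pair_of_three (u : Fin 3 → (Fin 3 ⊕ Fin 3 → ℤ)) (hu : LinearIndependent ℤ u) :
    LinearIndependent ℤ ![u 0, u 1] := by
  have := hu.comp (Fin.castSucc : Fin 2 → Fin 3) (Fin.castSucc_injective 2)
  convert! this using 1
  funext t
  fin_cases t <;> rfl

theorem alg_top (x : Fin 3 → F) (hgen : adjoin ℚ (Set.range x) = ⊤)
    (h : ∀ j, IsAlgebraic (adjoin ℚ ({x 0} : Set F)) (x j)) :
    Algebra.IsAlgebraic (adjoin ℚ ({x 0} : Set F)) F := by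
  have hle : adjoin ℚ (Set.range x) ≤
      (algebraicClosure (adjoin ℚ ({x 0} : Set F)) F).restrictScalars ℚ := by
    rw [adjoin_le_iff]
    rintro _ ⟨j, rfl⟩
    exact mem_algebraicClosure_iff.2 (h j)
  refine ⟨fun z => ?_⟩
  have hz : z ∈ adjoin ℚ (Set.range x) := by rw [hgen]; trivial
  exact mem_algebraicClosure_iff.1 (hle hz)

theorem part_i (E : Finset (Fin 2 ⊕ Fin 2 → ℤ)) (hE0 : (0 : Fin 2 ⊕ Fin 2 → ℤ) ∉ E)
    (hE : ∀ (K : Type) [Field K] [NumberField K] (x : Fin 2 → K), (∀ i, x i ≠ 0) →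
      (∀ i, x i ≠ 1) → RankLe 1 (co x) → ∃ e ∈ E, mono (co x) e = 1)
    (x : Fin 3 → F) (h0 : ∀ i, x i ≠ 0) (h1 : ∀ i, x i ≠ 1)
    (hgen : adjoin ℚ (Set.range x) = ⊤) (hna : ¬ ∀ i, IsAlgebraic ℚ (x i))
    (u : Fin 3 → (Fin 3 ⊕ Fin 3 → ℤ)) (hu : LinearIndependent ℤ u)
    (hrel : ∀ t, mono (co x) (u t) = 1) : Small (max 2880 (E.sup nrm)) x := by
  by_cases hind : ∃ i j, AlgebraicIndependent ℚ ![x i, x j]
  · obtain ⟨i, j, hind⟩ := hind
    exact small_mono (le_max_of_le_left (by norm_num)) x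
      (part_ii x h0 h1 i j hind (u 0) (u 1) (pair_of_three u hu) (hrel 0) (hrel 1))
  push Not at hind hna
  obtain ⟨i, hi⟩ := hna
  obtain ⟨j, hji⟩ := exists_ne i
  have hij : i ≠ j := hji.symm
  obtain ⟨k, hik, hjk⟩ := third i j hij
  by_cases hj : IsAlgebraic ℚ (x j)
  · by_cases hk : IsAlgebraic ℚ (x k)
    · exact small_mono (le_max_right _ _) x
        (caseA E hE0 hE x h0 h1 i j k hij hik hjk hi hj hk u hu hrel)
    · exact small_mono (le_max_of_le_left (by norm_num)) x
        (caseB x h0 h1 i k j hik hij hjk.symm hi hk hj u hu hrel)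
  · by_cases hk : IsAlgebraic ℚ (x k)
    · exact small_mono (le_max_of_le_left (by norm_num)) x
        (caseB x h0 h1 i j k hij hik hjk hi hj hk u hu hrel)
    · have htr : ∀ t, Transcendental ℚ (x t) := by
        intro t
        rcases cover i j k hij hik hjk t with rfl | rfl | rfl
        · exact hi
        · exact hj
        · exact hk
      refine small_mono (le_max_left _ _) x (caseC x h0 h1 htr hgen (alg_top x hgen ?_) u hu hrel)
      intro t
      by_contra ht
      exact hind 0 t (indep_pair (x 0) (x t) (htr 0) ht)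

/-- All nonzero integer vectors of size at most `B`. -/
noncomputable def box (B : ℕ) : Finset (Fin 3 ⊕ Fin 3 → ℤ) :=
  (Fintype.piFinset fun _ => Finset.Icc (-(B : ℤ)) B).filter (· ≠ 0)

theorem mem_box (B : ℕ) (m : Fin 3 ⊕ Fin 3 → ℤ) (h0 : m ≠ 0) (h : nrm m ≤ B) : m ∈ box B := by
  rw [box, Finset.mem_filter, Fintype.mem_piFinset]
  refine ⟨fun s => ?_, h0⟩
  have : (m s).natAbs ≤ B := le_trans (Finset.le_sup (f := fun i => (m i).natAbs)
    (Finset.mem_univ s)) h
  rw [Finset.mem_Icc]
  omega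

theorem map_mono {K L ι : Type} [Field K] [Field L] [Fintype ι] (φ : K →+* L) (x : ι → K)
    (u : ι ⊕ ι → ℤ) : φ (mono (co x) u) = mono (co fun i => φ (x i)) u := by
  unfold mono
  rw [map_prod]
  refine Finset.prod_congr rfl fun s _ => ?_
  rw [map_zpow₀]
  rcases s with i | i <;> simp [co]

/-- **Transcendental points of `L^3` with many relations.** -/
theorem trans_relation (hpair : PairsOne) :
    ∃ E : Finset (Fin 3 ⊕ Fin 3 → ℤ), (0 : Fin 3 ⊕ Fin 3 → ℤ) ∉ E ∧
      ∀ (F : Type) [Field F] [CharZero F] (x : Fin 3 → F), (∀ i, x i ≠ 0) → (∀ i, x i ≠ 1) →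
        ((¬ ∀ i, IsAlgebraic ℚ (x i)) → (∃ u : Fin 3 → (Fin 3 ⊕ Fin 3 → ℤ),
          LinearIndependent ℤ u ∧ ∀ t, mono (co x) (u t) = 1) → ∃ e ∈ E, mono (co x) e = 1) ∧
        ((∃ i j, AlgebraicIndependent ℚ ![x i, x j]) → (∃ u : Fin 2 → (Fin 3 ⊕ Fin 3 → ℤ),
          LinearIndependent ℤ u ∧ ∀ t, mono (co x) (u t) = 1) → ∃ e ∈ E, mono (co x) e = 1) := by
  obtain ⟨E, hE0, hE⟩ := hpair
  refine ⟨box (max 2880 (E.sup nrm)), by simp [box], ?_⟩
  intro F _ _ x h0 h1
  constructor
  · rintro hna ⟨u, hu, hrel⟩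
    let F0 := adjoin ℚ (Set.range x)
    let y : Fin 3 → F0 := fun i => ⟨x i, subset_adjoin _ _ ⟨i, rfl⟩⟩
    have hxy : ∀ i, algebraMap F0 F (y i) = x i := fun i => rfl
    have hmon : ∀ m, algebraMap F0 F (mono (co y) m) = mono (co x) m := fun m =>
      map_mono (algebraMap F0 F) y m
    have hmon1 : ∀ m, mono (co x) m = 1 ↔ mono (co y) m = 1 := fun m => by
      rw [← hmon]
      exact ⟨fun h => (algebraMap F0 F).injective (by rw [h, map_one]), fun h => by rw [h, map_one]⟩
    obtain ⟨m, hm0, hm, h⟩ := part_i E hE0 hE y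
      (fun i h => h0 i (by rw [← hxy i, h, map_zero]))
      (fun i h => h1 i (by rw [← hxy i, h, map_one]))
      (by
        rw [eq_top_iff]
        rintro z -
        have hz : (z : F) ∈ adjoin ℚ (Set.range x) := z.2
        have himg : (Subtype.val '' Set.range y : Set F) = Set.range x := by
          rw [← Set.range_comp]; rfl
        have : (z : F) ∈ IntermediateField.lift (adjoin ℚ (Set.range y)) := by
          rw [IntermediateField.lift_adjoin, himg]; exact hz
        exact (IntermediateField.mem_lift _).1 this)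
      (fun hall => hna fun i => by
        exact (hall i).algHom F0.val) u hu
      (fun t => (hmon1 _).1 (hrel t))
    exact ⟨m, mem_box _ m hm0 hm, (hmon1 m).2 h⟩
  · rintro ⟨i, j, hind⟩ ⟨u, hu, hrel⟩
    have hu' : LinearIndependent ℤ ![u 0, u 1] := by
      convert! hu using 1
      funext t
      fin_cases t <;> rfl
    obtain ⟨m, hm0, hm, h⟩ := part_ii x h0 h1 i j hind (u 0) (u 1) hu' (hrel 0) (hrel 1)
    exact ⟨m, mem_box _ m hm0 (hm.trans (le_max_of_le_left (by norm_num))), h⟩

end Pool.Agent.LThreeC
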