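import Pool.Agent.LThree.Inputs
import Pool.Agent.LThreeC.Final

set_option autoImplicit false

/-! The two statements of `LThree/Inputs.lean` on transcendental points. -/

namespace Pool.Agent.LThreeC

open Pool.Agent.LThree

theorem transTwo : TransTwo := by
  refine ⟨6, ?_⟩
  rintro F _ _ x hx ⟨i, j, -, hind⟩ ⟨u, hu, hrel⟩
  have hu' : LinearIndependent ℤ ![u 0, u 1] := by
    convert! hu using 1
    funext t
    fin_cases t <;> rfl
  exact part_ii x (fun i => (hx i).1) (fun i => (hx i).2) i j hind (u 0) (u 1) hu' (hrel 0)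
    (hrel 1)

theorem transThree (hpair : PairsOne) : TransThree := by
  obtain ⟨E, hE0, hE⟩ := trans_relation hpair
  refine ⟨E.sup nrm, ?_⟩
  rintro F _ _ x hx ⟨i, hi⟩ hu
  obtain ⟨e, he, hme⟩ := (hE F x (fun i => (hx i).1) (fun i => (hx i).2)).1
    (fun h => hi (h i)) hu
  exact ⟨e, fun h => hE0 (h ▸ he), Finset.le_sup (f := nrm) he, hme⟩

end Pool.Agent.LThreeC
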