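import Pool.Agent.LThree.Defs

set_option autoImplicit false

/-! Definitions for the part on transcendental points of `L^3` with many relations
(MP_b7926e_nt, folder LThreeC). -/

namespace Pool.Agent.LThreeC

open Pool.Agent.LThree Polynomial

/-- Pairs over number fields of rank at most one satisfy one of finitely many relations. -/
def PairsOne : Prop :=
  ∃ E : Finset (Fin 2 ⊕ Fin 2 → ℤ), (0 : Fin 2 ⊕ Fin 2 → ℤ) ∉ E ∧
    ∀ (K : Type) [Field K] [NumberField K] (x : Fin 2 → K), (∀ i, x i ≠ 0) → (∀ i, x i ≠ 1) →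
      RankLe 1 (co x) → ∃ e ∈ E, mono (co x) e = 1

/-- The logarithmic derivative. -/
def LD {F : Type} [Field F] [CharZero F] (D : Derivation ℚ F F) (f : F) : F := D f / f

/-- Value of a rational linear form. -/
def ev {F : Type} [Field F] [CharZero F] (l : Fin 3 → ℚ) (G : Fin 3 → F) : F :=
  ∑ i, (l i : F) * G i

/-- Every element of `F` satisfies a polynomial equation of degree at most four over `ℚ[t]`. -/
def Deg4 {F : Type} [Field F] [CharZero F] (t : F) : Prop :=
  ∀ w : F, ∃ c : Fin 5 → ℚ[X], c ≠ 0 ∧ ∑ k : Fin 5, aeval t (c k) * w ^ (k : ℕ) = 0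

/-- Normalised discrete valuations, trivial on `ℚ`, written additively. -/
structure IsOrd {F : Type} [Field F] [CharZero F] (w : F → ℤ) : Prop where
  mul : ∀ a b : F, a ≠ 0 → b ≠ 0 → w (a * b) = w a + w b
  add : ∀ a b : F, a ≠ 0 → b ≠ 0 → a + b ≠ 0 → min (w a) (w b) ≤ w (a + b)
  rat : ∀ q : ℚ, q ≠ 0 → w (q : F) = 0
  surj : ∃ p : F, p ≠ 0 ∧ w p = 1

/-- The six frames of a pair `(l, l')`: the logarithmic derivatives of `s x` and `1 - s x` for
the six symmetries `s` of the line. -/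
def fr (k : Fin 6) (l l' : Fin 3 → ℚ) : (Fin 3 → ℚ) × (Fin 3 → ℚ) :=
  ![(l, l'), (l', l), (-l, l' - l), (l' - l, -l), (-l', l - l'), (l - l', -l')] k

/-- The six symmetries of the line, in the order of `fr`. -/
def sy {F : Type} [Field F] (k : Fin 6) (x : F) : F :=
  ![x, 1 - x, x⁻¹, (x - 1) / x, (1 - x)⁻¹, x / (x - 1)] k

/-- The three numbers and their complements satisfy a relation of size at most `B`. -/
def Small {F : Type} [Field F] (B : ℕ) (x : Fin 3 → F) : Prop :=
  ∃ m : Fin 3 ⊕ Fin 3 → ℤ, m ≠ 0 ∧ nrm m ≤ B ∧ mono (co x) m = 1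

end Pool.Agent.LThreeC
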