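import Pool.Agent.LThreeC.TrMono

set_option autoImplicit false

/-! Package C15: one transcendental coordinate.

`caseA` (`x i` transcendental, `x j, x k` algebraic; `i, j, k` different): in each relation `u t` the
exponents at `inl i, inr i` vanish (`(x i)^a (1 - x i)^b` algebraic over `ℚ` and `x i` transcendental
give `a = b = 0`: `tr_mono`). So the restrictions of the `u t` to the four coordinates of `j, k` are
three independent relations of the pair `![x j, x k]`, whose coordinates lie in the number field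
`adjoin ℚ {x j, x k}`; `RankLe 1` holds with `U` = the `ℚ`-span of the three vectors (an integer
vector `a` in `U` has a multiple `n a` in their `ℤ`-span). `hE` gives `e ∈ E`; extend it by zero. -/

namespace Pool.Agent.LThreeC

open Pool.Agent.LThree

variable {F : Type} [Field F] [CharZero F]

theorem caseA_prod3 {M : Type} [CommMonoid M] (f : Fin 3 → M) (i j k : Fin 3) (hij : i ≠ j)
    (hik : i ≠ k) (hjk : j ≠ k) : ∏ a, f a = f i * (f j * f k) := by
  have h : (Finset.univ : Finset (Fin 3)) = {i, j, k} := by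
    revert i j k; decide
  rw [h, Finset.prod_insert (by simp [hij, hik]), Finset.prod_insert (by simp [hjk]),
    Finset.prod_singleton]

/-- A family of integral relations gives `RankLe`. -/
theorem caseA_rank {K : Type} [Field K] {ι : Type} [Fintype ι] (z : ι → K) (hz : ∀ i, z i ≠ 0)
    (r : Fin 3 → (ι → ℤ)) (hr : LinearIndependent ℤ r) (hcard : Fintype.card ι = 4)
    (hrel : ∀ t, mono z (r t) = 1) : RankLe 1 z := by
  classical
  set R : Fin 3 → (ι → ℚ) := fun t i => (r t i : ℚ) with hR
  have hRli : LinearIndependent ℚ R := by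
    rw [← LinearIndependent.iff_fractionRing ℤ ℚ]
    let c : (ι → ℤ) →ₗ[ℤ] (ι → ℚ) :=
      { toFun := fun v i => (v i : ℚ)
        map_add' := fun v w => by ext i; simp
        map_smul' := fun m v => by ext i; simp }
    have hc : LinearMap.ker c = ⊥ := by
      rw [LinearMap.ker_eq_bot]
      intro v w h
      ext i
      have := congrFun h i
      simpa [c] using this
    exact hr.map' c hc
  refine ⟨Submodule.span ℚ (Set.range R), ?_, ?_⟩
  · rw [finrank_span_eq_card hRli, hcard]; simp
  · intro a ha
    rw [Submodule.mem_span_range_iff_exists_fun] at ha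
    obtain ⟨c, hc⟩ := ha
    set n : ℕ := ∏ t, (c t).den with hn
    have hn0 : 0 < n := Finset.prod_pos fun t _ => (c t).den_pos
    have hm : ∀ t, ∃ m : ℤ, (n : ℚ) * c t = (m : ℚ) := by
      intro t
      obtain ⟨w, hw⟩ : (c t).den ∣ n := Finset.dvd_prod_of_mem _ (Finset.mem_univ t)
      refine ⟨(w : ℤ) * (c t).num, ?_⟩
      rw [hw]
      push_cast
      have h1 := Rat.mul_den_eq_num (c t)
      linear_combination (w : ℚ) * h1
    choose m hm using hm
    refine ⟨n, hn0, ?_⟩
    have hai : ∀ i, a i * (n : ℤ) = ∑ t, m t * r t i := by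
      intro i
      have h1 := congrFun hc i
      simp only [Finset.sum_apply, Pi.smul_apply, smul_eq_mul, hR] at h1
      have h2 : ((a i * (n : ℤ) : ℤ) : ℚ) = ((∑ t, m t * r t i : ℤ) : ℚ) := by
        push_cast
        rw [← h1, Finset.sum_mul]
        refine Finset.sum_congr rfl fun t _ => ?_
        rw [← hm t]; ring
      exact_mod_cast h2
    calc mono z a ^ n = ∏ i, z i ^ (a i * (n : ℤ)) := by
          rw [mono, ← Finset.prod_pow]
          refine Finset.prod_congr rfl fun i _ => ?_
          rw [zpow_mul, zpow_natCast]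
      _ = ∏ i, ∏ t, z i ^ (m t * r t i) := by
          refine Finset.prod_congr rfl fun i _ => ?_
          rw [hai i]
          generalize (Finset.univ : Finset (Fin 3)) = s
          induction s using Finset.induction_on with
          | empty => simp
          | insert b s hb ih =>
            rw [Finset.sum_insert hb, Finset.prod_insert hb, zpow_add₀ (hz i), ih]
      _ = ∏ t, mono z (r t) ^ (m t) := by
          rw [Finset.prod_comm]
          refine Finset.prod_congr rfl fun t _ => ?_
          rw [mono, ← Finset.prod_zpow]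
          refine Finset.prod_congr rfl fun i _ => ?_
          rw [mul_comm (m t), zpow_mul]
      _ = 1 := by simp [hrel]

theorem caseA (E : Finset (Fin 2 ⊕ Fin 2 → ℤ)) (hE0 : (0 : Fin 2 ⊕ Fin 2 → ℤ) ∉ E)
    (hE : ∀ (K : Type) [Field K] [NumberField K] (x : Fin 2 → K), (∀ i, x i ≠ 0) →
      (∀ i, x i ≠ 1) → RankLe 1 (co x) → ∃ e ∈ E, mono (co x) e = 1)
    (x : Fin 3 → F) (h0 : ∀ i, x i ≠ 0) (h1 : ∀ i, x i ≠ 1) (i j k : Fin 3) (hij : i ≠ j)
    (hik : i ≠ k) (hjk : j ≠ k) (hi : Transcendental ℚ (x i)) (hj : IsAlgebraic ℚ (x j))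
    (hk : IsAlgebraic ℚ (x k)) (u : Fin 3 → (Fin 3 ⊕ Fin 3 → ℤ)) (hu : LinearIndependent ℤ u)
    (hrel : ∀ t, mono (co x) (u t) = 1) : Small (E.sup nrm) x := by
  classical
  have hsub : ∀ a, (1 : F) - x a ≠ 0 := fun a h => h1 a (sub_eq_zero.1 h).symm
  have hco : ∀ s, co x s ≠ 0 := by
    rintro (s | s)
    · exact h0 s
    · exact hsub s
  -- the exponents at `i` vanish
  have halg : ∀ a, IsAlgebraic ℚ (x a) → ∀ n : ℤ, IsAlgebraic ℚ (x a ^ n) := by
    intro a ha n
    rcases Int.eq_nat_or_neg n with ⟨m, rfl | rfl⟩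
    · rw [zpow_natCast]; exact ha.pow m
    · rw [zpow_neg, zpow_natCast]; exact (ha.pow m).inv
  have halg' : ∀ a, IsAlgebraic ℚ (x a) → ∀ n : ℤ, IsAlgebraic ℚ ((1 - x a) ^ n) := by
    intro a ha n
    have hb : IsAlgebraic ℚ (1 - x a) := isAlgebraic_one.sub ha
    rcases Int.eq_nat_or_neg n with ⟨m, rfl | rfl⟩
    · rw [zpow_natCast]; exact hb.pow m
    · rw [zpow_neg, zpow_natCast]; exact (hb.pow m).inv
  have hvan : ∀ t, u t (Sum.inl i) = 0 ∧ u t (Sum.inr i) = 0 := by
    intro t
    apply tr_mono (x i) hi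
    have h2 := hrel t
    rw [mono, Fintype.prod_sum_type, caseA_prod3 _ i j k hij hik hjk,
      caseA_prod3 (fun a => co x (Sum.inr a) ^ u t (Sum.inr a)) i j k hij hik hjk] at h2
    simp only [co, Sum.elim_inl, Sum.elim_inr] at h2
    set A : F := x j ^ u t (Sum.inl j) * x k ^ u t (Sum.inl k) *
      ((1 - x j) ^ u t (Sum.inr j) * (1 - x k) ^ u t (Sum.inr k)) with hA
    have hAalg : IsAlgebraic ℚ A :=
      ((halg j hj _).mul (halg k hk _)).mul ((halg' j hj _).mul (halg' k hk _))
    have h3 : (x i ^ u t (Sum.inl i) * (1 - x i) ^ u t (Sum.inr i)) * A = 1 := by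
      refine Eq.trans ?_ h2
      rw [hA]; ring
    have h4 : x i ^ u t (Sum.inl i) * (1 - x i) ^ u t (Sum.inr i) = A⁻¹ :=
      eq_inv_of_mul_eq_one_left h3
    rw [h4]
    exact hAalg.inv
  -- the embedding of the coordinates
  set σ : Fin 2 → Fin 3 := ![j, k] with hσ
  have hσi : Function.Injective σ := by
    intro a b h
    fin_cases a <;> fin_cases b <;> simp_all [Ne.symm hjk]
  set φ : Fin 2 ⊕ Fin 2 → Fin 3 ⊕ Fin 3 := Sum.map σ σ with hφ
  have hφi : Function.Injective φ := hσi.sumMap hσi
  have hrange : ∀ s, s ∉ Set.range φ → s = Sum.inl i ∨ s = Sum.inr i := by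
    intro s hs
    have hcase : ∀ a : Fin 3, a = i ∨ a = j ∨ a = k := by
      clear_value φ σ
      revert hij hik hjk
      clear * -
      revert i j k
      decide
    rcases s with a | a
    · left
      rcases hcase a with h | h | h
      · rw [h]
      · exact absurd ⟨Sum.inl 0, by simp [hφ, hσ, h]⟩ hs
      · exact absurd ⟨Sum.inl 1, by simp [hφ, hσ, h]⟩ hs
    · right
      rcases hcase a with h | h | h
      · rw [h]
      · exact absurd ⟨Sum.inr 0, by simp [hφ, hσ, h]⟩ hs
      · exact absurd ⟨Sum.inr 1, by simp [hφ, hσ, h]⟩ hs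
  have hmono : ∀ m : Fin 3 ⊕ Fin 3 → ℤ, (∀ s, s ∉ Set.range φ → m s = 0) →
      mono (co x) m = mono (co (x ∘ σ)) (m ∘ φ) := by
    intro m hm
    rw [mono, mono]
    symm
    refine Fintype.prod_of_injective φ hφi _ _ ?_ ?_
    · intro s hs
      rw [hm s hs, zpow_zero]
    · rintro (s | s) <;> simp [hφ, co]
  -- the number field
  have hfin : FiniteDimensional ℚ (IntermediateField.adjoin ℚ ({x j, x k} : Set F)) := by
    apply IntermediateField.finiteDimensional_adjoin
    rintro y (rfl | rfl)
    · exact hj.isIntegral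
    · exact hk.isIntegral
  set K := IntermediateField.adjoin ℚ ({x j, x k} : Set F) with hK
  have : NumberField K := { to_charZero := inferInstance, to_finiteDimensional := hfin }
  have hxj : x j ∈ K := IntermediateField.subset_adjoin _ _ (by simp)
  have hxk : x k ∈ K := IntermediateField.subset_adjoin _ _ (by simp)
  have hmem : ∀ a, (x ∘ σ) a ∈ K := by
    intro a
    fin_cases a
    · exact hxj
    · exact hxk
  set y : Fin 2 → K := fun a => ⟨(x ∘ σ) a, hmem a⟩ with hy
  have hyval : ∀ e : Fin 2 ⊕ Fin 2 → ℤ, ((mono (co y) e : K) : F) = mono (co (x ∘ σ)) e := by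
    intro e
    rw [mono, mono]
    rw [show ((∏ s, co y s ^ e s : K) : F) = K.val (∏ s, co y s ^ e s) from rfl, map_prod]
    refine Finset.prod_congr rfl fun s _ => ?_
    rw [map_zpow₀]
    rcases s with s | s
    · rfl
    · simp only [co, Sum.elim_inr, map_sub, map_one]
      rfl
  have hy0 : ∀ a, y a ≠ 0 := by
    intro a h
    have := congrArg (fun z : K => (z : F)) h
    exact h0 (σ a) this
  have hy1 : ∀ a, y a ≠ 1 := by
    intro a h
    have := congrArg (fun z : K => (z : F)) h
    exact h1 (σ a) this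
  have hcoy : ∀ s, co y s ≠ 0 := by
    rintro (s | s)
    · exact hy0 s
    · exact fun h => hy1 s (sub_eq_zero.1 h).symm
  have hsupp : ∀ t s, s ∉ Set.range φ → u t s = 0 := by
    intro t s hs
    rcases hrange s hs with h | h
    · rw [h]; exact (hvan t).1
    · rw [h]; exact (hvan t).2
  have hrank : RankLe 1 (co y) := by
    refine caseA_rank (co y) hcoy (fun t => u t ∘ φ) ?_ (by simp) ?_
    · rw [Fintype.linearIndependent_iff] at hu ⊢
      intro g hg
      apply hu g
      ext s
      by_cases hs : s ∈ Set.range φ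
      · obtain ⟨s', rfl⟩ := hs
        have := congrFun hg s'
        simpa using this
      · simp [hsupp _ s hs]
    · intro t
      have h2 : ((mono (co y) (u t ∘ φ) : K) : F) = ((1 : K) : F) := by
        rw [hyval, ← hmono (u t) (hsupp t), hrel t]
        rfl
      exact Subtype.ext h2
  obtain ⟨e, heE, he1⟩ := hE K y hy0 hy1 hrank
  refine ⟨Function.extend φ e 0, ?_, ?_, ?_⟩
  · intro h
    apply hE0
    have h2 : e = 0 := by
      ext s
      have := congrFun h (φ s)
      rw [hφi.extend_apply] at this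
      simpa using this
    rwa [h2] at heE
  · refine le_trans ?_ (Finset.le_sup (f := nrm) heE)
    rw [nrm]
    refine Finset.sup_le fun s _ => ?_
    by_cases hs : ∃ a, φ a = s
    · obtain ⟨a, rfl⟩ := hs
      rw [hφi.extend_apply]
      exact Finset.le_sup (f := fun b => (e b).natAbs) (Finset.mem_univ a)
    · rw [Function.extend_apply' _ _ _ hs]; simp
  · rw [hmono _ (fun s hs => by
      rw [Function.extend_apply' _ _ _ hs]; rfl)]
    have h2 : Function.extend φ e 0 ∘ φ = e := by
      ext s
      simp [hφi.extend_apply]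
    rw [h2, ← hyval, he1]
    rfl

end Pool.Agent.LThreeC
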