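import Pool.Agent.LThreeC.Defs

set_option autoImplicit false

/-! Package C22 (short): `x^a (1-x)^b` is transcendental if `x` is.

PROOF. `x^a (1-x)^b = c` with `c` algebraic over the field `k`: clear the negative exponents: `x`
is a root of the polynomial `X^(a⁺) (1-X)^(b⁺) - c X^(a⁻) (1-X)^(b⁻)` over `k(c)`, which is nonzero
unless `a = b = 0` (compare the orders of vanishing at `0` and `1`; `c ≠ 0`), hence algebraic over
`k(c)` and over `k`. -/

namespace Pool.Agent.LThreeC

open Pool.Agent.LThree

variable {F : Type} [Field F] [CharZero F]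

/-- `x^a (1-x)^b` is transcendental if `x` is. -/
theorem tr_mono {k : Type} [Field k] [Algebra k F] (x : F) (hx : Transcendental k x) (a b : ℤ)
    (h : IsAlgebraic k (x ^ a * (1 - x) ^ b)) : a = 0 ∧ b = 0 := by
  set L := algebraicClosure k F with hL
  have hx' : Transcendental L x := fun h' => hx (h'.restrictScalars k)
  have hx0 : x ≠ 0 := by
    rintro rfl
    exact hx isAlgebraic_zero
  have hx1 : 1 - x ≠ 0 := by
    intro h1
    rw [sub_eq_zero] at h1
    rw [← h1] at hx
    exact hx isAlgebraic_one
  set c : F := x ^ a * (1 - x) ^ b with hc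
  have hc0 : c ≠ 0 := mul_ne_zero (zpow_ne_zero _ hx0) (zpow_ne_zero _ hx1)
  let c' : L := ⟨c, (mem_algebraicClosure_iff).2 h⟩
  have hc'0 : c' ≠ 0 := fun h' => hc0 (congrArg Subtype.val h')
  have hpow : ∀ (y : F) (n : ℤ), y ≠ 0 → y ^ n.toNat = y ^ n * y ^ (-n).toNat := by
    intro y n hy
    rw [← zpow_natCast, ← zpow_natCast, ← zpow_add₀ hy]
    congr 1
    omega
  set P : Polynomial L := Polynomial.X ^ a.toNat * (1 - Polynomial.X) ^ b.toNat -
    Polynomial.C c' * (Polynomial.X ^ (-a).toNat * (1 - Polynomial.X) ^ (-b).toNat) with hP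
  have hPx : Polynomial.aeval x P = 0 := by
    have h1 : Polynomial.aeval x P = x ^ a.toNat * (1 - x) ^ b.toNat -
        c * (x ^ (-a).toNat * (1 - x) ^ (-b).toNat) := by
      rw [hP]
      simp only [map_sub, map_mul, map_pow, Polynomial.aeval_X, Polynomial.aeval_C, map_one]
      rfl
    rw [h1, hpow x a hx0, hpow (1 - x) b hx1, hc]
    ring
  have hP0 : P = 0 := transcendental_iff.1 hx' P hPx
  have heq : ∀ y : L, y ^ a.toNat * (1 - y) ^ b.toNat =
      c' * (y ^ (-a).toNat * (1 - y) ^ (-b).toNat) := by
    intro y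
    have h1 := congrArg (Polynomial.eval y) hP0
    rw [hP] at h1
    simp only [Polynomial.eval_sub, Polynomial.eval_mul, Polynomial.eval_pow, Polynomial.eval_X,
      Polynomial.eval_C, Polynomial.eval_one, Polynomial.eval_zero] at h1
    exact sub_eq_zero.1 h1
  have h0 := heq 0
  have h1 := heq 1
  rw [sub_zero, one_pow, one_pow, mul_one, mul_one] at h0
  rw [sub_self, one_pow, one_pow, one_mul, one_mul] at h1
  constructor
  · rcases lt_trichotomy a 0 with h | h | h
    · rw [show a.toNat = 0 by omega, pow_zero, zero_pow (by omega), mul_zero] at h0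
      exact absurd h0 one_ne_zero
    · exact h
    · rw [show (-a).toNat = 0 by omega, pow_zero, zero_pow (by omega), mul_one] at h0
      exact absurd h0.symm hc'0
  · rcases lt_trichotomy b 0 with h | h | h
    · rw [show b.toNat = 0 by omega, pow_zero, zero_pow (by omega), mul_zero] at h1
      exact absurd h1 one_ne_zero
    · exact h
    · rw [show (-b).toNat = 0 by omega, pow_zero, zero_pow (by omega), mul_one] at h1
      exact absurd h1.symm hc'0

end Pool.Agent.LThreeC
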