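import Pool.Agent.LThreeC.TrMono
import Pool.Agent.LThreeC.PairRel

set_option autoImplicit false

/-! Package C13: algebraic monomials are roots of unity.

PROOF of `tors`. Let `mono (co x) m` be algebraic. If `u 0, u 1, u 2, m` are linearly independent
over `ℤ`, then the subspace of their `ℚ`-span where the two coordinates `inl 2, inr 2` vanish has
dimension `>= 2`, so there are two independent integral combinations `v, v'` of them supported on
the first two coordinates; `mono (co x) v`, `mono (co x) v'` are algebraic, so `pair_eqv_gen` for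
`![x 0, x 1]` gives `Eqv (x 0) (x 1)`, contradiction. So `n m = ∑ a_j u_j` with `n ≠ 0`, and
`mono (co x) m ^ n = 1` (take `|n|`). -/

namespace Pool.Agent.LThreeC

open Pool.Agent.LThree

variable {F : Type} [Field F] [CharZero F]

omit [CharZero F] in
private theorem tz_add {ι : Type} [Fintype ι] (z : ι → F) (hz : ∀ i, z i ≠ 0) (a b : ι → ℤ) :
    mono z (a + b) = mono z a * mono z b := by
  unfold mono
  rw [← Finset.prod_mul_distrib]
  exact Finset.prod_congr rfl fun i _ => by rw [Pi.add_apply, zpow_add₀ (hz i)]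

omit [CharZero F] in
private theorem tz_zero {ι : Type} [Fintype ι] (z : ι → F) : mono z (0 : ι → ℤ) = 1 := by
  unfold mono
  simp

omit [CharZero F] in
private theorem tz_smul {ι : Type} [Fintype ι] (z : ι → F) (n : ℤ) (a : ι → ℤ) :
    mono z (n • a) = mono z a ^ n := by
  unfold mono
  rw [← Finset.prod_zpow]
  refine Finset.prod_congr rfl fun i _ => ?_
  rw [Pi.smul_apply, smul_eq_mul, mul_comm, zpow_mul]

private theorem tz_alg {y : F} (hy : IsAlgebraic ℚ y) (n : ℤ) : IsAlgebraic ℚ (y ^ n) := by
  cases n with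
  | ofNat n => simpa using hy.pow n
  | negSucc n =>
    rw [zpow_negSucc]
    exact (hy.pow (n + 1)).inv

theorem tors (x : Fin 3 → F) (h0 : ∀ i, x i ≠ 0) (h1 : ∀ i, x i ≠ 1)
    (htr : ∀ i, Transcendental ℚ (x i)) (hne : ¬ Eqv (x 0) (x 1))
    (u : Fin 3 → (Fin 3 ⊕ Fin 3 → ℤ)) (hu : LinearIndependent ℤ u)
    (hrel : ∀ j, mono (co x) (u j) = 1) (m : Fin 3 ⊕ Fin 3 → ℤ)
    (hm : IsAlgebraic ℚ (mono (co x) m)) : ∃ n : ℕ, 0 < n ∧ mono (co x) m ^ n = 1 := by
  classical
  have hz : ∀ i, co x i ≠ 0 := by
    rintro (i | i)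
    · exact h0 i
    · exact sub_ne_zero.2 (h1 i).symm
  by_contra hcon
  -- no relation
  have step1 : ∀ (n : ℤ) (a : Fin 3 → ℤ), n • m = ∑ j, a j • u j → n = 0 := by
    intro n a h
    by_contra hn
    apply hcon
    have h2 : mono (co x) m ^ n = 1 := by
      rw [← tz_smul, h]
      have : ∀ s : Finset (Fin 3), mono (co x) (∑ j ∈ s, a j • u j) = 1 := by
        intro s
        induction s using Finset.induction_on with
        | empty => rw [Finset.sum_empty, tz_zero]
        | insert j s hj ih =>
          rw [Finset.sum_insert hj, tz_add _ hz, ih, tz_smul, hrel, one_zpow, one_mul]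
      exact this _
    refine ⟨n.natAbs, Int.natAbs_pos.2 hn, ?_⟩
    rcases Int.natAbs_eq n with h3 | h3
    · rw [h3, zpow_natCast] at h2
      exact h2
    · rw [h3, zpow_neg, zpow_natCast, inv_eq_one] at h2
      exact h2
  set w : Fin 4 → (Fin 3 ⊕ Fin 3 → ℤ) := Fin.cons m u with hw
  have hwli : LinearIndependent ℤ w := by
    rw [Fintype.linearIndependent_iff]
    intro g hg
    rw [Fin.sum_univ_succ] at hg
    simp only [hw, Fin.cons_zero, Fin.cons_succ] at hg
    have h2 : g 0 = 0 := by
      refine step1 (g 0) (fun j => - g j.succ) ?_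
      simp only [neg_smul, Finset.sum_neg_distrib]
      exact eq_neg_of_add_eq_zero_left hg
    rw [h2, zero_smul, zero_add] at hg
    have h3 := Fintype.linearIndependent_iff.1 hu (fun j => g j.succ) hg
    intro i
    refine Fin.cases h2 (fun j => h3 j) i
  have hwalg : ∀ c : Fin 4 → ℤ, IsAlgebraic ℚ (mono (co x) (∑ j, c j • w j)) := by
    intro c
    have : ∀ s : Finset (Fin 4), IsAlgebraic ℚ (mono (co x) (∑ j ∈ s, c j • w j)) := by
      intro s
      induction s using Finset.induction_on with
      | empty => rw [Finset.sum_empty, tz_zero]; exact isAlgebraic_one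
      | insert j s hj ih =>
        rw [Finset.sum_insert hj, tz_add _ hz, tz_smul]
        refine IsAlgebraic.mul (tz_alg ?_ _) ih
        refine Fin.cases ?_ (fun j => ?_) j
        · simpa [hw] using hm
        · simp only [hw, Fin.cons_succ, hrel]
          exact isAlgebraic_one
    exact this _
  -- two elements of the kernel
  let φ : (Fin 4 → ℤ) →ₗ[ℤ] (Fin 2 → ℤ) :=
    { toFun := fun c => ![(∑ j, c j • w j) (Sum.inl 2), (∑ j, c j • w j) (Sum.inr 2)]
      map_add' := by
        intro c c'
        ext i
        fin_cases i <;> simp [add_mul, Finset.sum_add_distrib]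
      map_smul' := by
        intro r c
        ext i
        fin_cases i <;> simp [mul_assoc, Finset.mul_sum] }
  have hker : 2 ≤ Module.finrank ℤ (LinearMap.ker φ) := by
    have h2 := Submodule.finrank_quotient_add_finrank (LinearMap.ker φ)
    have h3 : Module.finrank ℤ (LinearMap.range φ) ≤ 2 := by
      refine le_trans (Submodule.finrank_le _) ?_
      simp
    rw [Module.finrank_fin_fun, φ.quotKerEquivRange.finrank_eq] at h2
    omega
  obtain ⟨f, hf⟩ := exists_linearIndependent_of_le_finrank hker
  -- restriction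
  set v : Fin 2 → (Fin 2 ⊕ Fin 2 → ℤ) := fun i t =>
    (∑ j, (f i : Fin 4 → ℤ) j • w j) (Sum.map Fin.castSucc Fin.castSucc t) with hv
  have hzero : ∀ i, (∑ j, (f i : Fin 4 → ℤ) j • w j) (Sum.inl 2) = 0 ∧
      (∑ j, (f i : Fin 4 → ℤ) j • w j) (Sum.inr 2) = 0 := by
    intro i
    have h2 : φ (f i : Fin 4 → ℤ) = 0 := (f i).2
    have h3 := congrFun h2 0
    have h4 := congrFun h2 1
    exact ⟨h3, h4⟩
  have hvmono : ∀ i, mono (co ![x 0, x 1]) (v i) =
      mono (co x) (∑ j, (f i : Fin 4 → ℤ) j • w j) := by
    intro i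
    obtain ⟨h2, h3⟩ := hzero i
    unfold mono
    rw [Fintype.prod_sum_type, Fintype.prod_sum_type, Fin.prod_univ_two, Fin.prod_univ_two,
      Fin.prod_univ_three, Fin.prod_univ_three, h2, h3, zpow_zero, zpow_zero, mul_one, mul_one]
    rfl
  have hvli : LinearIndependent ℤ v := by
    rw [Fintype.linearIndependent_iff]
    intro g hg
    have h2 : ∑ i, g i • (∑ j, (f i : Fin 4 → ℤ) j • w j) = 0 := by
      have h3 : ∀ t : Fin 2 ⊕ Fin 2, (∑ i, g i • (∑ j, (f i : Fin 4 → ℤ) j • w j))
          (Sum.map Fin.castSucc Fin.castSucc t) = 0 := by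
        intro t
        have := congrFun hg t
        rw [Finset.sum_apply] at this
        rw [Finset.sum_apply]
        exact this
      funext t
      rcases t with t | t
      · refine Fin.lastCases ?_ (fun s => ?_) t
        · rw [Finset.sum_apply]
          refine Finset.sum_eq_zero fun i _ => ?_
          rw [Pi.smul_apply]
          have := (hzero i).1
          change g i • (∑ j, (f i : Fin 4 → ℤ) j • w j) (Sum.inl 2) = 0
          rw [this, smul_zero]
        · exact h3 (Sum.inl s)
      · refine Fin.lastCases ?_ (fun s => ?_) t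
        · rw [Finset.sum_apply]
          refine Finset.sum_eq_zero fun i _ => ?_
          rw [Pi.smul_apply]
          have := (hzero i).2
          change g i • (∑ j, (f i : Fin 4 → ℤ) j • w j) (Sum.inr 2) = 0
          rw [this, smul_zero]
        · exact h3 (Sum.inr s)
    have h4 : ∑ j, (∑ i, g i * (f i : Fin 4 → ℤ) j) • w j = 0 := by
      rw [← h2]
      simp only [Finset.sum_smul, Finset.smul_sum, mul_smul]
      exact Finset.sum_comm
    have h5 := Fintype.linearIndependent_iff.1 hwli _ h4
    refine Fintype.linearIndependent_iff.1 hf g ?_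
    ext j
    have := h5 j
    simpa using this
  refine hne (pair_eqv_gen ![x 0, x 1] ?_ ?_ ?_ (v 0) (v 1) ?_ ?_ ?_)
  · intro i; fin_cases i
    · exact h0 0
    · exact h0 1
  · intro i; fin_cases i
    · exact h1 0
    · exact h1 1
  · intro i; fin_cases i
    · exact htr 0
    · exact htr 1
  · have : ![v 0, v 1] = v := by
      funext i
      fin_cases i <;> rfl
    rw [this]
    exact hvli
  · rw [hvmono]
    exact hwalg _
  · rw [hvmono]
    exact hwalg _

end Pool.Agent.LThreeC
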